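import Pool.Agent.KS6_77.ID.CRg

/-!
# Log uniformization of covers of exponent one
-/

set_option autoImplicit false
set_option linter.unusedVariables false
set_option linter.unusedSectionVars false

universe u v w

namespace Pool.Agent.KS6_77.ID

open MvPolynomial IsLocalRing Pool.Agent.Q40.RP Pool.Agent.W418.LU2 Pool.Agent.TH188.QS
  Pool.Agent.KS6_77.IC Function

section cgp

variable {K : Type u} [Field K] {L : Type w} [Field L] {k : Type v} [Field k] {n : ℕ} (p : ℕ)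
  [hpr : Fact p.Prime] [CharP K p]
  {O : Subring K} {ρ0 : O →+* k} {S : Finset O} {piv : (Fin n → O) → Fin n}
  {φ : L →+* K} {ψ : K →+* L}

/-- A good stage for the cover. -/
structure CGF (φ : L →+* K) (ψ : K →+* L) (p : ℕ) (piv : (Fin n → O) → Fin n) (s0 : Sta K n)
    (ω : ℕ → Fin n → O) (W : ValuationSubring L) (m : ℕ) (j : Fin n) (y Y : Fin n → L) : Prop where
  mem : ∀ i, φ (y i) ∈ (sq piv s0 ω (m + 1)).1
  reg : RegP W.toSubring ((sq piv s0 ω (m + 1)).1.comap φ) Y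
  gen : ∀ w, φ w ∈ (sq piv s0 ω (m + 1)).1 →
    ∃ c : (Fin n → Fin p) → (sq piv s0 ω (m + 1)).1, w = ∑ b, ψ (c b) * ∏ i, y i ^ (b i : ℕ)
  sm : ∀ f, PMon (sq piv s0 ω m).1 (sq piv s0 ω m).2 f → Sm (sq piv s0 ω (m + 1)) j f
  mon : ∀ h, h ≠ 0 → Sm (sq piv s0 ω (m + 1)) j (φ h) →
    PMon ((sq piv s0 ω (m + 1)).1.comap φ) Y h

variable {ω : ℕ → Fin n → O} (hd : Dat O ρ0 S piv) (hω : ∀ l, IsLt S (ω l)) {s0 : Sta K n}
  (h0 : Gd O ρ0 s0) {V : ValuationSubring K}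
  (hV : ∀ z, z ∈ V ↔ ∃ l, z ∈ (sq piv s0 ω l).1)
  (hφ : ∀ q, φ (ψ q) = q ^ p) {W : ValuationSubring L} (hW : ∀ w, w ∈ W ↔ φ w ∈ V)

include hd hω h0 hV hφ hW

/-- The cover is a localization of an algebra of finite type. -/
theorem cov_fgF (hr : RegP V.toSubring s0.1 s0.2) {l0 l : ℕ} {j : Fin n} {y Y : Fin n → L}
    (h : CGF φ ψ p piv s0 ω W (l0 + l) j y Y) :
    ∃ D : L, PMon ((sq piv s0 ω (l0 + l + 1)).1.comap φ) Y D ∧
      Fg W ((sq piv s0 ω l0).1.comap φ) ((sq piv s0 ω (l0 + l + 1)).1.comap φ) D := by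
  classical
  have hmono := sq_mono (piv := piv) (s0 := s0) (ω := ω)
  obtain ⟨g, hFg, hgm⟩ := sq_fg hd hω h0 hV hr l0 l
  obtain ⟨hgQ, hg0, T, hTf, hT, hQ1⟩ := id hFg
  have hxj : (sq piv s0 ω (l0 + l + 1)).2 j ≠ 0 := ((sq_gd hd hω h0 _).nu j).2.1
  have hBV : Subring.closure (((sq piv s0 ω l0).1 : Set K) ∪ T) ≤ V.toSubring :=
    cl_le (sq_le hd hω h0 hV l0) fun t ht => (hT t ht).1
  -- denominators for the generators
  obtain ⟨b, hb, hb0, hbV, hbz⟩ := exists_cd (V := V)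
    (B := Subring.closure (((sq piv s0 ω l0).1 : Set K) ∪ T))
    (F := Set.range fun i => φ (y i)) (Set.finite_range _) (by
      rintro _ ⟨i, rfl⟩
      rw [← hQ1]
      exact h.mem i)
  obtain ⟨r, hrr⟩ := exists_dens (A := (sq piv s0 ω l0).1) (T := T) hgQ (fun t ht => (hT t ht).2)
    (F := insert b (Set.range fun i => b * φ (y i))) ((Set.finite_range _).insert _) (by
      rintro t (rfl | ⟨i, rfl⟩)
      · exact hb
      · exact hbz _ ⟨i, rfl⟩)
  obtain ⟨e, he⟩ : ∃ e, e = g ^ r * b := ⟨_, rfl⟩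
  have he0 : e ≠ 0 := by rw [he]; exact mul_ne_zero (pow_ne_zero _ hg0) hb0
  have heQ : e ∈ (sq piv s0 ω l0).1 := by rw [he]; exact hrr _ (Or.inl rfl) r le_rfl
  have hey : ∀ i, e * φ (y i) ∈ (sq piv s0 ω l0).1 := by
    intro i
    rw [he, mul_assoc]
    exact hrr _ (Or.inr ⟨i, rfl⟩) r le_rfl
  have hψP : ∀ q ∈ (sq piv s0 ω l0).1, ψ q ∈ (sq piv s0 ω l0).1.comap φ := fun q hq =>
    psi_mem p hφ hq
  have hdy : ∀ i, y i * ψ e ∈ (sq piv s0 ω l0).1.comap φ := by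
    intro i
    change φ (y i * ψ e) ∈ (sq piv s0 ω l0).1
    obtain ⟨m, hm⟩ := Nat.exists_eq_succ_of_ne_zero hpr.out.ne_zero
    have h1 : φ (y i * ψ e) = e ^ m * (e * φ (y i)) := by
      rw [map_mul, hφ, hm, pow_succ]
      ring
    rw [h1]
    exact Subring.mul_mem _ (Subring.pow_mem _ heQ _) (hey i)
  have hbU : U (sq piv s0 ω (l0 + l + 1)).1 b := by
    refine ⟨hb0, ?_, ?_⟩
    · rw [hQ1]; exact le_lo _ _ hb
    · rw [hQ1]; exact inv_mem_lo hBV (le_lo _ _ hb) hb0 hbV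
  have hgS := h.sm g hgm.pmon
  have heS : Sm (sq piv s0 ω (l0 + l + 1)) j e := by
    rw [he]; exact (hgS.pow r).mul hxj (Sm.unit hbU)
  have hge0 : g * e ≠ 0 := mul_ne_zero hg0 he0
  have hψ0 : ψ (g * e) ≠ 0 := fun h => hge0 (ψ.injective (by rw [h, map_zero]))
  have hyW : ∀ i, y i ∈ W := fun i => (hW _).2 (sq_le hd hω h0 hV _ (h.mem i))
  refine ⟨ψ (g * e), h.mon _ hψ0 ?_, hψP _ (Subring.mul_mem _ hgQ heQ), hψ0,
    Set.range y ∪ ψ '' T, (Set.finite_range y).union (hTf.image _), ?_, ?_⟩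
  · rw [hφ]
    exact (hgS.mul hxj heS).pow p
  · rintro t (⟨i, rfl⟩ | ⟨t, ht, rfl⟩)
    · refine ⟨hyW i, ?_⟩
      have h1 : y i * ψ (g * e) = ψ g * (y i * ψ e) := by rw [map_mul]; ring
      rw [h1]
      exact Subring.mul_mem _ (hψP g hgQ) (hdy i)
    · refine ⟨(hW _).2 ?_, ?_⟩
      · rw [hφ]
        exact V.toSubring.pow_mem (hT t ht).1 p
      · have h1 : ψ t * ψ (g * e) = ψ (t * g) * ψ e := by
          rw [← map_mul, ← map_mul]
          congr 1
          ring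
        rw [h1]
        exact Subring.mul_mem _ (hψP _ (hT t ht).2) (hψP _ heQ)
  · have hC : Subring.closure ((((sq piv s0 ω l0).1.comap φ : Subring L) : Set L) ∪
        (Set.range y ∪ ψ '' T)) ≤ W.toSubring := by
      rw [Subring.closure_le]
      rintro t (ht | ⟨i, rfl⟩ | ⟨t, ht, rfl⟩)
      · exact (hW _).2 (sq_le hd hω h0 hV _ ht)
      · exact hyW i
      · refine (hW _).2 ?_
        rw [hφ]
        exact V.toSubring.pow_mem (hT t ht).1 p
    apply le_antisymm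
    · intro w hw
      obtain ⟨c, hc⟩ := h.gen w hw
      have hyl : ∀ i, y i ∈ lo W.toSubring (Subring.closure ((((sq piv s0 ω l0).1.comap φ :
          Subring L) : Set L) ∪ (Set.range y ∪ ψ '' T))) := fun i =>
        le_lo _ _ (Subring.subset_closure (Or.inr (Or.inl ⟨i, rfl⟩)))
      rw [hc]
      refine Subring.sum_mem _ fun b _ => Subring.mul_mem _ ?_
        (Subring.prod_mem _ fun i _ => Subring.pow_mem _ (hyl i) _)
      refine psi_lo p hd hω h0 hV hφ hW (Q := (sq piv s0 ω l0).1) (T := T) hC ?_ ?_ ?_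
      · intro q hq
        exact le_lo _ _ (Subring.subset_closure (Or.inl (hψP q hq)))
      · intro t ht
        exact le_lo _ _ (Subring.subset_closure (Or.inr (Or.inr ⟨t, ht, rfl⟩)))
      · rw [← hQ1]
        exact (c b).2
    · refine lo_le_ic h.reg.inv ?_
      rw [Subring.closure_le]
      rintro t (ht | ⟨i, rfl⟩ | ⟨t, ht, rfl⟩)
      · exact hmono (show l0 ≤ l0 + l + 1 by omega) ht
      · exact h.mem i
      · refine psi_mem p hφ ?_
        rw [hQ1]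
        exact le_lo _ _ (Subring.subset_closure (Or.inr ht))

/-- The general form of log uniformization. -/
theorem cov_gpF (hr : RegP V.toSubring s0.1 s0.2)
    (hmo : ∀ z : K, z ≠ 0 → ∃ l, PMon (sq piv s0 ω l).1 (sq piv s0 ω l).2 z)
    (hcg : ∀ N, ∃ m, N ≤ m ∧ ∃ j y Y, CGF φ ψ p piv s0 ω W m j y Y)
    {A : Subring L} (hA : A ≤ W.toSubring)
    (hAfr : ∀ w : L, ∃ a ∈ A, ∃ b ∈ A, b ≠ 0 ∧ w = a / b) {T0 T1 : Set L} (hT0 : T0.Finite)
    (hT1 : T1.Finite) (hT0W : ∀ t ∈ T0, t ∈ W) (hT1W : ∀ t ∈ T1, t ∈ W)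
    (hbase : lo W.toSubring (Subring.closure ((A : Set L) ∪ T0)) =
      lo W.toSubring (Subring.closure (((s0.1.map ψ : Subring L) : Set L) ∪ T1))) : GP W A := by
  classical
  have hmono := sq_mono (piv := piv) (s0 := s0) (ω := ω)
  have hpm : ∀ {l l' : ℕ}, l ≤ l' → ∀ z, PMon (sq piv s0 ω l).1 (sq piv s0 ω l).2 z →
      PMon (sq piv s0 ω l').1 (sq piv s0 ω l').2 z := by
    intro l l' hl z hz
    refine PMon.of_gen (fun i => (sq_gd hd hω h0 l').nu i |>.2.1) (hmono hl) (fun i => ?_) hz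
    exact (sq_mo hd hω h0 hl (Mo.self _ _ i)).pmon
  have hfinW : ∀ H : Set L, H.Finite → (∀ h ∈ H, h ∈ W) →
      ∃ N, ∀ z ∈ H, ∀ l, N ≤ l → φ z ∈ (sq piv s0 ω l).1 := by
    intro H hHf hH
    have hch : ∀ z : L, ∃ l, z ∈ H → φ z ∈ (sq piv s0 ω l).1 := by
      intro z
      by_cases hz : z ∈ H
      · obtain ⟨l, hl⟩ := (hV _).1 ((hW z).1 (hH z hz))
        exact ⟨l, fun _ => hl⟩
      · exact ⟨0, fun h => absurd h hz⟩
    choose nn hnn using hch
    refine ⟨hHf.toFinset.sup nn, fun z hz l hl => hmono ?_ (hnn z hz)⟩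
    exact le_trans (Finset.le_sup (hHf.mem_toFinset.2 hz)) hl
  -- the first stage
  obtain ⟨N0, hN0⟩ := hfinW T1 hT1 hT1W
  obtain ⟨m0, hm0, j0, y0, Y0, hc0⟩ := hcg N0
  have hOP : ∀ l, (s0.1.map ψ : Subring L) ≤ (sq piv s0 ω l).1.comap φ := by
    rintro l _ ⟨q, hq, rfl⟩
    exact psi_mem p hφ (hmono (Nat.zero_le l) hq)
  have hAP : lo W.toSubring (Subring.closure ((A : Set L) ∪ T0)) ≤
      (sq piv s0 ω (m0 + 1)).1.comap φ := by
    rw [hbase]
    refine lo_le_ic hc0.reg.inv ?_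
    rw [Subring.closure_le]
    rintro t (ht | ht)
    · exact hOP _ ht
    · exact hN0 t ht (m0 + 1) (by omega)
  obtain ⟨g1, hFg1, -⟩ := sq_fg hd hω h0 hV hr 0 m0
  rw [zero_add] at hFg1
  obtain ⟨-, -, T, hTf, hT, hQ1⟩ := hFg1
  have hfg0 : ∃ g, Fg W A ((sq piv s0 ω (m0 + 1)).1.comap φ) g := by
    have hTW : ∀ t ∈ T0 ∪ (Set.range y0 ∪ ψ '' T), t ∈ W := by
      rintro t (ht | ⟨i, rfl⟩ | ⟨t, ht, rfl⟩)
      · exact hT0W t ht
      · exact (hW _).2 (sq_le hd hω h0 hV _ (hc0.mem i))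
      · refine (hW _).2 ?_
        rw [hφ]
        exact V.toSubring.pow_mem (hT t ht).1 p
    refine fg_of (T := T0 ∪ (Set.range y0 ∪ ψ '' T))
      (hT0.union ((Set.finite_range y0).union (hTf.image _))) hTW ?_ ?_
    · intro t _
      obtain ⟨a, ha, b, hb, hb0, rfl⟩ := hAfr t
      exact ⟨b, hb, hb0, by rwa [div_mul_cancel₀ _ hb0]⟩
    · apply le_antisymm
      · have hle : Subring.closure ((A : Set L) ∪ T0) ≤
            Subring.closure ((A : Set L) ∪ (T0 ∪ (Set.range y0 ∪ ψ '' T))) := by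
          refine Subring.closure_mono ?_
          rintro t (ht | ht)
          · exact Or.inl ht
          · exact Or.inr (Or.inl ht)
        intro w hw
        obtain ⟨c, hc⟩ := hc0.gen w hw
        have hyl : ∀ i, y0 i ∈ lo W.toSubring (Subring.closure ((A : Set L) ∪
            (T0 ∪ (Set.range y0 ∪ ψ '' T)))) := fun i =>
          le_lo _ _ (Subring.subset_closure (Or.inr (Or.inr (Or.inl ⟨i, rfl⟩))))
        rw [hc]
        refine Subring.sum_mem _ fun b _ => Subring.mul_mem _ ?_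
          (Subring.prod_mem _ fun i _ => Subring.pow_mem _ (hyl i) _)
        refine psi_lo p hd hω h0 hV hφ hW (Q := s0.1) (T := T) (cl_le hA hTW) ?_ ?_ ?_
        · intro q hq
          refine lo_mono hle ?_
          rw [hbase]
          exact le_lo _ _ (Subring.subset_closure (Or.inl ⟨q, hq, rfl⟩))
        · intro t ht
          exact le_lo _ _ (Subring.subset_closure (Or.inr (Or.inr (Or.inr ⟨t, ht, rfl⟩))))
        · change (c b : K) ∈ lo V.toSubring (Subring.closure (((sq piv s0 ω 0).1 : Set K) ∪ T))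
          rw [← hQ1]
          exact (c b).2
      · refine lo_le_ic hc0.reg.inv ?_
        rw [Subring.closure_le]
        rintro t (ht | ht | ⟨i, rfl⟩ | ⟨t, ht, rfl⟩)
        · exact hAP (le_lo _ _ (Subring.subset_closure (Or.inl ht)))
        · exact hAP (le_lo _ _ (Subring.subset_closure (Or.inr ht)))
        · exact hc0.mem i
        · refine psi_mem p hφ ?_
          rw [hQ1]
          exact le_lo _ _ (Subring.subset_closure (Or.inr ht))
  obtain ⟨g0, hFg0⟩ := hfg0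
  intro G H hGf hHf hG hH
  have hG' : ∃ N, ∀ z ∈ insert g0 G, ∀ l, N ≤ l →
      PMon (sq piv s0 ω l).1 (sq piv s0 ω l).2 (φ z) := by
    have hch : ∀ z : L, ∃ l, z ∈ insert g0 G →
        PMon (sq piv s0 ω l).1 (sq piv s0 ω l).2 (φ z) := by
      intro z
      by_cases hz : z ∈ insert g0 G
      · have hz0 : z ≠ 0 := by
          rcases hz with rfl | hz
          · exact hFg0.2.1
          · exact (hG z hz).1
        obtain ⟨l, hl⟩ := hmo (φ z) (phi_ne hz0)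
        exact ⟨l, fun _ => hl⟩
      · exact ⟨0, fun h => absurd h hz⟩
    choose nn hnn using hch
    refine ⟨(hGf.insert g0).toFinset.sup nn, fun z hz l hl => hpm ?_ _ (hnn z hz)⟩
    exact le_trans (Finset.le_sup ((hGf.insert g0).mem_toFinset.2 hz)) hl
  obtain ⟨N1, hN1⟩ := hG'
  obtain ⟨N2, hN2⟩ := hfinW H hHf fun h hh => (hH h hh).1
  obtain ⟨m1, hm1, j1, y1, Y1, hc1⟩ := hcg (m0 + 1 + N1 + N2)
  obtain ⟨l, rfl⟩ := Nat.exists_eq_add_of_le (show m0 + 1 ≤ m1 by omega)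
  obtain ⟨D, hD, hFgD⟩ := cov_fgF p hd hω h0 hV hφ hW hr (l0 := m0 + 1) (l := l) hc1
  obtain ⟨u, m, hu, hFg⟩ := fg_trans hA hFg0 hFgD
  have hPmon : ∀ h ∈ insert g0 G, PMon ((sq piv s0 ω (m0 + 1 + l + 1)).1.comap φ) Y1 h := by
    intro h hh
    have hh0 : h ≠ 0 := by
      rcases hh with rfl | hh
      · exact hFg0.2.1
      · exact (hG h hh).1
    exact hc1.mon h hh0 (hc1.sm _ (hN1 h hh (m0 + 1 + l) (by omega)))
  have hle : (sq piv s0 ω (m0 + 1)).1.comap φ ≤ (sq piv s0 ω (m0 + 1 + l + 1)).1.comap φ := by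
    intro w hw
    exact hmono (show m0 + 1 ≤ m0 + 1 + l + 1 by omega) hw
  have hu1 := hu.mono hle
  have hupm : PMon ((sq piv s0 ω (m0 + 1 + l + 1)).1.comap φ) Y1 u :=
    ⟨u, hu1.1, hu1.2.1, hu1.2.2, 0, by rw [mo_zero, mul_one]⟩
  refine ⟨Fin n, inferInstance, Y1, _, _, hc1.reg, hFg, ?_, fun h hh => hPmon h (Or.inr hh),
    fun h hh => ?_⟩
  · exact (Pool.Agent.TH188.QS.PMon.pow hc1.reg.ne (hPmon g0 (Or.inl rfl)) m).mul hc1.reg.ne
      (hupm.mul hc1.reg.ne hD)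
  · exact hN2 h hh (m0 + 1 + l + 1) (by omega)

end cgp

end Pool.Agent.KS6_77.ID
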