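import Pool.Agent.KS6_77.ID.Gst

/-!
# Good stages for the cover
-/

set_option autoImplicit false
set_option linter.unusedVariables false
set_option linter.unusedSectionVars false

universe u v w

namespace Pool.Agent.KS6_77.ID

open MvPolynomial IsLocalRing Pool.Agent.Q40.RP Pool.Agent.W418.LU2 Pool.Agent.TH188.QS
  Pool.Agent.KS6_77.IC Function

section cgs

variable {K : Type u} [Field K] {L : Type w} [Field L] {k : Type v} [Field k] {n r : ℕ} (p : ℕ)
  [hpr : Fact p.Prime] [CharP K p]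
  {O : Subring K} {ρ0 : O →+* k} {S : Finset O} {piv : (Fin n → O) → Fin n}
  {φ : L →+* K} {ψ : K →+* L}
  {ω : ℕ → Fin n → O} (hd : Dat O ρ0 S piv) (hω : ∀ l, IsLt S (ω l)) {s0 : Sta K n}
  (h0 : Gd O ρ0 s0) {V : ValuationSubring K}
  (hV : ∀ z, z ∈ V ↔ ∃ l, z ∈ (sq piv s0 ω l).1)
  (hφ : ∀ q, φ (ψ q) = q ^ p) {W : ValuationSubring L} (hW : ∀ w, w ∈ W ↔ φ w ∈ V)

include hd hω h0 hV hφ hW

theorem cgF_of (hk : ∀ a : k, ∃ b : k, b ^ p = a)
    (hr : RegP V.toSubring s0.1 s0.2) (hfr : ∀ z : K, ∃ a b : s0.1, b ≠ 0 ∧ z = a / b)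
    {D0 : Fin n → Derivation ℤ K K} (hD : Dv s0.1 s0.2 D0)
    (hS : ∀ a ∈ S, ∀ D : Derivation ℤ K K, D (a : K) = 0) (hF : FF p s0.1) {f : Fin r → K}
    (hfF : ∀ b, f b ∈ φ.fieldRange)
    (hspan : ∀ g ∈ φ.fieldRange, ∃ lam : Fin r → K, ∀ D' : Derivation ℤ K K,
      D' g = ∑ b, lam b * D' (f b)) {m : ℕ} (hall : ∀ i, ω m i ≠ 0)
    (heq : ∀ i, i ∈ eq piv ω m) (hres : ResF (sq piv s0 ω m) (mi (aq piv s0 ω D0 f m)) 0) :
    ∃ j y Y, CGF φ ψ p piv s0 ω W m j y Y := by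
  classical
  have hgd := sq_gd hd hω h0
  have hFF := ff_seq p hd hω h0 hF
  have hfr' : ∀ m, ∀ z : K, ∃ a b : (sq piv s0 ω m).1, b ≠ 0 ∧ z = a / b := by
    intro m z
    obtain ⟨a, b, hb, rfl⟩ := hfr z
    have hle : s0.1 ≤ (sq piv s0 ω m).1 :=
      sq_mono (piv := piv) (s0 := s0) (ω := ω) (Nat.zero_le _)
    refine ⟨⟨a, hle a.2⟩, ⟨b, hle b.2⟩, fun h => hb (Subtype.ext ?_), rfl⟩
    exact congrArg (fun t : (sq piv s0 ω m).1 => (t : K)) h
  have hregm := sq_reg hd hω h0 hV hr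
  -- the `p`-basis at the stage
  obtain ⟨hSp, hLi⟩ : Sp p (sq piv s0 ω m).2 ∧ Li p (sq piv s0 ω m).2 := by
    obtain ⟨hO, ρ, hfra, hρ⟩ := id (hgd m)
    have := (hregm m).reg
    exact ⟨sp_of p (hfr' m) (pb p hfra hk (hFF m)),
      li_of p (hfr' m) (ind_pb p hfra (fun q hq => kr_of hfra hq))⟩
  obtain ⟨hO', ρ', hfra', hρ'⟩ := id (hgd (m + 1))
  have haq : aq piv s0 ω D0 f m = la (sq piv s0 ω m).2 (dq piv s0 ω D0 m) f := by
    funext i b
    change Cf (sq piv s0 ω m).2 (dq piv s0 ω D0 m) (eq piv ω m) (f b) i = _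
    unfold Cf la
    rw [if_pos (heq i)]
  rw [haq] at hres
  have hFp : ∀ q : K, q ^ p ∈ φ.fieldRange := fun q => ⟨ψ q, hφ q⟩
  obtain ⟨x, R, hfy, hyF, ⟨g, hg, hgj⟩, hkill⟩ := good_stage p hd (hω m) (hgd m) hall
    (dv_seq hd hω h0 hD hS m) (fun i l => hS _ ((hω m).1 l) _) hk hSp hLi hFp hfF hspan hres
    (ρ' := ρ') hfra'
  have hfy : Fra (sq piv s0 ω (m + 1)).1 ρ' x := hfy
  -- the functions on the cover
  have hex : ∀ i, ∃ w : L, (i ∈ R → φ w = x i) ∧ (i ∉ R → w = 1) := by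
    intro i
    by_cases hi : i ∈ R
    · obtain ⟨w, hw⟩ := hyF i hi
      exact ⟨w, fun _ => hw, fun h => absurd hi h⟩
    · exact ⟨1, fun h => absurd h hi, fun _ => rfl⟩
  choose y hyR hy1 using hex
  have hreg := hregm (m + 1)
  have hregi := hreg.reg
  have hdim := dim_of hreg fun i => sq_nu hd hω h0 hV (m + 1) i
  have hxne : ∀ i, x i ≠ 0 := hfy.ne
  obtain ⟨E, hE⟩ := exists_dv p hxne hfy.mem (hfr' (m + 1)) (pb p hfy hk (hFF (m + 1)))
    (ind_pb p hfy (fun q hq => kr_of hfy hq))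
  have hT : ∀ w : L, ∀ l, l ∉ R → E l (φ w) = 0 := by
    intro w l hl
    refine hkill (E l) (fun i hi => ?_) (φ w) ⟨w, rfl⟩
    rw [hE.dual, if_neg]
    rintro rfl
    exact hl hi
  have h1 := cregR p hfy hk (hFF (m + 1)) (hfr' (m + 1)) hreg.reg hdim hφ (y := y) (R := R) hyR hE
    hT hW (sq_le hd hω h0 hV (m + 1)) (sq_inv hd hω h0 hV (m + 1))
  have hxj0 : (sq piv s0 ω (m + 1)).2 (piv (ω m)) ≠ 0 := ((hgd (m + 1)).nu _).2.1
  have hxj : (sq piv s0 ω (m + 1)).2 (piv (ω m)) = (sq piv s0 ω m).2 (piv (ω m)) := x_piv _ _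
  refine ⟨piv (ω m), y, _, ?_, h1, ?_, ?_, ?_⟩
  · intro i
    by_cases hi : i ∈ R
    · rw [hyR i hi]
      exact hfy.mem i
    · rw [hy1 i hi, map_one]
      exact Subring.one_mem _
  · intro w hw
    obtain ⟨c, -, hc, -⟩ := cov_memR p hfy hk (hFF (m + 1)) (hfr' (m + 1)) hφ hyR hE hT hw
    refine ⟨c, ?_⟩
    nth_rewrite 1 [hc]
    refine Finset.sum_congr rfl fun b _ => ?_
    congr 1
    refine Finset.prod_subset (Finset.subset_univ R) fun i _ hi => ?_
    rw [hy1 i hi, one_pow]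
  · intro f hf
    exact sm_next hd (hω m) (hgd m) hall hf
  · rintro h hh ⟨u, hu, γ, hγ⟩
    set j := piv (ω m) with hj
    -- in terms of the new parameter
    have hg0 := hg.1
    have hγ' : φ h = (u * g ^ (-γ)) * x j ^ γ := by
      rw [hγ, hgj, hxj, mul_zpow, zpow_neg]
      have := zpow_ne_zero γ hg0
      field_simp
    have hug : U (sq piv s0 ω (m + 1)).1 (u * g ^ (-γ)) := hu.mul (hg.zpow _)
    set u' := u * g ^ (-γ) with hu'
    have key : ∃ γ' : ℤ, U (sq piv s0 ω (m + 1)).1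
        (φ (h * (if j ∈ R then y j else ψ (x j)) ^ γ')) := by
      by_cases hjR : j ∈ R
      · refine ⟨-γ, ?_⟩
        rw [if_pos hjR, map_mul, map_zpow₀, hyR j hjR, hγ', mul_assoc, ← zpow_add₀ (hxne j),
          add_neg_cancel, zpow_zero, mul_one]
        exact hug
      · have h2 : E j (φ h) = 0 := hT h j hjR
        have hzx : E j (x j ^ γ) = γ * x j ^ γ / x j := by
          rw [Derivation.leibniz_zpow, hE.dual, if_pos rfl, zsmul_eq_mul, smul_eq_mul,
            zpow_sub_one₀ (hxne j)]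
          ring
        rw [hγ', Derivation.leibniz, hzx, smul_eq_mul, smul_eq_mul] at h2
        have hxγ : x j ^ γ ≠ 0 := zpow_ne_zero _ (hxne j)
        have h3 : u' * (γ / x j) = - E j u' := by
          have h4 : x j ^ γ * (u' * (γ / x j) + E j u') = 0 := by
            rw [← h2]
            ring
          have h5 := (mul_eq_zero.1 h4).resolve_left hxγ
          linear_combination h5
        have h6 : (γ : K) = 0 := by
          by_contra hne
          have h7 : (x j)⁻¹ = u'⁻¹ * (γ : K)⁻¹ * (u' * (γ / x j)) := by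
            have := hug.1
            field_simp
          have h8 : (x j)⁻¹ ∈ (sq piv s0 ω (m + 1)).1 := by
            rw [h7, h3]
            exact Subring.mul_mem _ (Subring.mul_mem _ hug.2.2 (nat_unit p hne))
              (Subring.neg_mem _ (hE.stab j _ hug.2.1))
          apply ((hgd (m + 1)).nu j).2.2
          have h9 : ((sq piv s0 ω (m + 1)).2 j)⁻¹ = (x j)⁻¹ * g := by
            rw [hgj, hxj, mul_inv]
            field_simp
          rw [h9]
          exact Subring.mul_mem _ h8 hg.2.1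
        obtain ⟨γ', hγ''⟩ := (CharP.intCast_eq_zero_iff K p γ).1 h6
        refine ⟨-γ', ?_⟩
        rw [if_neg hjR, map_mul, map_zpow₀, hφ, hγ', hγ'', mul_assoc]
        have h7 : x j ^ ((p : ℤ) * γ') * (x j ^ p) ^ (-γ') = 1 := by
          rw [← zpow_natCast, ← zpow_mul, ← zpow_add₀ (hxne j)]
          rw [show (p : ℤ) * γ' + (p : ℤ) * -γ' = 0 by ring, zpow_zero]
        rw [h7, mul_one]
        exact hug
    obtain ⟨γ', hγ''⟩ := key
    set t := (if j ∈ R then y j else ψ (x j)) with ht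
    have ht0 : t ≠ 0 := h1.ne j
    refine ⟨h * t ^ γ', mul_ne_zero hh (zpow_ne_zero _ ht0), hγ''.2.1, ?_, Pi.single j (-γ'),
      ?_⟩
    · change φ (h * t ^ γ')⁻¹ ∈ (sq piv s0 ω (m + 1)).1
      rw [map_inv₀]
      exact hγ''.2.2
    · unfold mo
      rw [Finset.prod_eq_single j]
      · dsimp only
        rw [Pi.single_eq_same, ← ht, mul_assoc, ← zpow_add₀ ht0, add_neg_cancel, zpow_zero,
          mul_one]
      · intro l _ hl
        rw [Pi.single_eq_of_ne hl, zpow_zero]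
      · intro h
        exact absurd (Finset.mem_univ _) h

end cgs

end Pool.Agent.KS6_77.ID
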