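import Pool.Agent.KS6_77.ID.Frm

/-!
# Regularity of a cover of exponent one
-/

set_option autoImplicit false
set_option linter.unusedVariables false
set_option linter.unusedSectionVars false

universe u v w

namespace Pool.Agent.KS6_77.ID

open MvPolynomial IsLocalRing Pool.Agent.Q40.RP Pool.Agent.W418.LU2 Pool.Agent.KS6_77.IC Function

section creg

variable {K : Type u} [Field K] {L : Type w} [Field L] {k : Type v} [Field k] {n : ℕ} (p : ℕ)
  [hpr : Fact p.Prime] [CharP K p] {Q : Subring K} {ρ : Q →+* k} {x : Fin n → K}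
  {φ : L →+* K} {ψ : K →+* L}

/-- The elements of the cover. -/
theorem cov_memR (h : Fra Q ρ x) (hk : ∀ a : k, ∃ b : k, b ^ p = a) (hF : FF p Q)
    (hfr : ∀ z : K, ∃ a b : Q, b ≠ 0 ∧ z = a / b) [IsLocalRing Q] [IsNoetherianRing Q]
    (hφ : ∀ q, φ (ψ q) = q ^ p) {y : Fin n → L} {R : Finset (Fin n)}
    (hxi : ∀ i ∈ R, φ (y i) = x i) {D : Fin n → Derivation ℤ K K} (hD : Dv Q x D)
    (hT : ∀ w : L, ∀ l, l ∉ R → D l (φ w) = 0) {w : L} (hw : φ w ∈ Q) :
    ∃ c : (Fin n → Fin p) → Q, (∀ b l, l ∉ R → (b l : ℕ) ≠ 0 → c b = 0) ∧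
      w = ∑ b, ψ (c b) * ∏ i ∈ R, y i ^ (b i : ℕ) ∧ φ w = ∑ b, (c b : K) ^ p * xb x b := by
  classical
  have hli : Li p x := li_of p hfr (ind_pb p h (fun q hq => kr_of h hq))
  have hne : ∀ i, x i ≠ 0 := h.ne
  obtain ⟨c, hc⟩ := pb p h hk hF ⟨φ w, hw⟩
  change φ w = _ at hc
  have h1 : ∀ l, l ∉ R → ∀ b, ((b l : ℕ) : K) * c b = 0 := by
    intro l hl
    refine hli (fun b => ((b l : ℕ) : K) * c b) ?_
    have h2 : x l * D l (φ w) = 0 := by rw [hT w l hl, mul_zero]
    rw [hc, map_sum, Finset.mul_sum] at h2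
    rw [← h2]
    refine Finset.sum_congr rfl fun b _ => ?_
    rw [euler_xb p hne hD, mul_pow]
    have h3 : ((b l : ℕ) : K) ^ p = ((b l : ℕ) : K) := by
      rw [← frobenius_def, map_natCast]
    rw [h3]
    ring
  have h2 : ∀ (b : Fin n → Fin p) l, l ∉ R → (b l : ℕ) ≠ 0 → c b = 0 := by
    intro b l hl hb
    have h3 := (mul_eq_zero.1 (h1 l hl b)).resolve_left (fun h3 => by
      have h4 := (CharP.cast_eq_zero_iff K p (b l : ℕ)).1 h3
      exact hb (Nat.eq_zero_of_dvd_of_lt h4 (b l).2))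
    exact Subtype.ext h3
  refine ⟨c, h2, φ.injective ?_, hc⟩
  rw [hc, map_sum]
  refine Finset.sum_congr rfl fun b _ => ?_
  rw [map_mul, hφ, map_prod]
  by_cases hb : ∃ l, l ∉ R ∧ (b l : ℕ) ≠ 0
  · obtain ⟨l, hl, hbl⟩ := hb
    rw [h2 b l hl hbl, ZeroMemClass.coe_zero, zero_pow hpr.out.ne_zero, zero_mul, zero_mul]
  · push Not at hb
    congr 1
    unfold xb
    symm
    rw [← Finset.prod_subset (Finset.subset_univ R) (f := fun i => x i ^ (b i : ℕ))]
    · refine Finset.prod_congr rfl fun i hi => ?_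
      rw [map_pow, hxi i hi]
    · intro l _ hl
      rw [hb l hl, pow_zero]

theorem cregR (h : Fra Q ρ x) (hk : ∀ a : k, ∃ b : k, b ^ p = a) (hF : FF p Q)
    (hfr : ∀ z : K, ∃ a b : Q, b ≠ 0 ∧ z = a / b) (hreg : IsRegularLocalRing Q)
    (hdim : ((n : ℕ) : WithBot ℕ∞) ≤ ringKrullDim Q)
    (hφ : ∀ q, φ (ψ q) = q ^ p) {y : Fin n → L} {R : Finset (Fin n)}
    (hxi : ∀ i ∈ R, φ (y i) = x i) {D : Fin n → Derivation ℤ K K} (hD : Dv Q x D)
    (hT : ∀ w : L, ∀ l, l ∉ R → D l (φ w) = 0) {V : ValuationSubring K} {W : ValuationSubring L}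
    (hW : ∀ w, w ∈ W ↔ φ w ∈ V) (hQV : Q ≤ V.toSubring)
    (hinv : ∀ y ∈ Q, y ≠ 0 → y⁻¹ ∈ V → y⁻¹ ∈ Q) :
    RegP W.toSubring (Q.comap φ) (fun l => if l ∈ R then y l else ψ (x l)) := by
  classical
  have hxne : ∀ l, x l ≠ 0 := h.ne
  have hψinj := ψ.injective
  have hy0 : ∀ i ∈ R, y i ≠ 0 := by
    intro i hi h0
    have h1 := hxi i hi
    rw [h0, map_zero] at h1
    exact hxne i h1.symm
  have hyP : ∀ i ∈ R, y i ∈ Q.comap φ := by
    intro i hi
    change φ (y i) ∈ Q
    rw [hxi i hi]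
    exact h.mem i
  have hψP : ∀ q ∈ Q, ψ q ∈ Q.comap φ := fun q hq => psi_mem p hφ hq
  have hmem : ∀ l, (if l ∈ R then y l else ψ (x l)) ∈ Q.comap φ := by
    intro l
    split_ifs with hl
    · exact hyP l hl
    · exact hψP _ (h.mem l)
  have hφne : ∀ w : L, w ≠ 0 → φ w ≠ 0 := fun w hw => phi_ne hw
  -- the ring is local
  have hloc : IsLocalHom (resφ φ Q) := by
    constructor
    intro w hw
    obtain ⟨v, hv⟩ := isUnit_iff_exists_inv.1 hw
    have h1 : φ (w : L) * v = 1 := congrArg Subtype.val hv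
    have h2 : φ (w : L) ≠ 0 := left_ne_zero_of_mul_eq_one h1
    have h3 : (w : L) ≠ 0 := by
      intro h3
      rw [h3, map_zero] at h2
      exact h2 rfl
    refine isUnit_iff_exists_inv.2 ⟨⟨(w : L)⁻¹, ?_⟩, Subtype.ext (mul_inv_cancel₀ h3)⟩
    change φ ((w : L)⁻¹) ∈ Q
    rw [map_inv₀, ← eq_inv_of_mul_eq_one_right h1]
    exact v.2
  have hlocP : IsLocalRing (Q.comap φ) := RingHom.domain_isLocalRing (resφ φ Q)
  have hmaxP : ∀ w : Q.comap φ, w ∈ maximalIdeal (Q.comap φ) ↔ ρ (resφ φ Q w) = 0 := by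
    intro w
    rw [← fra_max h, mem_maximalIdeal, mem_maximalIdeal, mem_nonunits_iff, mem_nonunits_iff,
      isUnit_map_iff]
  -- the ring is finite over `Q`
  let ψ' : Q →+* Q.comap φ :=
    { toFun := fun q => ⟨ψ q, hψP q q.2⟩
      map_one' := Subtype.ext (map_one ψ)
      map_mul' := fun a b => Subtype.ext (map_mul ψ _ _)
      map_zero' := Subtype.ext (map_zero ψ)
      map_add' := fun a b => Subtype.ext (map_add ψ _ _) }
  let yy : Fin n → Q.comap φ := fun i => if hi : i ∈ R then ⟨y i, hyP i hi⟩ else 1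
  have hyy : ∀ i ∈ R, (yy i : L) = y i := by
    intro i hi
    simp only [yy, dif_pos hi]
  have hgen : ∀ w : Q.comap φ, ∃ c : (Fin n → Fin p) → Q,
      (∀ b l, l ∉ R → (b l : ℕ) ≠ 0 → c b = 0) ∧
      w = ∑ b, ψ' (c b) * ∏ i ∈ R, yy i ^ (b i : ℕ) ∧
      φ (w : L) = ∑ b, (c b : K) ^ p * xb x b := by
    intro w
    obtain ⟨c, hc0, hc, hc'⟩ := cov_memR p h hk hF hfr hφ hxi hD hT (w := w) w.2
    refine ⟨c, hc0, Subtype.ext ?_, hc'⟩
    rw [hc]
    push_cast
    refine Finset.sum_congr rfl fun b _ => ?_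
    congr 1
    refine Finset.prod_congr rfl fun i hi => ?_
    rw [hyy i hi]
  have hnoe : IsNoetherianRing (Q.comap φ) := by
    let _ := ψ'.toAlgebra
    have hfin : Module.Finite Q (Q.comap φ) := by
      refine ⟨Finset.univ.image (fun b : Fin n → Fin p => ∏ i ∈ R, yy i ^ (b i : ℕ)), ?_⟩
      rw [eq_top_iff]
      rintro w -
      obtain ⟨c, -, hc, -⟩ := hgen w
      rw [hc]
      refine Submodule.sum_mem _ fun b _ => ?_
      have h1 : ψ' (c b) * ∏ i ∈ R, yy i ^ (b i : ℕ) =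
          c b • ∏ i ∈ R, yy i ^ (b i : ℕ) := by
        rw [Algebra.smul_def]
        rfl
      rw [h1]
      exact Submodule.smul_mem _ _ (Submodule.subset_span (by simp))
    exact IsNoetherianRing.of_finite Q (Q.comap φ)
  -- the maximal ideal
  let Y : Fin n → Q.comap φ := fun l => ⟨_, hmem l⟩
  have hYi : ∀ i ∈ R, Y i = yy i := fun i hi => Subtype.ext (by
    rw [hyy i hi]
    exact if_pos hi)
  have hYl : ∀ l, l ∉ R → Y l = ψ' ⟨x l, h.mem l⟩ := fun l hl => Subtype.ext (if_neg hl)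
  have hspan : Ideal.span (Set.range Y) = maximalIdeal (Q.comap φ) := by
    apply le_antisymm
    · rw [Ideal.span_le]
      rintro _ ⟨l, rfl⟩
      change Y l ∈ maximalIdeal (Q.comap φ)
      rw [hmaxP]
      by_cases hl : l ∈ R
      · have h1 : resφ φ Q (Y l) = ⟨x l, h.mem l⟩ := by
          apply Subtype.ext
          change φ (if l ∈ R then y l else ψ (x l)) = x l
          rw [if_pos hl, hxi l hl]
        rw [h1, h.rho_x]
      · rw [hYl l hl]
        have h1 : resφ φ Q (ψ' ⟨x l, h.mem l⟩) = ⟨x l, h.mem l⟩ ^ p := by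
          apply Subtype.ext
          change φ (ψ (x l)) = _
          rw [hφ]
          rfl
        rw [h1, map_pow, h.rho_x, zero_pow hpr.out.ne_zero]
    · intro w hw
      rw [hmaxP] at hw
      obtain ⟨c, hc0, hc, hc'⟩ := hgen w
      let b0 : Fin n → Fin p := fun _ => ⟨0, hpr.out.pos⟩
      have hYim : ∀ i ∈ R, yy i ∈ Ideal.span (Set.range Y) := by
        intro i hi
        rw [← hYi i hi]
        exact Ideal.subset_span ⟨i, rfl⟩
      have hrest : ∀ b, b ≠ b0 → ψ' (c b) * ∏ i ∈ R, yy i ^ (b i : ℕ) ∈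
          Ideal.span (Set.range Y) := by
        intro b hb
        obtain ⟨l, hl⟩ := Function.ne_iff.1 hb
        have hl' : (b l : ℕ) ≠ 0 := fun h0 => hl (Fin.ext h0)
        by_cases hlR : l ∈ R
        · rw [← Finset.mul_prod_erase _ _ hlR]
          obtain ⟨m, hm⟩ := Nat.exists_eq_succ_of_ne_zero hl'
          have h5 : ψ' (c b) * (yy l ^ (b l : ℕ) * ∏ i ∈ R.erase l, yy i ^ (b i : ℕ)) =
              (ψ' (c b) * yy l ^ m * ∏ i ∈ R.erase l, yy i ^ (b i : ℕ)) * yy l := by
            rw [hm, pow_succ]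
            ring
          rw [h5]
          exact Ideal.mul_mem_left _ _ (hYim l hlR)
        · rw [hc0 b l hlR hl', map_zero, zero_mul]
          exact Ideal.zero_mem _
      have h1 : ρ (c b0) = 0 := by
        have h2 : resφ φ Q w = ∑ b, c b ^ p * ⟨xb x b, xb_mem p h.mem b⟩ := by
          apply Subtype.ext
          change φ (w : L) = _
          rw [hc']
          push_cast
          rfl
        rw [h2, map_sum, Finset.sum_eq_single b0] at hw
        · rw [map_mul, map_pow] at hw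
          have h3 : (⟨xb x b0, xb_mem p h.mem b0⟩ : Q) = 1 := by
            apply Subtype.ext
            change xb x b0 = 1
            unfold xb
            exact Finset.prod_eq_one fun i _ => pow_zero _
          rw [h3, map_one, mul_one] at hw
          exact (pow_eq_zero_iff hpr.out.ne_zero).1 hw
        · intro b _ hb
          obtain ⟨l, hl⟩ := Function.ne_iff.1 hb
          have hl' : (b l : ℕ) ≠ 0 := fun h0 => hl (Fin.ext h0)
          have h3 : (⟨xb x b, xb_mem p h.mem b⟩ : Q) = ∏ i, ⟨x i, h.mem i⟩ ^ (b i : ℕ) := by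
            apply Subtype.ext
            push_cast
            rfl
          rw [map_mul, h3, map_prod, Finset.prod_eq_zero (Finset.mem_univ l), mul_zero]
          rw [map_pow, h.rho_x, zero_pow hl']
        · intro h0
          exact absurd (Finset.mem_univ _) h0
      obtain ⟨d, hd⟩ := (h.ker _).1 h1
      have h2 : ψ' (c b0) = ∑ l, ψ' (d l) * ψ' ⟨x l, h.mem l⟩ := by
        rw [← Finset.sum_congr rfl fun l _ => map_mul ψ' _ _, ← map_sum]
        congr 1
        apply Subtype.ext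
        rw [hd]
        push_cast
        rfl
      have h3 : ψ' (c b0) ∈ Ideal.span (Set.range Y) := by
        rw [h2]
        refine Ideal.sum_mem _ fun l _ => Ideal.mul_mem_left _ _ ?_
        by_cases hl : l ∈ R
        · have h4 : ψ' ⟨x l, h.mem l⟩ = yy l ^ p := by
            apply Subtype.ext
            apply φ.injective
            change φ (ψ (x l)) = φ ((yy l : L) ^ p)
            rw [hφ, map_pow, hyy l hl, hxi l hl]
          obtain ⟨m, hm⟩ := Nat.exists_eq_succ_of_ne_zero hpr.out.ne_zero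
          rw [h4, hm, pow_succ]
          exact Ideal.mul_mem_left _ _ (hYim l hl)
        · rw [← hYl l hl]
          exact Ideal.subset_span ⟨l, rfl⟩
      rw [hc]
      refine Ideal.sum_mem _ fun b _ => ?_
      by_cases hb : b = b0
      · rw [hb]
        exact Ideal.mul_mem_right _ _ h3
      · exact hrest b hb
  -- the dimension
  have hdimP : ringKrullDim Q ≤ ringKrullDim (Q.comap φ) := by
    refine Order.krullDim_le_of_strictMono (PrimeSpectrum.comap (resφ φ Q)) ?_
    intro a b hab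
    refine lt_of_le_of_ne (fun w hw => hab.le hw) fun heq => ?_
    apply hab.not_ge
    intro q hq
    have h1 : ψ' q ∈ (PrimeSpectrum.comap (resφ φ Q) b).asIdeal := by
      change resφ φ Q (ψ' q) ∈ b.asIdeal
      have h2 : resφ φ Q (ψ' q) = q ^ p := Subtype.ext (hφ q)
      rw [h2]
      exact Ideal.pow_mem_of_mem _ hq p hpr.out.pos
    rw [← heq] at h1
    have h2 : resφ φ Q (ψ' q) ∈ a.asIdeal := h1
    have h3 : resφ φ Q (ψ' q) = q ^ p := Subtype.ext (hφ q)
    rw [h3] at h2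
    exact a.2.mem_of_pow_mem _ h2
  have hn : ((n : ℕ) : WithBot ℕ∞) ≤ ringKrullDim (Q.comap φ) := hdim.trans hdimP
  have hregP : IsRegularLocalRing (Q.comap φ) := by
    apply IsRegularLocalRing.of_spanFinrank_maximalIdeal_le
    refine le_trans ?_ hn
    rw [← hspan]
    have h1 : (Ideal.span (Set.range Y)).spanFinrank ≤ (Set.range Y).ncard :=
      Submodule.spanFinrank_span_le_ncard_of_finite (Set.finite_range Y)
    have h2 : (Set.range Y).ncard ≤ n := by
      rw [← Set.image_univ]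
      refine (Set.ncard_image_le Set.finite_univ).trans ?_
      rw [Set.ncard_univ, Nat.card_eq_fintype_card, Fintype.card_fin]
    exact_mod_cast h1.trans h2
  refine ⟨?_, ?_, hmem, hregP, ?_, ?_⟩
  · intro w hw
    exact (hW w).2 (hQV hw)
  · intro l
    split_ifs with hl
    · exact hy0 l hl
    · exact fun h0 => hxne l (hψinj (by rw [h0, map_zero]))
  · intro w hw hw0 hwi
    change φ w⁻¹ ∈ Q
    have h1 : φ w⁻¹ ∈ V := (hW _).1 hwi
    rw [map_inv₀] at h1 ⊢
    exact hinv _ hw (hφne w hw0) h1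
  · have hind : Ind Y := ind_of_span hspan (by rwa [Fintype.card_fin])
    exact IndN.of_ind id Function.injective_id (fun i _ => ⟨i, rfl⟩) hind

end creg

end Pool.Agent.KS6_77.ID
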