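import Pool.Agent.KS6_77.ID.CGq

/-!
# Parameters which are toric functions
-/

set_option autoImplicit false
set_option linter.unusedVariables false
set_option linter.unusedSectionVars false

universe u v w

namespace Pool.Agent.KS6_77.ID

open MvPolynomial IsLocalRing Pool.Agent.Q40.RP Pool.Agent.W418.LU2 Pool.Agent.KS6_77.IC Function

section zz

variable {K : Type u} [Field K] {k : Type v} [Field k] {n : ℕ} {Q : Subring K} {ρ : Q →+* k}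
  {x : Fin n → K}

/-- The elements of the kernel of the residue map. -/
def Z0 (ρ : Q →+* k) (z : K) : Prop := ∃ h : z ∈ Q, ρ ⟨z, h⟩ = 0

lemma Z0.add {z w : K} (hz : Z0 ρ z) (hw : Z0 ρ w) : Z0 ρ (z + w) := by
  obtain ⟨h1, h2⟩ := hz
  obtain ⟨h3, h4⟩ := hw
  refine ⟨Q.add_mem h1 h3, ?_⟩
  have h5 : (⟨z + w, Q.add_mem h1 h3⟩ : Q) = ⟨z, h1⟩ + ⟨w, h3⟩ := rfl
  rw [h5, map_add, h2, h4, add_zero]

lemma Z0.mul {z q : K} (hq : q ∈ Q) (hz : Z0 ρ z) : Z0 ρ (q * z) := by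
  obtain ⟨h1, h2⟩ := hz
  refine ⟨Q.mul_mem hq h1, ?_⟩
  have h5 : (⟨q * z, Q.mul_mem hq h1⟩ : Q) = ⟨q, hq⟩ * ⟨z, h1⟩ := rfl
  rw [h5, map_mul, h2, mul_zero]

lemma Z0.mul' {z q : K} (hz : Z0 ρ z) (hq : q ∈ Q) : Z0 ρ (z * q) := by
  rw [mul_comm]
  exact hz.mul hq

lemma Z0.par (h : Fra Q ρ x) (i : Fin n) : Z0 ρ (x i) := ⟨h.mem i, h.rho_x i⟩

lemma Z0.zero : Z0 ρ (0 : K) := ⟨Q.zero_mem, map_zero ρ⟩

lemma U_add (h : Fra Q ρ x) {u z : K} (hu : U Q u) (hz : Z0 ρ z) : U Q (u + z) := by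
  obtain ⟨hz1, hz2⟩ := hz
  have h1 : u + z ∈ Q := Q.add_mem hu.2.1 hz1
  rw [U_iff h h1]
  have h2 : (⟨u + z, h1⟩ : Q) = ⟨u, hu.2.1⟩ + ⟨z, hz1⟩ := rfl
  rw [h2, map_add, hz2, add_zero]
  exact (U_iff h hu.2.1).1 hu

lemma Z0.der_pow {D : Derivation ℤ K K} {g : K} (hg : g ∈ Q) (hz : Z0 ρ (D g)) (m : ℕ) :
    Z0 ρ (D (g ^ m)) := by
  rw [Derivation.leibniz_pow, nsmul_eq_mul, smul_eq_mul]
  exact (hz.mul (Q.pow_mem hg _)).mul (natCast_mem _ _)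

lemma Z0.der_inv {D : Derivation ℤ K K} {g : K} (hg : U Q g) (hz : Z0 ρ (D g)) :
    Z0 ρ (D g⁻¹) := by
  rw [Derivation.leibniz_inv, smul_eq_mul]
  exact hz.mul (Q.neg_mem (Q.pow_mem hg.2.2 _))

end zz

section core

variable {K : Type u} [Field K] {k : Type v} [Field k] {n : ℕ} (p : ℕ) [hpr : Fact p.Prime]
  [CharP K p] {Q : Subring K} {ρ : Q →+* k} {x : Fin n → K}

theorem core (h : Fra Q ρ x) {D : Fin n → Derivation ℤ K K} (hD : Dv Q x D) {r : ℕ}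
    {I : Fin r → Fin n} (hI : Injective I) {j : Fin n} {B : Finset (Fin r)}
    (hB : ∀ b ∈ B, I b ≠ j) {v : Fin r → K} (hv : ∀ a, U Q (v a))
    (hv1 : ∀ b ∈ B, U Q (D (I b) (v b))) (hv2 : ∀ b ∈ B, ∀ a, a ≠ b → Z0 ρ (D (I b) (v a)))
    {g : K} (hg : U Q g) (hg1 : ∀ b ∈ B, Z0 ρ (D (I b) g)) (d : Fin r → ℕ)
    (hk : ∀ a : k, ∃ b : k, b ^ p = a) :
    ∃ (c : Fin r → Q) (y : Fin n → K), y j = x j * g ∧
      (∀ b ∈ B, y (I b) = v b / g ^ d b - (c b : K) ^ p) ∧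
      (∀ i, i ≠ j → (∀ b ∈ B, I b ≠ i) → y i = x i) ∧ Fra Q ρ y := by
  classical
  have hw : ∀ b, U Q (v b / g ^ d b) := fun b => by
    rw [div_eq_mul_inv]
    exact (hv b).mul (hg.pow _).inv
  have hc : ∀ b, ∃ c : Q, ρ c ^ p = ρ ⟨v b / g ^ d b, (hw b).2.1⟩ := by
    intro b
    obtain ⟨t, ht⟩ := hk (ρ ⟨v b / g ^ d b, (hw b).2.1⟩)
    obtain ⟨c, hc⟩ := h.surj t
    exact ⟨c, by rw [hc, ht]⟩
  choose c hc using hc
  let y : Fin n → K := fun i => if i = j then x j * g else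
    if hi : ∃ b, b ∈ B ∧ I b = i then v hi.choose / g ^ d hi.choose - (c hi.choose : K) ^ p
    else x i
  have hyj : y j = x j * g := if_pos rfl
  have hyI : ∀ b ∈ B, y (I b) = v b / g ^ d b - (c b : K) ^ p := by
    intro b hb
    have hi : ∃ b', b' ∈ B ∧ I b' = I b := ⟨b, hb, rfl⟩
    have h1 : hi.choose = b := hI hi.choose_spec.2
    simp only [y]
    rw [if_neg (hB b hb), dif_pos hi, h1]
  have hyo : ∀ i, i ≠ j → (∀ b ∈ B, I b ≠ i) → y i = x i := by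
    intro i hij hi
    have h1 : ¬ ∃ b, b ∈ B ∧ I b = i := by
      rintro ⟨b, hb, hbi⟩
      exact hi b hb hbi
    simp only [y]
    rw [if_neg hij, dif_neg h1]
  refine ⟨c, y, hyj, hyI, hyo, ?_⟩
  -- the derivatives of the functions
  have hginv : ∀ b ∈ B, ∀ m : ℕ, Z0 ρ (D (I b) (g ^ m)⁻¹) := fun b hb m =>
    Z0.der_inv (hg.pow m) (Z0.der_pow hg.2.1 (hg1 b hb) m)
  have hder : ∀ b a, D (I b) (v a / g ^ d a - (c a : K) ^ p) =
      (g ^ d a)⁻¹ * D (I b) (v a) + v a * D (I b) (g ^ d a)⁻¹ := by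
    intro b a
    rw [map_sub, der_pow_p p, sub_zero, div_eq_mul_inv, Derivation.leibniz, smul_eq_mul,
      smul_eq_mul]
    ring
  have hcase : ∀ i, i = j ∨ (i ≠ j ∧ ∃ b ∈ B, I b = i) ∨ (i ≠ j ∧ ∀ b ∈ B, I b ≠ i) := by
    intro i
    by_cases hij : i = j
    · exact Or.inl hij
    · by_cases hi : ∃ b ∈ B, I b = i
      · exact Or.inr (Or.inl ⟨hij, hi⟩)
      · push Not at hi
        exact Or.inr (Or.inr ⟨hij, hi⟩)
  refine fra_der h hD ?_ {i | ∃ b ∈ B, I b = i} ?_ ?_ ?_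
  · intro i
    rcases hcase i with rfl | ⟨hij, b, hb, rfl⟩ | ⟨hij, hi⟩
    · rw [hyj]
      exact (Z0.par h i).mul' hg.2.1
    · rw [hyI b hb]
      refine ⟨Q.sub_mem (hw b).2.1 (Q.pow_mem (c b).2 _), ?_⟩
      have h1 : (⟨v b / g ^ d b - (c b : K) ^ p, Q.sub_mem (hw b).2.1 (Q.pow_mem (c b).2 _)⟩ : Q) =
          ⟨v b / g ^ d b, (hw b).2.1⟩ - c b ^ p := rfl
      rw [h1, map_sub, map_pow, hc, sub_self]
    · rw [hyo i hij hi]
      exact Z0.par h i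
  · intro i
    rcases hcase i with rfl | ⟨hij, b, hb, rfl⟩ | ⟨hij, hi⟩
    · rw [hyj, Derivation.leibniz, hD.dual, if_pos rfl, smul_eq_mul, smul_eq_mul, mul_one, add_comm]
      exact U_add h hg ((Z0.par h i).mul' (hD.stab i _ hg.2.1))
    · rw [hyI b hb, hder]
      exact U_add h ((hg.pow _).inv.mul (hv1 b hb)) ((hginv b hb _).mul (hv b).2.1)
    · rw [hyo i hij hi, hD.dual, if_pos rfl]
      exact U.one
  · intro i hiT l hl
    have key : Z0 ρ (D l (y i)) := by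
      rcases hcase i with rfl | ⟨hij, hi⟩ | ⟨hij, hi⟩
      · rw [hyj, Derivation.leibniz, hD.dual, if_neg hl, smul_eq_mul, smul_eq_mul, mul_zero,
          add_zero]
        exact (Z0.par h i).mul' (hD.stab l _ hg.2.1)
      · exact absurd hi hiT
      · rw [hyo i hij hi, hD.dual, if_neg hl]
        exact Z0.zero
    exact fun _ => key.2
  · rintro i ⟨b, hb, rfl⟩ l ⟨b', hb', rfl⟩ hl
    have hbb : b ≠ b' := by
      rintro rfl
      exact hl rfl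
    have key : Z0 ρ (D (I b') (y (I b))) := by
      rw [hyI b hb, hder]
      exact ((hv2 b' hb' b hbb).mul (hg.pow _).inv.2.1).add ((hginv b' hb' _).mul (hv b).2.1)
    exact fun _ => key.2

end core

end Pool.Agent.KS6_77.ID
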