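import Pool.Agent.KS6_77.ID.Mi

/-!
# Families of minors along the blowings-up
-/

set_option autoImplicit false
set_option linter.unusedVariables false
set_option linter.unusedSectionVars false

universe u v

namespace Pool.Agent.KS6_77.ID

open MvPolynomial IsLocalRing Pool.Agent.Q40.RP Pool.Agent.KS6_77.IC

section ord

lemma low_mul_ne {k : Type v} [Field k] {n α β : ℕ} {E F : MvPolynomial (Fin n) k} (hE : Low α E)
    (hE' : ∃ γ, Finsupp.degree γ = α ∧ coeff γ E ≠ 0) (hF : Low β F)
    (hF' : ∃ γ, Finsupp.degree γ = β ∧ coeff γ F ≠ 0) :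
    ∃ γ, Finsupp.degree γ = α + β ∧ coeff γ (E * F) ≠ 0 := by
  classical
  have he : homogeneousComponent α E ≠ 0 := by
    obtain ⟨γ, hγ, h⟩ := hE'
    intro h0
    have h1 := congrArg (coeff γ) h0
    rw [coeff_homogeneousComponent, if_pos hγ, coeff_zero] at h1
    exact h h1
  have hf : homogeneousComponent β F ≠ 0 := by
    obtain ⟨γ, hγ, h⟩ := hF'
    intro h0
    have h1 := congrArg (coeff γ) h0
    rw [coeff_homogeneousComponent, if_pos hγ, coeff_zero] at h1
    exact h h1
  have hef := mul_ne_zero he hf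
  obtain ⟨γ, hγ⟩ := MvPolynomial.ne_zero_iff.1 hef
  have hhom := (homogeneousComponent_isHomogeneous α E).mul (homogeneousComponent_isHomogeneous β F)
  have hdeg : Finsupp.degree γ = α + β := by
    have h1 := hhom hγ
    rw [← h1]
    exact DFunLike.congr_fun Finsupp.degree_eq_weight_one γ
  refine ⟨γ, hdeg, ?_⟩
  have h1 : coeff γ (E * F) = coeff γ (homogeneousComponent α E * homogeneousComponent β F) := by
    rw [coeff_mul, coeff_mul]
    refine Finset.sum_congr rfl fun ab hab => ?_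
    have h2 : ab.1 + ab.2 = γ := by simpa using hab
    have h3 : Finsupp.degree ab.1 + Finsupp.degree ab.2 = α + β := by
      rw [← map_add, h2, hdeg]
    rw [coeff_homogeneousComponent, coeff_homogeneousComponent]
    by_cases h4 : Finsupp.degree ab.1 = α
    · rw [if_pos h4, if_pos (by omega)]
    · rw [if_neg h4, zero_mul]
      rcases lt_or_gt_of_ne h4 with h5 | h5
      · rw [hE.coeff_eq_zero h5, zero_mul]
      · rw [hF.coeff_eq_zero (by omega), mul_zero]
  rw [h1]
  exact hγ

variable {K : Type u} [Field K] {k : Type v} [Field k] {n : ℕ}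
  {Q : Subring K} {ρ : Q →+* k} {x : Fin n → K}

lemma inp_mul' {α β : ℕ} {f g : K} (hf : Inp Q x α f) (hg : Inp Q x β g) :
    Inp Q x (α + β) (f * g) := by
  obtain ⟨E, hE, rfl⟩ := hf
  obtain ⟨F, hF, rfl⟩ := hg
  exact ⟨E * F, hE.mul hF, map_mul _ _ _⟩

lemma inp_neg {α : ℕ} {f : K} (hf : Inp Q x α f) : Inp Q x α (-f) := by
  obtain ⟨E, hE, rfl⟩ := hf
  exact ⟨-E, hE.neg, map_neg _ _⟩

lemma not_inp_mul (h : Fra Q ρ x) {α β : ℕ} {f g : K} (hf : Inp Q x α f)
    (hf' : ¬ Inp Q x (α + 1) f) (hg : Inp Q x β g) (hg' : ¬ Inp Q x (β + 1) g) :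
    ¬ Inp Q x (α + β + 1) (f * g) := by
  obtain ⟨E, hE, rfl⟩ := hf
  obtain ⟨F, hF, rfl⟩ := hg
  have hE' : ∃ γ, Finsupp.degree γ = α ∧ coeff γ (map ρ E) ≠ 0 := by
    by_contra hcon
    push Not at hcon
    refine hf' (h.inp_succ hE fun γ hγ => ?_)
    have := hcon γ hγ
    rwa [coeff_map] at this
  have hF' : ∃ γ, Finsupp.degree γ = β ∧ coeff γ (map ρ F) ≠ 0 := by
    by_contra hcon
    push Not at hcon
    refine hg' (h.inp_succ hF fun γ hγ => ?_)
    have := hcon γ hγ
    rwa [coeff_map] at this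
  rintro ⟨H, hH, he⟩
  have h1 : ev Q x (E * F - H) = 0 := by
    rw [map_sub, map_mul, he, sub_self]
  have h2 := h.qr (α + β) _ ((hE.mul hF).sub (hH.mono (Nat.le_succ _))) h1
  obtain ⟨γ, hγ, hne⟩ := low_mul_ne (hE.map ρ) hE' (hF.map ρ) hF'
  apply hne
  have h3 : map ρ E * map ρ F = map ρ (E * F - H) + map ρ H := by
    rw [map_sub, map_mul]
    ring
  rw [h3]
  exact (h2.add (hH.map ρ)).coeff_eq_zero (by omega)

end ord

section fam

variable {K : Type u} [Field K] {n : ℕ} {Q : Subring K}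

/-- The family `b` is generated by the family `a`. -/
def GenF (Q : Subring K) {ι κ : Type} [Fintype ι] (a : ι → K) (b : κ → K) : Prop :=
  ∀ i, ∃ c : ι → K, (∀ l, c l ∈ Q) ∧ b i = ∑ l, c l * a l

lemma GenF.refl {ι : Type} [Fintype ι] (a : ι → K) : GenF Q a a := by
  classical
  intro i
  refine ⟨Pi.single i 1, fun l => ?_, ?_⟩
  · by_cases h : l = i
    · rw [h, Pi.single_eq_same]; exact Q.one_mem
    · rw [Pi.single_eq_of_ne h]; exact Q.zero_mem
  · rw [Finset.sum_eq_single i]
    · rw [Pi.single_eq_same, one_mul]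
    · intro l _ hl
      rw [Pi.single_eq_of_ne hl, zero_mul]
    · intro h
      exact absurd (Finset.mem_univ _) h

lemma GenF.trans {ι κ θ : Type} [Fintype ι] [Fintype κ] {a : ι → K} {b : κ → K} {c : θ → K}
    (h : GenF Q a b) (h' : GenF Q b c) : GenF Q a c := by
  intro i
  obtain ⟨d, hd, hi⟩ := h' i
  choose e he hel using h
  refine ⟨fun l => ∑ m, d m * e m l, fun l => Q.sum_mem fun m _ => Q.mul_mem (hd m) (he m l), ?_⟩
  rw [hi]
  simp only [Finset.sum_mul]
  rw [Finset.sum_comm]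
  refine Finset.sum_congr rfl fun m _ => ?_
  rw [hel m, Finset.mul_sum]
  exact Finset.sum_congr rfl fun l _ => by ring

lemma GenF.mono {Q' : Subring K} (hQ : Q ≤ Q') {ι κ : Type} [Fintype ι] {a : ι → K} {b : κ → K}
    (h : GenF Q a b) : GenF Q' a b := by
  intro i
  obtain ⟨c, hc, hi⟩ := h i
  exact ⟨c, fun l => hQ (hc l), hi⟩

lemma mi_genF {r : ℕ} {A B : Fin n → Fin r → K}
    (h : ∃ c : Fin n → Fin n → K, (∀ l m, c l m ∈ Q) ∧ ∀ l b, B l b = ∑ m, c l m * A m b) :
    GenF Q (mi A) (mi B) := by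
  obtain ⟨c, hc, h⟩ := h
  intro I
  exact ⟨fun J => ∏ a, c (I a) (J a), fun J => Q.prod_mem fun a _ => hc _ _, mi_comb A B c h I⟩

/-- The family is a monomial times a family of elements of the ring, one of which has order at most
`μ`. -/
def ResF {ι : Type} (s : Sta K n) (C : ι → K) (μ : ℕ) : Prop :=
  ∃ h, Mo s.1 s.2 h ∧ (∀ i, C i / h ∈ s.1) ∧ ∃ i, ¬ Inp s.1 s.2 (μ + 1) (C i / h)

lemma ResF.gen {ι κ : Type} [Fintype ι] [Fintype κ] {s : Sta K n} {C : ι → K} {C' : κ → K} {μ : ℕ}
    (h : ResF s C μ) (h1 : GenF s.1 C C') (h2 : GenF s.1 C' C) : ResF s C' μ := by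
  obtain ⟨m, hm, hC, i, hi⟩ := h
  refine ⟨m, hm, fun l => ?_, ?_⟩
  · obtain ⟨c, hc, hl⟩ := h1 l
    rw [hl, Finset.sum_div]
    refine s.1.sum_mem fun l _ => ?_
    rw [mul_div_assoc]
    exact s.1.mul_mem (hc l) (hC l)
  · by_contra hcon
    push Not at hcon
    apply hi
    obtain ⟨c, hc, hl⟩ := h2 i
    rw [hl, Finset.sum_div]
    have : ∀ l : κ, Inp s.1 s.2 (μ + 1) (c l * C' l / m) := fun l => by
      rw [mul_div_assoc]
      exact inp_mul (hc l) (hcon l)
    exact inp_sum _ fun l _ => this l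

end fam

section common

variable {K : Type u} [Field K] {k : Type v} [Field k] {n r : ℕ}
  {Q : Subring K} {ρ : Q →+* k} {x : Fin n → K}

/-- The number of the members outside `E`. -/
def wt (E : Finset (Fin n)) (I : Fin r → Fin n) : ℕ := ∑ a, if I a ∈ E then 0 else 1

lemma wt_update (E : Finset (Fin n)) (I : Fin r → Fin n) (a : Fin r) (l : Fin n) :
    wt E (Function.update I a l) + (if I a ∈ E then 0 else 1) =
      wt E I + (if l ∈ E then 0 else 1) := by
  unfold wt
  rw [← Finset.add_sum_erase _ _ (Finset.mem_univ a),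
    ← Finset.add_sum_erase (Finset.univ) (fun a => if I a ∈ E then 0 else 1) (Finset.mem_univ a),
    Function.update_self]
  have h1 : ∑ x ∈ Finset.univ.erase a, (if Function.update I a l x ∈ E then 0 else 1) =
      ∑ x ∈ Finset.univ.erase a, (if I x ∈ E then 0 else 1) :=
    Finset.sum_congr rfl fun b hb => by rw [Function.update_of_ne (Finset.ne_of_mem_erase hb)]
  rw [h1]
  omega

/-- A common minimizer of the order and of the weighted order of the minors. -/
theorem common (hf : Fra Q ρ x) (A : Fin n → Fin r → K) {h : K} (hh : h ≠ 0)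
    (E : Finset (Fin n)) {μ N : ℕ} (hμ : ∀ I, Inp Q x μ (mi A I / h))
    (hN : ∀ I, Inp Q x (N - wt E I) (mi A I / h))
    (hA : ∃ I, ¬ Inp Q x (μ + 1) (mi A I / h))
    (hB : ∃ I, ¬ Inp Q x (N + 1 - wt E I) (mi A I / h)) :
    ∃ I, ¬ Inp Q x (μ + 1) (mi A I / h) ∧ ¬ Inp Q x (N + 1 - wt E I) (mi A I / h) := by
  classical
  let SA : Finset (Fin r → Fin n) := Finset.univ.filter fun I => ¬ Inp Q x (μ + 1) (mi A I / h)
  have hSA : SA.Nonempty := by
    obtain ⟨I, hI⟩ := hA
    exact ⟨I, Finset.mem_filter.2 ⟨Finset.mem_univ _, hI⟩⟩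
  obtain ⟨I0, hI0, hw0⟩ := SA.exists_min_image (wt E) hSA
  have hSAm : ∀ I, ¬ Inp Q x (μ + 1) (mi A I / h) → wt E I0 ≤ wt E I := fun I hI =>
    hw0 I (Finset.mem_filter.2 ⟨Finset.mem_univ _, hI⟩)
  let SB : Finset ((Fin r → Fin n) × (Fin r → Fin n)) := Finset.univ.filter fun P =>
    ¬ Inp Q x (μ + 1) (mi A P.1 / h) ∧ wt E P.1 = wt E I0 ∧
      ¬ Inp Q x (N + 1 - wt E P.2) (mi A P.2 / h)
  have hSB : SB.Nonempty := by
    obtain ⟨I, hI⟩ := hB
    exact ⟨(I0, I), Finset.mem_filter.2 ⟨Finset.mem_univ _,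
      (Finset.mem_filter.1 hI0).2, rfl, hI⟩⟩
  let d : (Fin r → Fin n) × (Fin r → Fin n) → ℕ := fun P =>
    (Finset.univ.filter fun a => P.1 a ∉ Set.range P.2).card
  obtain ⟨⟨I1, I2⟩, hP, hdmin⟩ := SB.exists_min_image d hSB
  obtain ⟨-, hI1, hw1, hI2⟩ := Finset.mem_filter.1 hP
  have hI1 : ¬ Inp Q x (μ + 1) (mi A I1 / h) := hI1
  have hw1 : wt E I1 = wt E I0 := hw1
  have hI2 : ¬ Inp Q x (N + 1 - wt E I2) (mi A I2 / h) := hI2
  have hmin : ∀ I I', ¬ Inp Q x (μ + 1) (mi A I / h) → wt E I = wt E I0 →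
      ¬ Inp Q x (N + 1 - wt E I') (mi A I' / h) → d (I1, I2) ≤ d (I, I') := fun I I' h1 h2 h3 =>
    hdmin (I, I') (Finset.mem_filter.2 ⟨Finset.mem_univ _, h1, h2, h3⟩)
  have hne : ∀ I m, ¬ Inp Q x m (mi A I / h) → mi A I ≠ 0 := by
    intro I m h1 h0
    rw [h0, zero_div] at h1
    exact h1 inp_zero'
  have hinj1 := mi_inj A (hne _ _ hI1)
  have hinj2 := mi_inj A (hne _ _ hI2)
  by_cases hall : ∀ a, I1 a ∈ Set.range I2
  · -- the two members differ by a permutation
    choose τ hτ using hall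
    have hτi : Function.Injective τ := by
      intro a b hab
      apply hinj1
      rw [← hτ, ← hτ, hab]
    let σ : Equiv.Perm (Fin r) := Equiv.ofBijective τ (Finite.injective_iff_bijective.1 hτi)
    have h1 : I1 = I2 ∘ σ := by
      funext a
      exact (hτ a).symm
    have h2 : wt E I1 = wt E I2 := by
      unfold wt
      rw [h1]
      exact Equiv.sum_comp σ (fun a => if I2 a ∈ E then 0 else 1)
    refine ⟨I1, hI1, fun h3 => hI2 ?_⟩
    rw [h2] at h3
    rcases mi_perm A I2 σ with h4 | h4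
    · rw [h1, h4] at h3
      exact h3
    · rw [h1, h4, neg_div] at h3
      have := inp_neg h3
      rwa [neg_neg] at this
  · exfalso
    push Not at hall
    obtain ⟨a, ha⟩ := hall
    -- the exchange
    have hNw : wt E I2 < N + 1 := by
      by_contra hcon
      apply hI2
      rw [show N + 1 - wt E I2 = 0 by omega]
      exact (hμ I2).mono (Nat.zero_le _)
    have hprod : ¬ Inp Q x (μ + (N - wt E I2) + 1) ((mi A I1 / h) * (mi A I2 / h)) :=
      not_inp_mul hf (hμ I1) hI1 (hN I2) (by rwa [show N - wt E I2 + 1 = N + 1 - wt E I2 by omega])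
    have hsum : (mi A I1 / h) * (mi A I2 / h) =
        ∑ b, (mi A (Function.update I1 a (I2 b)) / h) * (mi A (Function.update I2 b (I1 a)) / h) := by
      have h1 := mi_exchange A I1 I2 a
      rw [div_mul_div_comm, h1, Finset.sum_div]
      refine Finset.sum_congr rfl fun b _ => ?_
      rw [div_mul_div_comm]
    rw [hsum] at hprod
    obtain ⟨b, hb⟩ : ∃ b, ¬ Inp Q x (μ + (N - wt E I2) + 1)
        ((mi A (Function.update I1 a (I2 b)) / h) * (mi A (Function.update I2 b (I1 a)) / h)) := by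
      by_contra hcon
      push Not at hcon
      exact hprod (inp_sum _ fun b _ => hcon b)
    set J1 := Function.update I1 a (I2 b) with hJ1
    set J2 := Function.update I2 b (I1 a) with hJ2
    have hb1 : I2 b ∉ Set.range I1 := by
      rintro ⟨a', ha'⟩
      by_cases haa : a' = a
      · subst haa
        exact ha ⟨b, ha'.symm⟩
      · apply hb
        have : mi A J1 = 0 := by
          refine mi_zero A (a := a') (b := a) ?_ haa
          rw [hJ1, Function.update_of_ne haa, Function.update_self, ha']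
        rw [this, zero_div, zero_mul]
        exact inp_zero'
    have hrange2 : ∀ y, y ∈ Set.range J2 ↔ (y ∈ Set.range I2 ∧ y ≠ I2 b) ∨ y = I1 a := by
      intro y
      constructor
      · rintro ⟨c, rfl⟩
        by_cases hc : c = b
        · right
          rw [hc, hJ2, Function.update_self]
        · left
          rw [hJ2, Function.update_of_ne hc]
          exact ⟨⟨c, rfl⟩, fun h => hc (hinj2 h)⟩
      · rintro (⟨⟨c, rfl⟩, hc⟩ | rfl)
        · refine ⟨c, ?_⟩
          rw [hJ2, Function.update_of_ne (fun h => hc (by rw [h]))]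
        · exact ⟨b, by rw [hJ2, Function.update_self]⟩
    have hd1 : d (J1, I2) < d (I1, I2) := by
      refine Finset.card_lt_card ⟨?_, fun hsub => ?_⟩
      · intro c hc
        have hc' := (Finset.mem_filter.1 hc).2
        refine Finset.mem_filter.2 ⟨Finset.mem_univ _, ?_⟩
        change J1 c ∉ Set.range I2 at hc'
        change I1 c ∉ Set.range I2
        by_cases hca : c = a
        · rw [hca]; exact ha
        · rwa [hJ1, Function.update_of_ne hca] at hc'
      · have h1 : a ∈ Finset.univ.filter fun a => (J1, I2).1 a ∉ Set.range (J1, I2).2 :=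
          hsub (Finset.mem_filter.2 ⟨Finset.mem_univ _, ha⟩)
        have h2 := (Finset.mem_filter.1 h1).2
        change J1 a ∉ Set.range I2 at h2
        rw [hJ1, Function.update_self] at h2
        exact h2 ⟨b, rfl⟩
    have hd2 : d (I1, J2) < d (I1, I2) := by
      refine Finset.card_lt_card ⟨?_, fun hsub => ?_⟩
      · intro c hc
        have hc' := (Finset.mem_filter.1 hc).2
        refine Finset.mem_filter.2 ⟨Finset.mem_univ _, ?_⟩
        change I1 c ∉ Set.range J2 at hc'
        change I1 c ∉ Set.range I2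
        intro h1
        exact hc' ((hrange2 _).2 (Or.inl ⟨h1, fun h2 => hb1 ⟨c, h2⟩⟩))
      · have h1 : a ∈ Finset.univ.filter fun a => (I1, J2).1 a ∉ Set.range (I1, J2).2 :=
          hsub (Finset.mem_filter.2 ⟨Finset.mem_univ _, ha⟩)
        have h2 := (Finset.mem_filter.1 h1).2
        change I1 a ∉ Set.range J2 at h2
        exact h2 ((hrange2 _).2 (Or.inr rfl))
    have hw1' := wt_update E I1 a (I2 b)
    have hw2' := wt_update E I2 b (I1 a)
    rw [← hJ1] at hw1'
    rw [← hJ2] at hw2'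
    have hbd : ∀ α β, Inp Q x α (mi A J1 / h) → Inp Q x β (mi A J2 / h) →
        μ + (N - wt E I2) + 1 ≤ α + β → False := fun α β h1 h2 h3 =>
      hb ((inp_mul' h1 h2).mono h3)
    by_cases haE : I1 a ∈ E
    · rw [if_pos haE, add_zero] at hw1' hw2'
      by_cases hbE : I2 b ∈ E
      · rw [if_pos hbE, add_zero] at hw1' hw2'
        -- the same weight
        have h1 : ¬ Inp Q x (μ + 1) (mi A J1 / h) := fun h1 =>
          hbd _ _ h1 (hN J2) (by rw [hw2']; omega)
        have := hmin J1 I2 h1 (by rw [hw1', hw1]) hI2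
        omega
      · rw [if_neg hbE] at hw1' hw2'
        refine hbd _ _ (hμ J1) (hN J2) ?_
        omega
    · rw [if_neg haE] at hw1' hw2'
      by_cases hbE : I2 b ∈ E
      · rw [if_pos hbE, add_zero] at hw1' hw2'
        have h1 : Inp Q x (μ + 1) (mi A J1 / h) := by
          by_contra h1
          have := hSAm J1 h1
          omega
        have h2 : ¬ Inp Q x (N + 1 - wt E J2) (mi A J2 / h) := by
          intro h2
          exact hbd _ _ h1 h2 (by omega)
        have := hmin I1 J2 hI1 hw1 h2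
        omega
      · rw [if_neg hbE] at hw1' hw2'
        have h1 : ¬ Inp Q x (μ + 1) (mi A J1 / h) := fun h1 =>
          hbd _ _ h1 (hN J2) (by omega)
        have := hmin J1 I2 h1 (by omega) hI2
        omega

end common

end Pool.Agent.KS6_77.ID
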