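import Pool.Agent.KS6_77.ID.Tor

/-!
# Linear change of the parameters
-/

set_option autoImplicit false
set_option linter.unusedVariables false
set_option linter.unusedSectionVars false

universe u v

namespace Pool.Agent.KS6_77.ID

open MvPolynomial IsLocalRing Pool.Agent.Q40.RP Pool.Agent.KS6_77.IC Function

section det

/-- A triangular determinant. -/
lemma det_ne {k : Type v} [Field k] {n : ℕ} (M : Matrix (Fin n) (Fin n) k) (T : Set (Fin n))
    (hd : ∀ i, M i i ≠ 0) (h1 : ∀ i, i ∉ T → ∀ l, l ≠ i → M i l = 0)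
    (h2 : ∀ i, i ∈ T → ∀ l, l ∈ T → l ≠ i → M i l = 0) : M.det ≠ 0 := by
  classical
  intro h0
  obtain ⟨v, hv, hMv⟩ := Matrix.exists_mulVec_eq_zero_iff.2 h0
  apply hv
  have h3 : ∀ i, i ∉ T → v i = 0 := by
    intro i hi
    have h4 := congrFun hMv i
    change ∑ l, M i l * v l = 0 at h4
    rw [Finset.sum_eq_single i] at h4
    · exact (mul_eq_zero.1 h4).resolve_left (hd i)
    · intro l _ hl
      rw [h1 i hi l hl, zero_mul]
    · intro h
      exact absurd (Finset.mem_univ _) h
  funext i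
  by_cases hi : i ∈ T
  · have h4 := congrFun hMv i
    change ∑ l, M i l * v l = 0 at h4
    rw [Finset.sum_eq_single i] at h4
    · exact (mul_eq_zero.1 h4).resolve_left (hd i)
    · intro l _ hl
      by_cases hlT : l ∈ T
      · rw [h2 i hi l hlT hl, zero_mul]
      · rw [h3 l hlT, mul_zero]
    · intro h
      exact absurd (Finset.mem_univ _) h
  · exact h3 i hi

end det

section frm

variable {K : Type u} [Field K] {k : Type v} [Field k] {n : ℕ}
  {Q : Subring K} {ρ : Q →+* k} {x : Fin n → K}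

lemma lin_comp (M : Matrix (Fin n) (Fin n) Q) {y : Fin n → K}
    (hy : ∀ i, y i = ∑ l, (M i l : K) * x l) (c : Fin n → Q) :
    ∑ i, (c i : K) * y i = ∑ l, ((Matrix.vecMul c M l : Q) : K) * x l := by
  have h1 : ∀ l, ((Matrix.vecMul c M l : Q) : K) = ∑ i, (c i : K) * (M i l : K) := by
    intro l
    change ((∑ i, c i * M i l : Q) : K) = _
    push_cast
    rfl
  simp only [h1, hy, Finset.mul_sum, Finset.sum_mul]
  rw [Finset.sum_comm]
  exact Finset.sum_congr rfl fun l _ => Finset.sum_congr rfl fun i _ => by ring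

/-- Linear change of the parameters. -/
theorem fra_matrix (h : Fra Q ρ x) {M : Matrix (Fin n) (Fin n) Q} (hM : ρ M.det ≠ 0) {y : Fin n → K}
    (hy : ∀ i, y i = ∑ l, (M i l : K) * x l) : Fra Q ρ y := by
  classical
  have hU : U Q (M.det : K) := (U_iff h M.det.2).2 hM
  have hunit : IsUnit M.det :=
    isUnit_iff_exists_inv.2 ⟨⟨_, hU.2.2⟩, Subtype.ext (mul_inv_cancel₀ hU.1)⟩
  obtain ⟨N, hMN, hNM⟩ : ∃ N : Matrix (Fin n) (Fin n) Q, M * N = 1 ∧ N * M = 1 :=
    ⟨M⁻¹, Matrix.mul_nonsing_inv _ hunit, Matrix.nonsing_inv_mul _ hunit⟩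
  have hx : ∀ i, x i = ∑ l, (N i l : K) * y l := by
    intro i
    rw [lin_comp M hy (N i)]
    have h1 : Matrix.vecMul (N i) M = (1 : Matrix (Fin n) (Fin n) Q) i := by
      rw [← hNM]
      rfl
    rw [h1, Finset.sum_eq_single i]
    · rw [Matrix.one_apply_eq, OneMemClass.coe_one, one_mul]
    · intro l _ hl
      rw [Matrix.one_apply_ne hl.symm, ZeroMemClass.coe_zero, zero_mul]
    · intro h
      exact absurd (Finset.mem_univ _) h
  refine ⟨h.surj, h.inv, fun l => ?_, ?_, ?_⟩
  · rw [hy]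
    exact Q.sum_mem fun i _ => Q.mul_mem (M l i).2 (h.mem i)
  · intro z
    rw [h.ker]
    constructor
    · rintro ⟨c, hc⟩
      exact ⟨Matrix.vecMul c N, by rw [hc]; exact lin_comp N hx c⟩
    · rintro ⟨c, hc⟩
      exact ⟨Matrix.vecMul c M, by rw [hc]; exact lin_comp M hy c⟩
  · intro m E hE h0
    let Lm : Fin n → MvPolynomial (Fin n) Q := fun l => ∑ i, C (M l i) * X i
    have hL : ∀ l, Low 1 (Lm l) := fun l => Low.sum _ fun i _ => (Low.X i).mul_left _
    have h1 : y = fun l => ev Q x (Lm l) := by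
      funext l
      simp only [Lm]
      rw [hy, map_sum]
      exact Finset.sum_congr rfl fun i _ => by rw [map_mul, ev_C, ev_X]
    rw [h1, ← ev_bind] at h0
    have h2 := h.qr m _ (hE.bind hL) h0
    rw [Pool.Agent.Q40.RP.map_bind] at h2
    let L' : Fin n → MvPolynomial (Fin n) k := fun l => ∑ i, C (ρ (N l i)) * X i
    have hL' : ∀ l, Low 1 (L' l) := fun l => Low.sum _ fun i _ => (Low.X i).mul_left _
    have h4 := h2.bind hL'
    have h5 : (bind₁ L').comp (bind₁ (fun l => MvPolynomial.map ρ (Lm l))) = AlgHom.id k _ := by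
      apply MvPolynomial.algHom_ext
      intro l
      rw [AlgHom.comp_apply, bind₁_X_right, AlgHom.id_apply]
      simp only [Lm]
      rw [map_sum, map_sum]
      have h6 : ∀ i, bind₁ L' (MvPolynomial.map ρ (C (M l i) * X i)) =
          ∑ q, C (ρ (M l i * N i q)) * X q := by
        intro i
        rw [map_mul, map_C, map_X, map_mul, bind₁_C_right, bind₁_X_right]
        simp only [L']
        rw [Finset.mul_sum]
        refine Finset.sum_congr rfl fun q _ => ?_
        rw [map_mul, C_mul]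
        ring
      rw [Finset.sum_congr rfl fun i _ => h6 i, Finset.sum_comm]
      have h7 : ∀ q, ∑ i, (C (ρ (M l i * N i q)) * X q : MvPolynomial (Fin n) k) =
          C (ρ ((1 : Matrix (Fin n) (Fin n) Q) l q)) * X q := by
        intro q
        rw [← Finset.sum_mul, ← map_sum, ← map_sum, ← hMN]
        rfl
      rw [Finset.sum_congr rfl fun q _ => h7 q, Finset.sum_eq_single l]
      · rw [Matrix.one_apply_eq, map_one, C_1, one_mul]
      · intro q _ hq
        rw [Matrix.one_apply_ne hq.symm, map_zero, C_0, zero_mul]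
      · intro h
        exact absurd (Finset.mem_univ _) h
    have h6 := DFunLike.congr_fun h5 (MvPolynomial.map ρ E)
    rw [AlgHom.comp_apply, AlgHom.id_apply] at h6
    rwa [h6] at h4

/-- The parameters of a regular system are recognized by their derivatives. -/
theorem fra_der (h : Fra Q ρ x) {D : Fin n → Derivation ℤ K K} (hD : Dv Q x D) {y : Fin n → K}
    (hy : ∀ i, ∃ h' : y i ∈ Q, ρ ⟨y i, h'⟩ = 0) (T : Set (Fin n))
    (hd : ∀ i, U Q (D i (y i)))
    (h1 : ∀ i, i ∉ T → ∀ l, l ≠ i → ∀ h' : D l (y i) ∈ Q, ρ ⟨D l (y i), h'⟩ = 0)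
    (h2 : ∀ i, i ∈ T → ∀ l, l ∈ T → l ≠ i → ∀ h' : D l (y i) ∈ Q, ρ ⟨D l (y i), h'⟩ = 0) :
    Fra Q ρ y := by
  classical
  have h3 : ∀ i, ∃ c : Fin n → Q, y i = ∑ l, (c l : K) * x l := by
    intro i
    obtain ⟨h', h0⟩ := hy i
    exact (h.ker _).1 h0
  choose M hM using h3
  have hval : ∀ i l, ρ (M i l) = ρ ⟨D l (y i), hD.stab l _ (hy i).1⟩ := by
    intro i l
    have h4 : D l (y i) = M i l + ∑ m, x m * D l (M i m : K) := by
      nth_rewrite 1 [hM i]
      rw [map_sum]
      have h5 : ∀ m, D l ((M i m : K) * x m) = (if l = m then (M i m : K) else 0) +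
          x m * D l (M i m : K) := by
        intro m
        rw [Derivation.leibniz, hD.dual, smul_eq_mul, smul_eq_mul]
        by_cases hm : l = m
        · rw [if_pos hm, if_pos hm]; ring
        · rw [if_neg hm, if_neg hm]; ring
      rw [Finset.sum_congr rfl fun m _ => h5 m, Finset.sum_add_distrib, Finset.sum_ite_eq,
        if_pos (Finset.mem_univ _)]
    have h5 : (⟨D l (y i), hD.stab l _ (hy i).1⟩ : Q) = M i l +
        ∑ m, ⟨x m, h.mem m⟩ * ⟨D l (M i m : K), hD.stab l _ (M i m).2⟩ := by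
      apply Subtype.ext
      push_cast
      exact h4
    rw [h5, map_add, map_sum, Finset.sum_eq_zero, add_zero]
    intro m _
    rw [map_mul, h.rho_x, zero_mul]
  refine fra_matrix h (M := Matrix.of M) ?_ hM
  rw [RingHom.map_det]
  refine det_ne _ T (fun i => ?_) (fun i hi l hl => ?_) (fun i hi l hlT hl => ?_)
  · change ρ (M i i) ≠ 0
    rw [hval]
    exact (U_iff h _).1 (hd i)
  · change ρ (M i l) = 0
    rw [hval]
    exact h1 i hi l hl _
  · change ρ (M i l) = 0
    rw [hval]
    exact h2 i hi l hlT hl _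

end frm

end Pool.Agent.KS6_77.ID
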