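import Pool.Agent.KS6_77.ID.Core

/-!
# Good stages for a field of exponent one
-/

set_option autoImplicit false
set_option linter.unusedVariables false
set_option linter.unusedSectionVars false

universe u v w

namespace Pool.Agent.KS6_77.ID

open MvPolynomial IsLocalRing Pool.Agent.Q40.RP Pool.Agent.W418.LU2 Pool.Agent.KS6_77.IC Function

section gst

variable {K : Type u} [Field K] {k : Type v} [Field k] {n r : ℕ} (p : ℕ) [hpr : Fact p.Prime]
  [CharP K p] {O : Subring K} {ρ0 : O →+* k} {S : Finset O} {piv : (Fin n → O) → Fin n}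

theorem good_stage (hd : Dat O ρ0 S piv) {c : Fin n → O} (hc : IsLt S c) {s : Sta K n}
    (hs : Gd O ρ0 s) (hall : ∀ i, c i ≠ 0) {D : Fin n → Derivation ℤ K K} (hD : Dv s.1 s.2 D)
    (hc0 : ∀ i l, D i (c l : K) = 0) (hk : ∀ a : k, ∃ b : k, b ^ p = a)
    (hSp : Sp p s.2) (hLi : Li p s.2) {F : Subfield K} (hF : ∀ q : K, q ^ p ∈ F) {f : Fin r → K}
    (hfF : ∀ b, f b ∈ F)
    (hspan : ∀ g ∈ F, ∃ lam : Fin r → K, ∀ D' : Derivation ℤ K K, D' g = ∑ b, lam b * D' (f b))
    (hres : ResF s (mi (la s.2 D f)) 0) {ρ' : (nx piv s c).1 →+* k}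
    (hf' : Fra (nx piv s c).1 ρ' (nx piv s c).2) :
    ∃ (y : Fin n → K) (R : Finset (Fin n)), Fra (nx piv s c).1 ρ' y ∧ (∀ i ∈ R, y i ∈ F) ∧
      (∃ g, U (nx piv s c).1 g ∧ y (piv c) = s.2 (piv c) * g) ∧
      ∀ E : Derivation ℤ K K, (∀ i ∈ R, E (y i) = 0) → ∀ g ∈ F, E g = 0 := by
  classical
  have hp := hpr.out
  obtain ⟨hO, ρ, hfr, hρ⟩ := id hs
  obtain ⟨h0, hm0, hC, I0, hI0⟩ := hres
  have hU0 : U s.1 (mi (la s.2 D f) I0 / h0) := (not_inp_one hfr (hC I0)).1 hI0
  -- choice of the minor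
  obtain ⟨I, hIU, hImin⟩ : ∃ I, U s.1 (mi (la s.2 D f) I / h0) ∧ (piv c ∈ Set.range I →
      ∀ J, U s.1 (mi (la s.2 D f) J / h0) → piv c ∈ Set.range J) := by
    by_cases hex : ∃ I, U s.1 (mi (la s.2 D f) I / h0) ∧ piv c ∉ Set.range I
    · obtain ⟨I, h1, h2⟩ := hex
      exact ⟨I, h1, fun h => absurd h h2⟩
    · push Not at hex
      exact ⟨I0, hU0, fun _ J hJ => hex J hJ⟩
  set j := piv c with hj
  set A := la s.2 D f with hA
  have hmI : mi A I ≠ 0 := by
    intro h
    apply hIU.1
    rw [h, zero_div]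
  have hh0 : h0 ≠ 0 := by
    rintro rfl
    apply hIU.1
    rw [div_zero]
  have hdiv : ∀ J, mi A J / mi A I ∈ s.1 := by
    intro J
    have h1 : mi A J / mi A I = (mi A J / h0) * (mi A I / h0)⁻¹ := by field_simp
    rw [h1]
    exact s.1.mul_mem (hC J) hIU.2.2
  have hUdiv : ∀ J, U s.1 (mi A J / mi A I) → U s.1 (mi A J / h0) := by
    intro J hJ
    have h1 : mi A J / h0 = (mi A J / mi A I) * (mi A I / h0) := by field_simp
    rw [h1]
    exact hJ.mul hIU
  have hinj := mi_inj _ hmI
  obtain ⟨q, m, hq1, htF, hmU, hkill⟩ := exists_toric p hfr hD hSp hLi hF hfF hspan hmI hdiv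
  -- the ratios
  have hle : s.1 ≤ (nx piv s c).1 := le_nr _ _
  have hxj : s.2 j ≠ 0 := (hs.nu j).2.1
  have hxjj : (nx piv s c).2 j = s.2 j := x_piv c s
  set CI : Finset (Fin n) := (Finset.univ.image I)ᶜ with hCI
  have hCIm : ∀ l, l ∈ CI ↔ l ∉ Set.range I := by
    intro l
    rw [hCI, Finset.mem_compl, Finset.mem_image]
    constructor
    · rintro h1 ⟨a, rfl⟩
      exact h1 ⟨a, Finset.mem_univ _, rfl⟩
    · rintro h1 ⟨a, -, rfl⟩
      exact h1 ⟨a, rfl⟩
  have hr : ∀ l, U (nx piv s c).1 (s.2 l / s.2 j) := fun l => ratio_U hd hc hs (hall l)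
  let P : Fin r → K := fun a => ∏ l ∈ CI, (s.2 l / s.2 j) ^ m a l
  let v : Fin r → K := fun a => s.2 (I a) / s.2 j * (q a * P a)
  let d : Fin r → ℕ := fun a => 1 + ∑ l ∈ CI, m a l
  have hPU : ∀ a, U (nx piv s c).1 (P a) := by
    intro a
    have h1 : ∀ t : Finset (Fin n), U (nx piv s c).1 (∏ l ∈ t, (s.2 l / s.2 j) ^ m a l) := by
      intro t
      induction t using Finset.induction_on with
      | empty => rw [Finset.prod_empty]; exact U.one
      | insert l t hl ih => rw [Finset.prod_insert hl]; exact ((hr l).pow _).mul ih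
    exact h1 CI
  have hqU : ∀ a, U (nx piv s c).1 (q a : K) := by
    intro a
    refine U.mono hle ((U_iff hfr (q a).2).2 ?_)
    change ρ (q a) ≠ 0
    rw [hq1]
    exact one_ne_zero
  have hv : ∀ a, U (nx piv s c).1 (v a) := fun a => (hr _).mul ((hqU a).mul (hPU a))
  have htf : ∀ a, tf s.2 I (fun a => (q a : K)) m a = s.2 j ^ d a * v a := by
    intro a
    have h1 : ∀ t : Finset (Fin n), ∏ l ∈ t, s.2 l ^ m a l =
        s.2 j ^ (∑ l ∈ t, m a l) * ∏ l ∈ t, (s.2 l / s.2 j) ^ m a l := by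
      intro t
      induction t using Finset.induction_on with
      | empty => simp
      | insert l t hl ih =>
        rw [Finset.prod_insert hl, Finset.prod_insert hl, Finset.sum_insert hl, ih, pow_add,
          div_pow]
        field_simp
    unfold tf
    rw [← hCI, h1 CI]
    simp only [v, d, P]
    rw [pow_add, pow_one]
    field_simp
  -- the derivations
  have hD' := hD.next hd hc hs hc0
  have hDr : ∀ i, i ≠ j → ∀ l, dnx j s.2 D i (s.2 l / s.2 j) = if i = l then 1 else 0 := by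
    intro i hi l
    rw [dnx_ne hi, Derivation.leibniz_div, hD.dual, hD.dual, if_neg hi, smul_zero, sub_zero,
      smul_eq_mul, smul_eq_mul]
    by_cases hil : i = l
    · rw [if_pos hil, mul_one]
      field_simp
    · rw [if_neg hil]
      simp
  have hDq : ∀ i, i ≠ j → ∀ z ∈ s.1, Z0 ρ' (dnx j s.2 D i z) := by
    intro i hi z hz
    rw [dnx_ne hi, ← hxjj]
    exact (Z0.par hf' j).mul' (hle (hD.stab i z hz))
  have hDP : ∀ b a, I b ≠ j → dnx j s.2 D (I b) (P a) = 0 := by
    intro b a hb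
    have h1 : ∀ t : Finset (Fin n), (∀ l ∈ t, l ∉ Set.range I) →
        dnx j s.2 D (I b) (∏ l ∈ t, (s.2 l / s.2 j) ^ m a l) = 0 := by
      intro t
      induction t using Finset.induction_on with
      | empty => intro _; simp
      | insert l t hl ih =>
        intro ht
        rw [Finset.prod_insert hl, Derivation.leibniz, Derivation.leibniz_pow, hDr _ hb,
          if_neg (fun h => ht l (Finset.mem_insert_self _ _) ⟨b, h⟩),
          ih fun l' hl' => ht l' (Finset.mem_insert_of_mem hl')]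
        simp
    exact h1 CI fun l hl => (hCIm l).1 hl
  have hvD : ∀ b a, I b ≠ j → dnx j s.2 D (I b) (v a) =
      (if I b = I a then (q a : K) * P a else 0) +
        (s.2 (I a) / s.2 j * P a) * dnx j s.2 D (I b) (q a) := by
    intro b a hb
    simp only [v]
    rw [Derivation.leibniz, Derivation.leibniz, hDr _ hb, hDP b a hb, smul_eq_mul, smul_eq_mul,
      mul_zero, zero_add, smul_eq_mul, smul_eq_mul]
    by_cases h1 : I b = I a
    · rw [if_pos h1, if_pos h1]; ring
    · rw [if_neg h1, if_neg h1]; ring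
  have hz1 : ∀ b a, I b ≠ j → Z0 ρ' ((s.2 (I a) / s.2 j * P a) * dnx j s.2 D (I b) (q a)) := by
    intro b a hb
    exact (hDq _ hb _ (q a).2).mul ((hr _).mul (hPU a)).2.1
  have hv1 : ∀ b, I b ≠ j → U (nx piv s c).1 (dnx j s.2 D (I b) (v b)) := by
    intro b hb
    rw [hvD b b hb, if_pos rfl]
    exact U_add hf' ((hqU b).mul (hPU b)) (hz1 b b hb)
  have hv2 : ∀ b a, I b ≠ j → a ≠ b → Z0 ρ' (dnx j s.2 D (I b) (v a)) := by
    intro b a hb hab
    rw [hvD b a hb, if_neg (fun h => hab (hinj h).symm), zero_add]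
    exact hz1 b a hb
  have htf0 : ∀ a, tf s.2 I (fun a => (q a : K)) m a ≠ 0 := by
    intro a
    rw [htf]
    exact mul_ne_zero (pow_ne_zero _ hxj) (hv a).1
  by_cases hAc : ∃ a0, ¬ p ∣ d a0 ∧ ∀ b, b ≠ a0 → I b ≠ j
  · obtain ⟨a0, hda0, hIb⟩ := hAc
    obtain ⟨α, β, hαβ⟩ : ∃ α β : ℕ, α * d a0 = 1 + p * β := by
      have hcop : Nat.Coprime (d a0) p := by
        rw [Nat.coprime_comm]
        exact (Nat.Prime.coprime_iff_not_dvd hp).2 hda0
      obtain ⟨α, hα⟩ := Nat.exists_mul_mod_eq_one_of_coprime hcop hp.one_lt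
      refine ⟨α, (d a0 * α) / p, ?_⟩
      rw [← hα.2, mul_comm α (d a0), add_comm]
      exact (Nat.div_add_mod (d a0 * α) p).symm
    have hB : ∀ b ∈ Finset.univ.erase a0, I b ≠ j := fun b hb => hIb b (Finset.ne_of_mem_erase hb)
    have hgU : U (nx piv s c).1 (v a0 ^ α) := (hv a0).pow α
    obtain ⟨cc, y, hyj, hyI, hyo, hfy⟩ := core p hf' hD' hinj hB hv (fun b hb => hv1 b (hB b hb))
      (fun b hb a hab => hv2 b a (hB b hb) hab) hgU
      (fun b hb => Z0.der_pow (hv a0).2.1
        (hv2 b a0 (hB b hb) (Finset.ne_of_mem_erase hb).symm) α) d hk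
    rw [hxjj] at hyj
    have hyj0 : y j ≠ 0 := by
      rw [hyj]
      exact mul_ne_zero hxj hgU.1
    have hY : y j * (s.2 j ^ β) ^ p = tf s.2 I (fun a => (q a : K)) m a0 ^ α := by
      rw [hyj, htf, mul_pow (s.2 j ^ d a0), ← pow_mul, ← pow_mul, mul_comm (d a0) α, hαβ, pow_add,
        pow_one, mul_comm p β]
      ring
    have hw : ∀ a, tf s.2 I (fun a => (q a : K)) m a = y j ^ d a * (v a / (v a0 ^ α) ^ d a) := by
      intro a
      rw [hyj, htf, mul_pow]
      have := pow_ne_zero (d a) hgU.1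
      field_simp
    have hyjF : y j ∈ F := by
      have h1 : y j = tf s.2 I (fun a => (q a : K)) m a0 ^ α / (s.2 j ^ β) ^ p := by
        rw [← hY, mul_div_cancel_right₀ _ (pow_ne_zero _ (pow_ne_zero _ hxj))]
      rw [h1]
      exact F.div_mem (F.pow_mem (htF a0) _) (hF _)
    refine ⟨y, insert j ((Finset.univ.erase a0).image I), hfy, ?_, ⟨_, hgU, hyj⟩, ?_⟩
    · intro i hi
      rcases Finset.mem_insert.1 hi with rfl | hi
      · exact hyjF
      · obtain ⟨b, hb, rfl⟩ := Finset.mem_image.1 hi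
        rw [hyI b hb]
        refine F.sub_mem ?_ (hF _)
        have h1 : v b / (v a0 ^ α) ^ d b = tf s.2 I (fun a => (q a : K)) m b / y j ^ d b := by
          rw [hw b, mul_div_cancel_left₀ _ (pow_ne_zero _ hyj0)]
        rw [h1]
        exact F.div_mem (htF b) (F.pow_mem hyjF _)
    · intro E hE
      refine hkill E fun a => ?_
      have hEj : E (y j) = 0 := hE j (Finset.mem_insert_self _ _)
      by_cases ha : a = a0
      · rw [ha]
        have h1 : E (y j * (s.2 j ^ β) ^ p) = 0 := by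
          rw [mul_comm, der_pow_p_mul p, hEj, mul_zero]
        rw [hY, Derivation.leibniz_pow, nsmul_eq_mul, smul_eq_mul] at h1
        have h2 : (α : K) ≠ 0 := by
          intro h2
          have h3 := congrArg (Nat.cast (R := K)) hαβ
          push_cast at h3
          rw [h2, CharP.cast_eq_zero K p] at h3
          simp at h3
        exact (mul_eq_zero.1 ((mul_eq_zero.1 h1).resolve_left h2)).resolve_left
          (pow_ne_zero _ (htf0 a0))
      · have hb : a ∈ Finset.univ.erase a0 := Finset.mem_erase.2 ⟨ha, Finset.mem_univ _⟩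
        have h1 := hE (I a) (Finset.mem_insert_of_mem (Finset.mem_image_of_mem _ hb))
        rw [hyI a hb, map_sub, der_pow_p p, sub_zero] at h1
        rw [hw a, Derivation.leibniz, h1, Derivation.leibniz_pow, hEj]
        simp
  · -- all degrees are divisible by `p`
    push Not at hAc
    have hjI : ∀ b, I b ≠ j := by
      intro b hb
      obtain ⟨b', hb', hIb'⟩ := hAc b (by
        have h1 : d b = 1 := by
          simp only [d]
          rw [Finset.sum_eq_zero, add_zero]
          intro l hl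
          by_contra hne
          have hlI := (hCIm l).1 hl
          have h2 := hImin ⟨b, hb⟩ _ (hUdiv _ (hmU b l hlI hne))
          obtain ⟨a', ha'⟩ := h2
          by_cases hab : a' = b
          · rw [hab, update_self] at ha'
            exact hlI ⟨b, by rw [ha', hb]⟩
          · rw [update_of_ne hab] at ha'
            exact hab (hinj (ha'.trans hb.symm))
        rw [h1]
        exact hp.one_lt.ne' ∘ Nat.dvd_one.1)
      exact hb' (hinj (hIb'.trans hb.symm))
    have hpd : ∀ a, p ∣ d a := by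
      intro a
      by_contra hne
      obtain ⟨b', hb', hIb'⟩ := hAc a hne
      exact hjI b' hIb'
    have hDone : ∀ i, Z0 ρ' (dnx j s.2 D i (1 : K)) := by
      intro i
      rw [Derivation.map_one_eq_zero]
      exact Z0.zero
    obtain ⟨cc, y, hyj, hyI, hyo, hfy⟩ := core p hf' hD' hinj (B := Finset.univ)
      (fun b _ => hjI b) hv (fun b _ => hv1 b (hjI b))
      (fun b _ a hab => hv2 b a (hjI b) hab) (g := 1) U.one (fun b _ => hDone _) d hk
    rw [hxjj] at hyj
    refine ⟨y, Finset.univ.image I, hfy, ?_, ⟨1, U.one, hyj⟩, ?_⟩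
    · intro i hi
      obtain ⟨b, hb, rfl⟩ := Finset.mem_image.1 hi
      rw [hyI b hb, one_pow, div_one]
      refine F.sub_mem ?_ (hF _)
      obtain ⟨e, he⟩ := hpd b
      have h1 : v b = tf s.2 I (fun a => (q a : K)) m b / (s.2 j ^ e) ^ p := by
        rw [htf, he, ← pow_mul, mul_comm p e, mul_div_cancel_left₀ _ (pow_ne_zero _ hxj)]
      rw [h1]
      exact F.div_mem (htF b) (hF _)
    · intro E hE
      refine hkill E fun a => ?_
      have h1 := hE (I a) (Finset.mem_image_of_mem _ (Finset.mem_univ _))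
      rw [hyI a (Finset.mem_univ _), one_pow, div_one, map_sub, der_pow_p p, sub_zero] at h1
      obtain ⟨e, he⟩ := hpd a
      rw [htf, he, mul_comm p e, pow_mul, der_pow_p_mul p, h1, mul_zero]

end gst

end Pool.Agent.KS6_77.ID
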