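import Pool.Agent.KS6_77.ID.Ini

/-!
# The extensions of exponent one are immediate
-/

set_option autoImplicit false
set_option linter.unusedVariables false
set_option linter.unusedSectionVars false

universe u v w

namespace Pool.Agent.KS6_77.ID

open MvPolynomial IsLocalRing Pool.Agent.Q40.RP Pool.Agent.W418.LU2 Pool.Agent.TH188.QS
  Pool.Agent.KS6_77.IC Function

section imm

variable {K : Type u} [Field K] {k : Type v} [Field k] {n : ℕ} (p : ℕ)
  [hpr : Fact p.Prime] [CharP K p]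
  {O : Subring K} {ρ0 : O →+* k} {S : Finset O} {piv : (Fin n → O) → Fin n}
  {ω : ℕ → Fin n → O} (hd : Dat O ρ0 S piv) (hω : ∀ l, IsLt S (ω l)) {s0 : Sta K n}
  (h0 : Gd O ρ0 s0)

include hd hω h0

/-- The parameters after a sequence of equal toric letters. -/
lemma rep_toric {a : O} (ha : a ≠ 0) {m : ℕ} {i j : Fin n} (hij : j ≠ i) {N : ℕ}
    (h : ∀ t, t < N → ω (m + t) = Pi.single i a) (t : ℕ) (ht : t ≤ N) :
    (sq piv s0 ω (m + t)).2 i = (sq piv s0 ω m).2 i ∧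
      (sq piv s0 ω m).2 j = (sq piv s0 ω (m + t)).2 j * (sq piv s0 ω m).2 i ^ t := by
  induction t with
  | zero => exact ⟨rfl, by rw [pow_zero, mul_one]; rfl⟩
  | succ t ih =>
    obtain ⟨h1, h2⟩ := ih (by omega)
    have hw := h t (by omega)
    have hpiv : piv (ω (m + t)) = i := by rw [hw, hd.piv_single ha]
    have hxi : (sq piv s0 ω (m + t)).2 i ≠ 0 := ((sq_gd hd hω h0 (m + t)).nu i).2.1
    have h3 : ∀ l, (sq piv s0 ω (m + (t + 1))).2 l = if l = i then (sq piv s0 ω (m + t)).2 i else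
        (sq piv s0 ω (m + t)).2 l / (sq piv s0 ω (m + t)).2 i - (ω (m + t) l : K) / ω (m + t) i := by
      intro l
      have h4 : (sq piv s0 ω (m + (t + 1))).2 l = if l = piv (ω (m + t)) then
        (sq piv s0 ω (m + t)).2 (piv (ω (m + t))) else
        (sq piv s0 ω (m + t)).2 l / (sq piv s0 ω (m + t)).2 (piv (ω (m + t))) -
          (ω (m + t) l : K) / ω (m + t) (piv (ω (m + t))) := rfl
      rw [h4, hpiv]
    refine ⟨?_, ?_⟩
    · rw [h3, if_pos rfl, h1]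
    · rw [h3, if_neg hij, hw, Pi.single_eq_of_ne hij, ZeroMemClass.coe_zero, zero_div, sub_zero, h2,
        pow_succ, h1]
      rw [h1] at hxi
      field_simp

/-- The values of the functions are divisible by `p`. -/
theorem exists_pp {V : ValuationSubring K} (hV : ∀ z, z ∈ V ↔ ∃ l, z ∈ (sq piv s0 ω l).1)
    (hk : ∀ a : k, ∃ b : k, b ^ p = a) {a : O} (ha : a ≠ 0) {c : Fin n → O} (hc : ∀ i, c i ≠ 0)
    {i : Fin n} (hi : piv c ≠ i)
    (hpat : ∀ N, ∃ m, N ≤ m ∧ ω m = c ∧ (∀ t, t < p - 1 → ω (m + 1 + t) = Pi.single i a) ∧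
      ω (m + p) = c)
    (hmo : ∀ z : K, z ≠ 0 → ∃ l, PMon (sq piv s0 ω l).1 (sq piv s0 ω l).2 z) {g : K}
    (hg : g ≠ 0) : ∃ q t : K, g = q ^ p * (1 + t) ∧ t ∈ V ∧ (t ≠ 0 → t⁻¹ ∉ V) := by
  classical
  have hp2 := hpr.out.two_le
  have hgd := sq_gd hd hω h0
  have hpm : ∀ {l l' : ℕ}, l ≤ l' → ∀ z, PMon (sq piv s0 ω l).1 (sq piv s0 ω l).2 z →
      PMon (sq piv s0 ω l').1 (sq piv s0 ω l').2 z := by
    intro l l' hl z hz
    refine PMon.of_gen (fun i => (hgd l').nu i |>.2.1)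
      (sq_mono (piv := piv) (s0 := s0) (ω := ω) hl) (fun i => ?_) hz
    exact (sq_mo hd hω h0 hl (Mo.self _ _ i)).pmon
  obtain ⟨l, hl⟩ := hmo g hg
  obtain ⟨m, hm, hcm, htor, hcp⟩ := hpat l
  have hall : ∀ i, ω m i ≠ 0 := by rw [hcm]; exact hc
  have hall' : ∀ i, ω (m + p) i ≠ 0 := by rw [hcp]; exact hc
  obtain ⟨u, hu, γ, hγ⟩ := sm_next hd (hω m) (hgd m) hall (hpm hm g hl)
  have hu : U (sq piv s0 ω (m + 1)).1 u := hu
  have hγ : g = u * (sq piv s0 ω (m + 1)).2 (piv (ω m)) ^ γ := hγ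
  obtain ⟨h1, h2⟩ := rep_toric hd hω h0 ha (m := m + 1) hi (N := p - 1) htor (p - 1) le_rfl
  rw [show m + 1 + (p - 1) = m + p by omega] at h1 h2
  rw [hcm, h2] at hγ
  have hr := ratio_U hd (hω (m + p)) (hgd (m + p)) (i := i) (hall' i)
  rw [hcp, h1] at hr
  set xj := (sq piv s0 ω (m + p)).2 (piv c) with hxj
  set xi := (sq piv s0 ω (m + 1)).2 i with hxi
  have hxj0 : xj ≠ 0 := ((hgd (m + p)).nu _).2.1
  have hr : U (sq piv s0 ω (m + p + 1)).1 (xi / xj) := by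
    have h3 : sq piv s0 ω (m + p + 1) = nx piv (sq piv s0 ω (m + p)) c := by
      rw [← hcp]
      rfl
    rw [h3]
    exact hr
  have hle : (sq piv s0 ω (m + 1)).1 ≤ (sq piv s0 ω (m + p + 1)).1 :=
    sq_mono (piv := piv) (s0 := s0) (ω := ω) (by omega)
  have hu' : U (sq piv s0 ω (m + p + 1)).1 (u * ((xi / xj) ^ (p - 1)) ^ γ) :=
    (hu.mono hle).mul ((hr.pow _).zpow _)
  have hval : g = (xj ^ γ) ^ p * (u * ((xi / xj) ^ (p - 1)) ^ γ) := by
    have h3 : xj * xi ^ (p - 1) = xj ^ p * (xi / xj) ^ (p - 1) := by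
      obtain ⟨e, he⟩ := Nat.exists_eq_succ_of_ne_zero hpr.out.ne_zero
      have h4 : p - 1 = e := by omega
      rw [h4, he, div_pow, pow_succ]
      field_simp
    rw [hγ, h3, mul_zpow]
    have h5 : (xj ^ p) ^ γ = (xj ^ γ) ^ p := by
      rw [← zpow_natCast, ← zpow_mul, ← zpow_natCast, ← zpow_mul, mul_comm]
    rw [h5]
    ring
  obtain ⟨hO, ρ, hf, hρ⟩ := id (hgd (m + p + 1))
  set u' := u * ((xi / xj) ^ (p - 1)) ^ γ with hu''
  obtain ⟨b, hb⟩ := hk (ρ ⟨u', hu'.2.1⟩)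
  obtain ⟨w, hw⟩ := hf.surj b
  have hw0 : ρ w ≠ 0 := by
    intro h3
    rw [hw] at h3
    rw [h3, zero_pow hpr.out.ne_zero] at hb
    exact (U_iff hf hu'.2.1).1 hu' hb.symm
  have hwU : U (sq piv s0 ω (m + p + 1)).1 (w : K) := (U_iff hf w.2).2 hw0
  have hz : Z0 ρ (u' - (w : K) ^ p) := by
    refine ⟨Subring.sub_mem _ hu'.2.1 (Subring.pow_mem _ w.2 _), ?_⟩
    have h3 : (⟨u' - (w : K) ^ p, Subring.sub_mem _ hu'.2.1 (Subring.pow_mem _ w.2 _)⟩ :
        (sq piv s0 ω (m + p + 1)).1) = ⟨u', hu'.2.1⟩ - w ^ p := rfl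
    rw [h3, map_sub, map_pow, hw, hb, sub_self]
  have hwp := (hwU.pow p)
  have hz' := hz.mul' hwp.inv.2.1
  refine ⟨xj ^ γ * w, (u' - (w : K) ^ p) * ((w : K) ^ p)⁻¹, ?_, ?_, ?_⟩
  · rw [hval]
    have := hwp.1
    field_simp
    ring
  · exact (hV _).2 ⟨_, hz'.1⟩
  · intro ht0 ht
    have h3 := sq_inv hd hω h0 hV (m + p + 1) _ hz'.1 ht0 ht
    exact (U_iff hf hz'.1).1 ⟨ht0, hz'.1, h3⟩ hz'.2

end imm

section ext

variable {K : Type u} [Field K] {L : Type w} [Field L] [Algebra K L] (p : ℕ) [hpr : Fact p.Prime]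
  [CharP K p]

/-- The extension is immediate. -/
theorem immediate_of {V : ValuationSubring K} {W : ValuationSubring L} {φ : L →+* K}
    (hφ : ∀ w, algebraMap K L (φ w) = w ^ p) (hφψ : ∀ q, φ (algebraMap K L q) = q ^ p)
    (hW : ∀ w, w ∈ W ↔ φ w ∈ V)
    (h : ∀ g : K, g ≠ 0 → ∃ q t : K, g = q ^ p * (1 + t) ∧ t ∈ V ∧ (t ≠ 0 → t⁻¹ ∉ V)) {w : L}
    (hw : w ≠ 0) : ∃ q : K, W.valuation (w - algebraMap K L q) < W.valuation w := by
  have hφw : φ w ≠ 0 := phi_ne hw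
  obtain ⟨q, t, hg, ht, ht'⟩ := h (φ w) hφw
  refine ⟨q, ?_⟩
  by_contra hcon
  push Not at hcon
  have hq0 : q ≠ 0 := by
    rintro rfl
    rw [zero_pow hpr.out.ne_zero, zero_mul] at hg
    exact hφw hg
  -- the quotient is a unit
  have h1 : φ (w - algebraMap K L q) = q ^ p * t := by
    rw [map_sub, hφψ, hg]
    ring
  have ht1 : (1 + t) ≠ 0 := by
    intro h2
    rw [h2, mul_zero] at hg
    exact hφw hg
  have hwv : W.valuation w ≠ 0 := (Valuation.ne_zero_iff _).2 hw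
  have h2 : W.valuation (w / (w - algebraMap K L q)) ≤ 1 := by
    rw [map_div₀]
    exact div_le_one_of_le₀ hcon zero_le
  have h3 : w / (w - algebraMap K L q) ∈ W := (W.valuation_le_one_iff _).1 h2
  rw [hW, map_div₀, h1, hg, mul_div_mul_left _ _ (pow_ne_zero _ hq0)] at h3
  by_cases ht0 : t = 0
  · -- then `w = q`
    rw [ht0, mul_zero] at h1
    have h4 : w - algebraMap K L q = 0 := by
      by_contra h5
      exact phi_ne h5 h1
    rw [h4, map_zero] at hcon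
    exact hwv (le_zero_iff.1 hcon)
  · refine ht' ht0 ?_
    have h4 : t⁻¹ = (1 + t) / t - 1 := by
      field_simp
      ring
    rw [h4]
    exact V.toSubring.sub_mem h3 V.toSubring.one_mem

end ext

end Pool.Agent.KS6_77.ID
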