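import Pool.Agent.KS6_77.ID.CGs

/-!
# The initial functions
-/

set_option autoImplicit false
set_option linter.unusedVariables false
set_option linter.unusedSectionVars false

universe u v w

namespace Pool.Agent.KS6_77.ID

open MvPolynomial IsLocalRing Pool.Agent.Q40.RP Pool.Agent.W418.LU2 Pool.Agent.TH188.QS
  Pool.Agent.KS6_77.IC Function

section ini

variable {K : Type u} [Field K] {n r : ℕ}

/-- Nonvanishing minors. -/
theorem exists_minor {A : Fin n → Fin r → K}
    (h : LinearIndependent K (fun b => fun i => A i b)) : ∃ I : Fin r → Fin n, mi A I ≠ 0 := by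
  classical
  let M : Matrix (Fin r) (Fin n) K := Matrix.of fun b i => A i b
  have h1 : M.rank = r := by
    have h2 : LinearIndependent K M.row := h
    have := LinearIndependent.rank_matrix h2
    rwa [Fintype.card_fin] at this
  have h2 : Module.finrank K (Submodule.span K (Set.range A)) = r := by
    refine Eq.trans ?_ h1
    rw [← Matrix.rank_transpose, Matrix.rank_eq_finrank_span_row]
    rfl
  obtain ⟨v, hv1, hv2, hv3⟩ := Submodule.exists_fun_fin_finrank_span_eq K (Set.range A)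
  choose I hI using hv1
  let e : Fin r ≃ Fin (Module.finrank K (Submodule.span K (Set.range A))) := finCongr h2.symm
  have h3 : LinearIndependent K (fun a => A (I (e a))) := by
    have h4 : (fun a => A (I (e a))) = v ∘ e := funext fun a => hI _
    rw [h4]
    exact hv3.comp e e.injective
  refine ⟨fun a => I (e a), ?_⟩
  have h4 := (Matrix.linearIndependent_rows_iff_isUnit
    (A := Matrix.of fun a => A (I (e a)))).1 h3
  exact ((Matrix.isUnit_iff_isUnit_det _).1 h4).ne_zero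

lemma mi_mem {Q : Subring K} {A : Fin n → Fin r → K} (h : ∀ i b, A i b ∈ Q) (I : Fin r → Fin n) :
    mi A I ∈ Q := by
  let M : Matrix (Fin r) (Fin r) Q := Matrix.of fun a b => ⟨A (I a) b, h _ _⟩
  have h1 : mi A I = (M.det : K) := by
    have h2 : (M.det : K) = (M.map (Subring.subtype Q)).det :=
      RingHom.map_det (Subring.subtype Q) M
    rw [h2]
    rfl
  rw [h1]
  exact M.det.2

variable (p : ℕ) [hpr : Fact p.Prime] [CharP K p]

/-- Functions whose differentials generate the differentials of the functions of a field. -/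
theorem exists_fam {Q : Subring K} {x : Fin n → K} (hs : Sp p x) {D : Fin n → Derivation ℤ K K}
    (hD : Dv Q x D) (hfr : ∀ z : K, ∃ a b : Q, b ≠ 0 ∧ z = a / b) {F : Subfield K}
    (hF : ∀ q : K, q ^ p ∈ F) :
    ∃ (r : ℕ) (f : Fin r → K), (∀ b, f b ∈ F) ∧ (∀ b, f b ∈ Q) ∧
      (∀ g ∈ F, ∃ lam : Fin r → K, ∀ D' : Derivation ℤ K K, D' g = ∑ b, lam b * D' (f b)) ∧
      ∃ I, mi (fun i b => D i (f b)) I ≠ 0 := by
  classical
  obtain ⟨v, hv1, hv2, hv3⟩ := Submodule.exists_fun_fin_finrank_span_eq K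
    ((fun g : K => fun i => D i g) '' (F : Set K))
  choose g hgF hg using hv1
  choose a b hb hab using fun t => hfr (g t)
  have hb' : ∀ t, (b t : K) ≠ 0 := fun t h => hb t (Subtype.ext h)
  have hbp : ∀ t, (b t : K) ^ p ≠ 0 := fun t => pow_ne_zero _ (hb' t)
  refine ⟨_, fun t => (b t : K) ^ p * g t, fun t => F.mul_mem (hF _) (hgF t), fun t => ?_, ?_, ?_⟩
  · obtain ⟨m, hm⟩ := Nat.exists_eq_succ_of_ne_zero hpr.out.ne_zero
    have h1 : (b t : K) ^ p * g t = (b t : K) ^ m * a t := by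
      rw [hab t, hm, pow_succ]
      have := hb' t
      field_simp
    change (b t : K) ^ p * g t ∈ Q
    rw [h1]
    exact Q.mul_mem (Q.pow_mem (b t).2 _) (a t).2
  · intro z hz
    have h1 : (fun i => D i z) ∈ Submodule.span K (Set.range v) := by
      rw [hv2]
      exact Submodule.subset_span ⟨z, hz, rfl⟩
    obtain ⟨lam, hlam⟩ := (Submodule.mem_span_range_iff_exists_fun K).1 h1
    refine ⟨fun t => lam t / (b t : K) ^ p, fun D' => ?_⟩
    have h2 : ∀ i, D i z = ∑ t, lam t * D i (g t) := by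
      intro i
      have h3 := congrFun hlam i
      rw [Finset.sum_apply] at h3
      rw [← h3]
      refine Finset.sum_congr rfl fun t _ => ?_
      rw [Pi.smul_apply, smul_eq_mul, ← hg t]
    have h3 : ∀ t, lam t / (b t : K) ^ p * D' ((b t : K) ^ p * g t) = lam t * D' (g t) := by
      intro t
      rw [der_pow_p_mul p]
      have := hbp t
      field_simp
    rw [Finset.sum_congr rfl fun t _ => h3 t, der_expand p hs hD.dual D' z]
    have h4 : ∀ t, lam t * D' (g t) = ∑ i, lam t * (D' (x i) * D i (g t)) := by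
      intro t
      rw [der_expand p hs hD.dual D' (g t), Finset.mul_sum]
    rw [Finset.sum_congr rfl fun t _ => h4 t, Finset.sum_comm]
    refine Finset.sum_congr rfl fun i _ => ?_
    rw [h2, Finset.mul_sum]
    exact Finset.sum_congr rfl fun t _ => by ring
  · refine exists_minor ?_
    have h1 := hv3.units_smul fun t => Units.mk0 ((b t : K) ^ p) (hbp t)
    have h2 : (fun t => fun i => D i ((b t : K) ^ p * g t)) =
        (fun t => Units.mk0 ((b t : K) ^ p) (hbp t)) • v := by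
      funext t i
      change D i ((b t : K) ^ p * g t) = (b t : K) ^ p * v t i
      rw [der_pow_p_mul p, ← hg t]
    rw [h2]
    exact h1

end ini

section main

variable {K : Type u} [Field K] {L : Type w} [Field L] {n : ℕ} (p : ℕ)
  [hpr : Fact p.Prime] [CharP K p] {O : Subring K} [IsRegularLocalRing O]
  (hfr : ∀ z : K, ∃ a b : O, b ≠ 0 ∧ z = a / b) {x : Fin n → O}
  (hx : Ideal.span (Set.range x) = maximalIdeal O)
  (hdim : ((n : ℕ) : WithBot ℕ∞) ≤ ringKrullDim O)
  {S : Finset O} {piv : (Fin n → O) → Fin n}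
  (hF : FF p O) (hk : ∀ a : ResidueField O, ∃ b : ResidueField O, b ^ p = a)
  (hSp : ∀ a ∈ S, ∃ b : O, b ^ p = a)
  {φ : L →+* K} {ψ : K →+* L} (hφ : ∀ q, φ (ψ q) = q ^ p)
  {ω : ℕ → Fin n → O} (hd : Dat O (residue O) S piv) (hω : ∀ l, IsLt S (ω l))

include hfr hx hdim hF hk hSp hφ hd hω

theorem cov_mainF {a : O} (ha : a ≠ 0)
    (hpat : ∀ N, ∃ q, N ≤ q ∧ ∀ t : Fin n, ω (q + t) = Pi.single t a ∧
      ω (q + n + t) = Pi.single t a)
    (hpat' : ∀ N, ∃ q, N ≤ q ∧ (∀ t : Fin n, ω (q + t) = Pi.single t a) ∧ ∀ i, ω (q + n) i ≠ 0)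
    {V : ValuationSubring K} (hV : ∀ z, z ∈ V ↔ ∃ l, z ∈ (sq piv (st0 x) ω l).1)
    {W : ValuationSubring L} (hW : ∀ w, w ∈ W ↔ φ w ∈ V) {A : Subring L} (hA : A ≤ W.toSubring)
    (hAn : IsNoetherianRing A) (hAfr : ∀ w : L, ∃ a ∈ A, ∃ b ∈ A, b ≠ 0 ∧ w = a / b)
    {T0 T1 : Set L} (hT0 : T0.Finite) (hT1 : T1.Finite) (hT0W : ∀ t ∈ T0, t ∈ W)
    (hT1W : ∀ t ∈ T1, t ∈ W)
    (hbase : lo W.toSubring (Subring.closure ((A : Set L) ∪ T0)) =
      lo W.toSubring (Subring.closure (((O.map ψ : Subring L) : Set L) ∪ T1))) :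
    LogUnif W A := by
  classical
  have h0 := gd_base (K := K) hx hdim
  obtain ⟨hSp0, hLi0, D0, hD0⟩ := base_dv p hfr hx hdim hF hk
  have hS : ∀ a ∈ S, ∀ D : Derivation ℤ K K, D (a : K) = 0 := by
    intro a ha D
    obtain ⟨b, rfl⟩ := hSp a ha
    push_cast
    exact der_pow_p p D _
  have hFp : ∀ q : K, q ^ p ∈ φ.fieldRange := fun q => ⟨ψ q, hφ q⟩
  obtain ⟨r, f, hfF, hfO, hspan, I0, hI0⟩ := exists_fam p hSp0 hD0 hfr hFp
  -- the initial order
  have hres0 : ∃ μ, ResF (sq piv (st0 x) ω 0) (mi (aq piv (st0 x) ω D0 f 0)) μ := by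
    have haq : aq piv (st0 x) ω D0 f 0 = fun i b => D0 i (f b) := by
      funext i b
      change Cf (st0 (K := K) x).2 D0 ∅ (f b) i = _
      unfold Cf
      rw [if_neg (Finset.notMem_empty i)]
    rw [haq]
    have hmem : ∀ I, mi (fun i b => D0 i (f b)) I ∈ O :=
      mi_mem fun i b => hD0.stab i _ (hfO b)
    obtain ⟨μ, hμ⟩ := exists_inp (K := K) hx hdim (b := ⟨_, hmem I0⟩)
      fun h => hI0 (congrArg Subtype.val h)
    refine ⟨μ, 1, Mo.one, fun I => ?_, I0, ?_⟩
    · rw [div_one]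
      exact hmem I
    · rw [div_one]
      exact hμ
  obtain ⟨μ, hμ⟩ := hres0
  obtain ⟨l1, -, hl1⟩ := exists_resF_zero hd hω h0 ha hpat μ 0 hμ
  -- the valuation ring
  obtain ⟨V', hV', hmo, -, -, -⟩ := det (K := K) hfr hx hdim hd hω ha (fun N => by
    obtain ⟨q, hq, h⟩ := hpat N
    exact ⟨q, hq, fun t => (h t).1⟩)
  have hreg : RegP V.toSubring (st0 (K := K) x).1 (st0 (K := K) x).2 := by
    refine ⟨sq_le hd hω h0 hV 0, fun i => (h0.nu i).2.1, fun i => (x i).2, inferInstance,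
      sq_inv hd hω h0 hV 0, ?_⟩
    have hind : Ind x := ind_of_span hx (by rwa [Fintype.card_fin])
    exact IndN.of_ind id Function.injective_id (fun i _ => ⟨i, rfl⟩) hind
  have hcg : ∀ N, ∃ m, N ≤ m ∧ ∃ j y Y, CGF φ ψ p piv (st0 x) ω W m j y Y := by
    intro N
    obtain ⟨q, hq, hcyc, hall⟩ := hpat' (max N l1)
    have h1 := resF_mono hd hω h0 (l' := q + n) (by omega) hl1
    refine ⟨q + n, by omega, ?_⟩
    exact cgF_of p hd hω h0 hV hφ hW hk hreg hfr hD0 hS hF hfF hspan hall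
      (fun i => (eq_toric hd ha hcyc n le_rfl).2 i i.2) h1
  have := hAn
  exact (cov_gpF p hd hω h0 hV hφ hW hreg hmo (s0 := st0 x) hcg hA hAfr hT0 hT1 hT0W hT1W
    hbase).logUnif hA

end main

end Pool.Agent.KS6_77.ID
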