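import Pool.Agent.KS6_77.IC.Ext

/-!
# Minors
-/

set_option autoImplicit false
set_option linter.unusedVariables false
set_option linter.unusedSectionVars false

universe u v

namespace Pool.Agent.KS6_77.ID

open Matrix Function

section mi

variable {K : Type u} [Field K] {n r : ℕ}

/-- The minor of the rows `I`. -/
noncomputable def mi (A : Fin n → Fin r → K) (I : Fin r → Fin n) : K :=
  (Matrix.detRowAlternating : (Fin r → K) [⋀^Fin r]→ₗ[K] K) fun a => A (I a)

lemma cramer_row (M : Fin r → Fin r → K) (v : Fin r → K) :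
    (Matrix.detRowAlternating : (Fin r → K) [⋀^Fin r]→ₗ[K] K) M • v =
      ∑ b, (Matrix.detRowAlternating : (Fin r → K) [⋀^Fin r]→ₗ[K] K) (update M b v) • M b := by
  have h1 := mulVec_cramer (Matrix.of M)ᵀ v
  rw [det_transpose] at h1
  have h2 : (Matrix.of M).det • v =
      (Matrix.detRowAlternating : (Fin r → K) [⋀^Fin r]→ₗ[K] K) M • v := rfl
  rw [← h2, ← h1]
  funext c
  rw [Finset.sum_apply]
  simp only [mulVec, dotProduct, transpose_apply, cramer_transpose_apply, Pi.smul_apply,
    smul_eq_mul]
  refine Finset.sum_congr rfl fun b _ => ?_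
  rw [mul_comm]
  rfl

lemma mi_update (A : Fin n → Fin r → K) (I : Fin r → Fin n) (a : Fin r) (l : Fin n) :
    mi A (update I a l) =
      (Matrix.detRowAlternating : (Fin r → K) [⋀^Fin r]→ₗ[K] K)
        (update (fun a => A (I a)) a (A l)) := by
  unfold mi
  congr 1
  funext a'
  by_cases h : a' = a
  · rw [h, update_self, update_self]
  · rw [update_of_ne h, update_of_ne h]

/-- Cramer's rule. -/
lemma mi_cramer (A : Fin n → Fin r → K) (I : Fin r → Fin n) (l : Fin n) (b : Fin r) :
    mi A I * A l b = ∑ a, mi A (update I a l) * A (I a) b := by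
  have h1 := congrFun (cramer_row (fun a => A (I a)) (A l)) b
  rw [Finset.sum_apply] at h1
  simp only [Pi.smul_apply, smul_eq_mul] at h1
  rw [Finset.sum_congr rfl fun a _ => by rw [mi_update]]
  exact h1

/-- The exchange relation. -/
lemma mi_exchange (A : Fin n → Fin r → K) (I I' : Fin r → Fin n) (a : Fin r) :
    mi A I * mi A I' = ∑ b, mi A (update I a (I' b)) * mi A (update I' b (I a)) := by
  have h1 := cramer_row (fun a => A (I' a)) (A (I a))
  have h2 : mi A I = (Matrix.detRowAlternating : (Fin r → K) [⋀^Fin r]→ₗ[K] K)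
      (update (fun a => A (I a)) a (A (I a))) := by
    rw [← mi_update, update_eq_self]
  rw [h2, mul_comm, ← smul_eq_mul]
  change (Matrix.detRowAlternating : (Fin r → K) [⋀^Fin r]→ₗ[K] K) (fun a => A (I' a)) • _ = _
  rw [← AlternatingMap.map_update_smul, h1, AlternatingMap.map_update_sum]
  refine Finset.sum_congr rfl fun b _ => ?_
  rw [AlternatingMap.map_update_smul, smul_eq_mul, ← mi_update, ← mi_update, mul_comm]

lemma mi_zero (A : Fin n → Fin r → K) {I : Fin r → Fin n} {a b : Fin r} (h : I a = I b)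
    (hab : a ≠ b) : mi A I = 0 := by
  unfold mi
  exact AlternatingMap.map_eq_zero_of_eq _ _ (by rw [h]) hab

lemma mi_inj (A : Fin n → Fin r → K) {I : Fin r → Fin n} (h : mi A I ≠ 0) : Injective I := by
  intro a b hab
  by_contra hne
  exact h (mi_zero A hab hne)

lemma mi_perm (A : Fin n → Fin r → K) (I : Fin r → Fin n) (σ : Equiv.Perm (Fin r)) :
    mi A (I ∘ σ) = mi A I ∨ mi A (I ∘ σ) = - mi A I := by
  have h1 : mi A (I ∘ σ) = Equiv.Perm.sign σ • mi A I := by
    unfold mi
    exact (Matrix.detRowAlternating : (Fin r → K) [⋀^Fin r]→ₗ[K] K).map_perm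
      (fun a => A (I a)) σ
  rcases Int.units_eq_one_or (Equiv.Perm.sign σ) with h | h
  · left
    rw [h1, h, one_smul]
  · right
    rw [h1, h, Units.neg_smul, one_smul]

/-- Weights. -/
lemma mi_weight (A : Fin n → Fin r → K) (w : Fin n → K) (I : Fin r → Fin n) :
    mi (fun l b => w l * A l b) I = (∏ a, w (I a)) * mi A I := by
  unfold mi
  exact MultilinearMap.map_smul_univ
    (Matrix.detRowAlternating : (Fin r → K) [⋀^Fin r]→ₗ[K] K).toMultilinearMap
    (fun a => w (I a)) (fun a => A (I a))

/-- The minors of a linear combination. -/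
lemma mi_comb (A B : Fin n → Fin r → K) (c : Fin n → Fin n → K)
    (h : ∀ l b, B l b = ∑ m, c l m * A m b) (I : Fin r → Fin n) :
    mi B I = ∑ J : Fin r → Fin n, (∏ a, c (I a) (J a)) * mi A J := by
  unfold mi
  have h1 : (fun a => B (I a)) = fun a => ∑ m, c (I a) m • A m := by
    funext a b
    rw [Finset.sum_apply]
    simp only [Pi.smul_apply, smul_eq_mul]
    exact h _ _
  rw [h1]
  have h2 := MultilinearMap.map_sum
    (Matrix.detRowAlternating : (Fin r → K) [⋀^Fin r]→ₗ[K] K).toMultilinearMap
    (fun (a : Fin r) (m : Fin n) => c (I a) m • A m)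
  refine h2.trans (Finset.sum_congr rfl fun J _ => ?_)
  exact MultilinearMap.map_smul_univ
    (Matrix.detRowAlternating : (Fin r → K) [⋀^Fin r]→ₗ[K] K).toMultilinearMap
    (fun a => c (I a) (J a)) (fun a => A (J a))

end mi

end Pool.Agent.KS6_77.ID
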