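import Pool.Agent.KS6_77.ID.Fam

/-!
# The step for families of minors
-/

set_option autoImplicit false
set_option linter.unusedVariables false
set_option linter.unusedSectionVars false

universe u v

namespace Pool.Agent.KS6_77.ID

open MvPolynomial IsLocalRing Pool.Agent.Q40.RP Pool.Agent.KS6_77.IC

section step

variable {K : Type u} [Field K] {k : Type v} [Field k] {n r : ℕ}
  {O : Subring K} {ρ0 : O →+* k} {S : Finset O} {piv : (Fin n → O) → Fin n}

lemma prod_wt (y : K) (E : Finset (Fin n)) (I : Fin r → Fin n) :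
    ∏ a, (if I a ∈ E then 1 else y) = y ^ wt E I := by
  unfold wt
  rw [← Finset.prod_pow_eq_pow_sum]
  refine Finset.prod_congr rfl fun a _ => ?_
  split_ifs
  · rw [pow_zero]
  · rw [pow_one]

/-- The order of the family of the minors does not increase. -/
theorem resF_step (hd : Dat O ρ0 S piv) {c : Fin n → O} (hc : IsLt S c) {s : Sta K n}
    (hs : Gd O ρ0 s) {A : Fin n → Fin r → K} {μ : ℕ} (h : ResF s (mi A) μ) (E : Finset (Fin n)) :
    ResF (nx piv s c) (mi fun l b => (if l ∈ E then 1 else s.2 (piv c)) * A l b) μ := by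
  classical
  obtain ⟨h0, hm, hC, I1, hI1⟩ := h
  have hh0 : h0 ≠ 0 := Pool.Agent.KS6_77.IC.Mo.ne hs hm
  have hxj := (hs.nu (piv c)).2.1
  obtain ⟨hO, ρ, hfr, hρ⟩ := id hs
  have hexμ : ∃ m, ∃ I, ¬ Inp s.1 s.2 (m + 1) (mi A I / h0) := ⟨μ, I1, hI1⟩
  obtain ⟨μ0, hμ0, hμA, hμle⟩ : ∃ μ0, (∀ I, Inp s.1 s.2 μ0 (mi A I / h0)) ∧
      (∃ I, ¬ Inp s.1 s.2 (μ0 + 1) (mi A I / h0)) ∧ μ0 ≤ μ := by
    refine ⟨Nat.find hexμ, fun I => ?_, Nat.find_spec hexμ, Nat.find_min' hexμ ⟨I1, hI1⟩⟩
    by_cases h1 : Nat.find hexμ = 0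
    · rw [h1]
      exact Inp.zero (hC I)
    · by_contra hcon
      refine Nat.find_min hexμ (m := Nat.find hexμ - 1) (by omega) ⟨I, ?_⟩
      rwa [show Nat.find hexμ - 1 + 1 = Nat.find hexμ by omega]
  have hexN : ∃ N, ∃ I, ¬ Inp s.1 s.2 (N + 1 - wt E I) (mi A I / h0) :=
    ⟨μ + wt E I1, I1, by rwa [show μ + wt E I1 + 1 - wt E I1 = μ + 1 by omega]⟩
  obtain ⟨N, hN, hNB⟩ : ∃ N, (∀ I, Inp s.1 s.2 (N - wt E I) (mi A I / h0)) ∧
      (∃ I, ¬ Inp s.1 s.2 (N + 1 - wt E I) (mi A I / h0)) := by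
    refine ⟨Nat.find hexN, fun I => ?_, Nat.find_spec hexN⟩
    by_cases h1 : Nat.find hexN = 0
    · rw [h1, Nat.zero_sub]
      exact Inp.zero (hC I)
    · by_contra hcon
      refine Nat.find_min hexN (m := Nat.find hexN - 1) (by omega) ⟨I, ?_⟩
      rwa [show Nat.find hexN - 1 + 1 - wt E I = Nat.find hexN - wt E I by omega]
  obtain ⟨J, hJ1, hJ2⟩ := common hfr A hh0 E hμ0 hN hμA hNB
  have hdiv : ∀ (m : ℕ) (f : K), Inp s.1 s.2 m f → f / s.2 (piv c) ^ m ∈ (nx piv s c).1 := by
    intro m f hf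
    obtain ⟨a, ha, ha', hac, hb⟩ := hd.step hc hO hfr hρ
    exact hfr.div ha hb hf
  have hval : ∀ I, mi (fun l b => (if l ∈ E then 1 else s.2 (piv c)) * A l b) I =
      s.2 (piv c) ^ wt E I * mi A I := by
    intro I
    rw [mi_weight A (fun l => if l ∈ E then 1 else s.2 (piv c)), prod_wt]
  have hlow : ∀ I, wt E I ≤ N → mi (fun l b => (if l ∈ E then 1 else s.2 (piv c)) * A l b) I /
      (h0 * s.2 (piv c) ^ N) = mi A I / h0 / s.2 (piv c) ^ (N - wt E I) := by
    intro I hI
    obtain ⟨m, rfl⟩ := Nat.exists_eq_add_of_le hI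
    rw [hval, Nat.add_sub_cancel_left, pow_add]
    field_simp
  refine ⟨h0 * s.2 (piv c) ^ N, (hs.mo hd hc hm).mul ((hs.mo hd hc (Mo.self _ _ _)).pow N),
    fun I => ?_, J, ?_⟩
  · by_cases hI : wt E I ≤ N
    · rw [hlow I hI]
      exact hdiv _ _ (hN I)
    · obtain ⟨m, hm⟩ := Nat.exists_eq_add_of_le (not_le.1 hI).le
      have h1 : mi (fun l b => (if l ∈ E then 1 else s.2 (piv c)) * A l b) I /
          (h0 * s.2 (piv c) ^ N) = s.2 (piv c) ^ m * (mi A I / h0) := by
        rw [hval, hm, pow_add]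
        field_simp
      rw [h1]
      have hle : s.1 ≤ (nx piv s c).1 := le_nr _ _
      exact Subring.mul_mem _ (hle (s.1.pow_mem (hs.nu _).1 _)) (hle (hC I))
  · have hwN : wt E J ≤ N := by
      by_contra hcon
      apply hJ2
      rw [show N + 1 - wt E J = 0 by omega]
      exact Inp.zero (hC J)
    have hle : N - wt E J ≤ μ0 := by
      by_contra hcon
      exact hJ1 ((hN J).mono (by omega))
    rw [hlow J hwN]
    intro hcon
    refine not_inp_next hd hc hs (hN J) ?_ (hcon.mono (by omega))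
    rwa [show N - wt E J + 1 = N + 1 - wt E J by omega]

end step

section log

variable {K : Type u} [Field K] {k : Type v} [Field k] {n : ℕ}
  {O : Subring K} {ρ0 : O →+* k} {S : Finset O} {piv : (Fin n → O) → Fin n}

/-- The new logarithmic derivatives are combinations of the old ones, and conversely. -/
theorem genU_next (hd : Dat O ρ0 S piv) {c : Fin n → O} (hc : IsLt S c) {s : Sta K n}
    (hs : Gd O ρ0 s) {D : Fin n → Derivation ℤ K K} (E : Finset (Fin n)) :
    (∃ q : Fin n → Fin n → K, (∀ i l, q i l ∈ (nx piv s c).1) ∧ ∀ i f,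
      Cf (nx piv s c).2 (dnx (piv c) s.2 D) (enx (piv c) c E) f i =
        ∑ l, q i l * ((if l ∈ E then 1 else s.2 (piv c)) * Cf s.2 D E f l)) ∧
    (∃ q : Fin n → Fin n → K, (∀ i l, q i l ∈ (nx piv s c).1) ∧ ∀ i f,
      (if i ∈ E then 1 else s.2 (piv c)) * Cf s.2 D E f i =
        ∑ l, q i l * Cf (nx piv s c).2 (dnx (piv c) s.2 D) (enx (piv c) c E) f l) := by
  classical
  have hxj := (hs.nu (piv c)).2.1
  set j := piv c with hj
  have hle : s.1 ≤ (nx piv s c).1 := le_nr _ _
  have hcj : c j ≠ 0 := hd.piv c hc.2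
  have hr : ∀ i, s.2 i / s.2 j ∈ (nx piv s c).1 := fun i => quot_mem hd hc hs i
  have hri : ∀ i, c i ≠ 0 → s.2 j / s.2 i ∈ (nx piv s c).1 := by
    intro i hi
    have h1 := (ratio_U hd hc hs hi).inv
    rw [inv_div] at h1
    exact h1.2.1
  have hE' : ∀ i, i ≠ j → i ∈ enx j c E → i ∈ E ∧ c i = 0 := by
    intro i hi h
    exact (mem_enx.1 h).resolve_left hi
  have hjE : j ∈ enx j c E := mem_enx.2 (Or.inl rfl)
  have hxjj : (nx piv s c).2 j = s.2 j := by
    change (if j = j then s.2 j else _) = _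
    rw [if_pos rfl]
  have hsingle : ∀ (a : Fin n → K) (i : Fin n) (q : K), q * a i = ∑ l, (Pi.single i q : Fin n → K) l
      * a l := by
    intro a i q
    rw [Finset.sum_eq_single i]
    · rw [Pi.single_eq_same]
    · intro l _ hl
      rw [Pi.single_eq_of_ne hl, zero_mul]
    · intro h
      exact absurd (Finset.mem_univ _) h
  have hsm : ∀ (i : Fin n) {q : K}, q ∈ (nx piv s c).1 → ∀ l,
      (Pi.single i q : Fin n → K) l ∈ (nx piv s c).1 := by
    intro i q hq l
    by_cases h : l = i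
    · rw [h, Pi.single_eq_same]; exact hq
    · rw [Pi.single_eq_of_ne h]; exact Subring.zero_mem _
  have hone : (1 : K) ∈ (nx piv s c).1 := Subring.one_mem _
  -- the new coefficients
  have hCj : ∀ f, Cf (nx piv s c).2 (dnx j s.2 D) (enx j c E) f j = ∑ l, s.2 l * D l f := by
    intro f
    unfold Cf
    rw [if_pos hjE, dnx_self, Finset.mul_sum]
    refine Finset.sum_congr rfl fun l _ => ?_
    rw [hxjj]
    field_simp
  have hCi : ∀ f i, i ≠ j → i ∈ enx j c E → Cf (nx piv s c).2 (dnx j s.2 D) (enx j c E) f i =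
      s.2 i * D i f := by
    intro f i hi h
    unfold Cf
    rw [if_pos h, dnx_ne hi]
    have : (nx piv s c).2 i = s.2 i / s.2 j := by
      change (if i = j then s.2 j else s.2 i / s.2 j - (c i : K) / c j) = _
      rw [if_neg hi, (hE' i hi h).2]
      simp
    rw [this]
    field_simp
  have hCi' : ∀ f i, i ≠ j → i ∉ enx j c E → Cf (nx piv s c).2 (dnx j s.2 D) (enx j c E) f i =
      s.2 j * D i f := by
    intro f i hi h
    unfold Cf
    rw [if_neg h, dnx_ne hi]
  -- the old coefficients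
  have hC1 : ∀ f i, i ∈ E → (if i ∈ E then 1 else s.2 j) * Cf s.2 D E f i = s.2 i * D i f := by
    intro f i hi
    unfold Cf
    rw [if_pos hi, if_pos hi, one_mul]
  have hC2 : ∀ f i, i ∉ E → (if i ∈ E then 1 else s.2 j) * Cf s.2 D E f i = s.2 j * D i f := by
    intro f i hi
    unfold Cf
    rw [if_neg hi, if_neg hi]
  constructor
  · have key : ∀ i, ∃ q : Fin n → K, (∀ l, q l ∈ (nx piv s c).1) ∧ ∀ f,
        Cf (nx piv s c).2 (dnx j s.2 D) (enx j c E) f i =
          ∑ l, q l * ((if l ∈ E then 1 else s.2 j) * Cf s.2 D E f l) := by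
      intro i
      by_cases hi : i = j
      · rw [hi]
        refine ⟨fun l => if l ∈ E then 1 else s.2 l / s.2 j, fun l => ?_, fun f => ?_⟩
        · dsimp only
          split_ifs
          · exact Subring.one_mem _
          · exact hr l
        · rw [hCj]
          refine Finset.sum_congr rfl fun l _ => ?_
          change s.2 l * D l f = (if l ∈ E then 1 else s.2 l / s.2 j) *
            ((if l ∈ E then 1 else s.2 j) * Cf s.2 D E f l)
          by_cases hl : l ∈ E
          · rw [hC1 f l hl, if_pos hl, one_mul]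
          · rw [hC2 f l hl, if_neg hl]
            field_simp
      · by_cases h : i ∈ enx j c E
        · refine ⟨Pi.single i 1, hsm i hone, fun f => ?_⟩
          rw [← hsingle (fun l => (if l ∈ E then 1 else s.2 j) * Cf s.2 D E f l), one_mul,
            hCi f i hi h, hC1 f i (hE' i hi h).1]
        · by_cases hiE : i ∈ E
          · have hci : c i ≠ 0 := fun h0 => h (mem_enx.2 (Or.inr ⟨hiE, h0⟩))
            have hxi := (hs.nu i).2.1
            refine ⟨Pi.single i (s.2 j / s.2 i), hsm i (hri i hci), fun f => ?_⟩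
            rw [← hsingle (fun l => (if l ∈ E then 1 else s.2 j) * Cf s.2 D E f l),
              hCi' f i hi h, hC1 f i hiE]
            field_simp
          · refine ⟨Pi.single i 1, hsm i hone, fun f => ?_⟩
            rw [← hsingle (fun l => (if l ∈ E then 1 else s.2 j) * Cf s.2 D E f l), one_mul,
              hCi' f i hi h, hC2 f i hiE]
    choose q hq1 hq2 using key
    exact ⟨q, hq1, hq2⟩
  · -- first, `x i * D i f` is a multiple of the new coefficient
    have hq : ∀ i, ∃ q ∈ (nx piv s c).1, ∀ f, i ≠ j → s.2 i * D i f =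
        q * Cf (nx piv s c).2 (dnx j s.2 D) (enx j c E) f i := by
      intro i
      by_cases hi : i = j
      · exact ⟨1, Subring.one_mem _, fun f h => absurd hi h⟩
      · by_cases h : i ∈ enx j c E
        · exact ⟨1, Subring.one_mem _, fun f _ => by rw [hCi f i hi h, one_mul]⟩
        · refine ⟨s.2 i / s.2 j, hr i, fun f _ => ?_⟩
          rw [hCi' f i hi h]
          field_simp
    choose q hqm hq using hq
    have key : ∀ i, ∃ q : Fin n → K, (∀ l, q l ∈ (nx piv s c).1) ∧ ∀ f,
        (if i ∈ E then 1 else s.2 j) * Cf s.2 D E f i =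
          ∑ l, q l * Cf (nx piv s c).2 (dnx j s.2 D) (enx j c E) f l := by
      intro i
      by_cases hi : i = j
      · rw [hi]
        refine ⟨fun l => if l = j then 1 else -q l, fun l => ?_, fun f => ?_⟩
        · dsimp only
          split_ifs
          · exact Subring.one_mem _
          · exact Subring.neg_mem _ (hqm l)
        · have h1 : (if j ∈ E then 1 else s.2 j) * Cf s.2 D E f j = s.2 j * D j f := by
            by_cases h : j ∈ E
            · exact hC1 f j h
            · exact hC2 f j h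
          rw [h1, ← Finset.add_sum_erase _ _ (Finset.mem_univ j)]
          dsimp only
          rw [if_pos rfl, one_mul, hCj, ← Finset.add_sum_erase _ _ (Finset.mem_univ j)]
          have h2 : ∑ l ∈ Finset.univ.erase j, (if l = j then 1 else -q l) *
              Cf (nx piv s c).2 (dnx j s.2 D) (enx j c E) f l =
              - ∑ l ∈ Finset.univ.erase j, s.2 l * D l f := by
            rw [← Finset.sum_neg_distrib]
            refine Finset.sum_congr rfl fun l hl => ?_
            have hl' := Finset.ne_of_mem_erase hl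
            rw [if_neg hl', hq l f hl']
            ring
          rw [h2]
          ring
      · by_cases hiE : i ∈ E
        · refine ⟨Pi.single i (q i), hsm i (hqm i), fun f => ?_⟩
          rw [← hsingle (Cf (nx piv s c).2 (dnx j s.2 D) (enx j c E) f), hC1 f i hiE, hq i f hi]
        · have h : i ∉ enx j c E := fun h => hiE (hE' i hi h).1
          refine ⟨Pi.single i 1, hsm i hone, fun f => ?_⟩
          rw [← hsingle (Cf (nx piv s c).2 (dnx j s.2 D) (enx j c E) f), hC2 f i hiE, one_mul,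
            hCi' f i hi h]
    choose q' hq1 hq2 using key
    exact ⟨q', hq1, hq2⟩

end log

section seq

variable {K : Type u} [Field K] {k : Type v} [Field k] {n r : ℕ}
  {O : Subring K} {ρ0 : O →+* k} {S : Finset O} {piv : (Fin n → O) → Fin n}

/-- The matrix of the logarithmic derivatives. -/
noncomputable def aq (piv : (Fin n → O) → Fin n) (s : Sta K n) (ω : ℕ → Fin n → O)
    (D : Fin n → Derivation ℤ K K) (f : Fin r → K) (l : ℕ) (i : Fin n) (b : Fin r) : K :=
  Cf (sq piv s ω l).2 (dq piv s ω D l) (eq piv ω l) (f b) i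

variable {ω : ℕ → Fin n → O} {s0 : Sta K n} {D0 : Fin n → Derivation ℤ K K}
  (hd : Dat O ρ0 S piv) (hω : ∀ l, IsLt S (ω l)) (h0 : Gd O ρ0 s0)

include hd hω h0

/-- The old and the new minors. -/
lemma gen_aq (f : Fin r → K) (l : ℕ) :
    GenF (sq piv s0 ω (l + 1)).1 (mi fun i b => (if i ∈ eq piv ω l then 1 else
      (sq piv s0 ω l).2 (piv (ω l))) * aq piv s0 ω D0 f l i b) (mi (aq piv s0 ω D0 f (l + 1))) ∧
    GenF (sq piv s0 ω (l + 1)).1 (mi (aq piv s0 ω D0 f (l + 1)))
      (mi fun i b => (if i ∈ eq piv ω l then 1 else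
        (sq piv s0 ω l).2 (piv (ω l))) * aq piv s0 ω D0 f l i b) := by
  obtain ⟨⟨q, hq1, hq2⟩, ⟨q', hq1', hq2'⟩⟩ := genU_next hd (hω l) (sq_gd hd hω h0 l)
    (D := dq piv s0 ω D0 l) (eq piv ω l)
  exact ⟨mi_genF ⟨q, hq1, fun i b => hq2 i (f b)⟩, mi_genF ⟨q', hq1', fun i b => hq2' i (f b)⟩⟩

/-- The order does not increase. -/
theorem resF_next {f : Fin r → K} {l μ : ℕ}
    (h : ResF (sq piv s0 ω l) (mi (aq piv s0 ω D0 f l)) μ) :
    ResF (sq piv s0 ω (l + 1)) (mi (aq piv s0 ω D0 f (l + 1))) μ := by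
  have hg := sq_gd hd hω h0 l
  have h1 := resF_step hd (hω l) hg h (eq piv ω l)
  obtain ⟨h2, h3⟩ := gen_aq hd hω h0 (D0 := D0) f l
  exact h1.gen h2 h3

theorem resF_mono {f : Fin r → K} {l l' μ : ℕ} (hl : l ≤ l')
    (h : ResF (sq piv s0 ω l) (mi (aq piv s0 ω D0 f l)) μ) :
    ResF (sq piv s0 ω l') (mi (aq piv s0 ω D0 f l')) μ := by
  induction l', hl using Nat.le_induction with
  | base => exact h
  | succ l' hl ih => exact resF_next hd hω h0 ih

/-- A toric cycle which starts with all parameters exceptional lowers the order. -/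
theorem resF_drop {a : O} (ha : a ≠ 0) {q : ℕ} (hp : ∀ t : Fin n, ω (q + t) = Pi.single t a)
    (hE : ∀ i, i ∈ eq piv ω q) {f : Fin r → K} {μ : ℕ}
    (h : ResF (sq piv s0 ω q) (mi (aq piv s0 ω D0 f q)) (μ + 1)) :
    ResF (sq piv s0 ω (q + n)) (mi (aq piv s0 ω D0 f (q + n))) μ := by
  classical
  by_contra hcon
  have hgd := sq_gd hd hω h0
  obtain ⟨h1, hm1, hC1, i1, hi1⟩ := id h
  have hh1 := Pool.Agent.KS6_77.IC.Mo.ne (hgd q) hm1
  set C := mi (aq piv s0 ω D0 f q) with hC
  have hgen : ∀ t, t ≤ n → GenF (sq piv s0 ω (q + t)).1 (mi (aq piv s0 ω D0 f (q + t))) C ∧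
      GenF (sq piv s0 ω (q + t)).1 C (mi (aq piv s0 ω D0 f (q + t))) := by
    intro t ht
    induction t with
    | zero => exact ⟨GenF.refl _, GenF.refl _⟩
    | succ t ih =>
      obtain ⟨h2, h3⟩ := ih (by omega)
      obtain ⟨h4, h5⟩ := gen_aq hd hω h0 (D0 := D0) f (q + t)
      have h6 : (fun i b => (if i ∈ eq piv ω (q + t) then 1 else
          (sq piv s0 ω (q + t)).2 (piv (ω (q + t)))) * aq piv s0 ω D0 f (q + t) i b) =
          aq piv s0 ω D0 f (q + t) := by
        funext i b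
        rw [if_pos ((eq_toric hd ha hp t (by omega)).1 i (hE i)), one_mul]
      rw [h6] at h4 h5
      have hle : (sq piv s0 ω (q + t)).1 ≤ (sq piv s0 ω (q + (t + 1))).1 :=
        sq_mono (piv := piv) (s0 := s0) (ω := ω) (by omega)
      exact ⟨GenF.trans h5 (h2.mono hle), GenF.trans (h3.mono hle) h4⟩
  let M : ℕ → K := fun t => ∏ l ∈ Finset.range t,
    (sq piv s0 ω (q + l)).2 (piv (ω (q + l))) ^ (μ + 1)
  have hMs : ∀ t (g : K), g / M (t + 1) =
      g / M t / (sq piv s0 ω (q + t)).2 (piv (ω (q + t))) ^ (μ + 1) := by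
    intro t g
    simp only [M]
    rw [Finset.prod_range_succ, div_mul_eq_div_div]
  have hMmo : ∀ t, Pool.Agent.Q40.RP.Mo (sq piv s0 ω (q + t)).1 (sq piv s0 ω (q + t)).2
      (h1 * M t) := by
    intro t
    refine (sq_mo hd hω h0 (Nat.le_add_right _ _) hm1).mul (Mo.prod _ fun l hl => Mo.pow ?_ _)
    exact sq_mo hd hω h0 (by have := Finset.mem_range.1 hl; omega) (Mo.self _ _ _)
  have hno : ∀ t, t ≤ n → ¬ ResF (sq piv s0 ω (q + t)) C μ := by
    intro t ht hr
    apply hcon
    obtain ⟨h2, h3⟩ := hgen t ht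
    have h4 : ResF (sq piv s0 ω (q + t)) (mi (aq piv s0 ω D0 f (q + t))) μ := hr.gen h3 h2
    exact resF_mono hd hω h0 (by omega) h4
  have hall : ∀ t, t ≤ n → (∀ i, C i / h1 / M t ∈ (sq piv s0 ω (q + t)).1) →
      ∀ i, Inp (sq piv s0 ω (q + t)).1 (sq piv s0 ω (q + t)).2 (μ + 1) (C i / h1 / M t) := by
    intro t ht hi i
    by_contra h2
    refine hno t ht ⟨h1 * M t, hMmo t, fun l => ?_, i, ?_⟩
    · rw [div_mul_eq_div_div]
      exact hi l
    · rw [div_mul_eq_div_div]
      exact h2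
  have hmem : ∀ t, t ≤ n → ∀ i, C i / h1 / M t ∈ (sq piv s0 ω (q + t)).1 := by
    intro t ht
    induction t with
    | zero =>
      intro i
      have hM : M 0 = 1 := by simp [M]
      rw [hM, div_one]
      exact hC1 i
    | succ t ih =>
      intro i
      have h2 := hall t (by omega) (ih (by omega)) i
      rw [hMs]
      obtain ⟨hO, ρ, hfr, hρ⟩ := hgd (q + t)
      obtain ⟨b, hb0, hb', hbc, hb⟩ := hd.step (hω (q + t)) hO hfr hρ
      exact hfr.div hb0 hb h2
  obtain ⟨hO, ρ, hfr, hρ⟩ := hgd q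
  obtain ⟨F, hF, hFe⟩ := hall 0 (Nat.zero_le _) (hmem 0 (Nat.zero_le _)) i1
  have hch := chain (s0 := s0) (m := μ + 1) hd ha hp (z := fun t => C i1 / h1 / M t) (fun t => by
      have h2 := hMs t (C i1 / h1)
      rw [hp t, hd.piv_single ha] at h2
      exact h2)
    (fun t ht => hall t ht (hmem t ht) i1) n 0 (by omega) ρ hfr F hF hFe
  apply hi1
  have hM : M 0 = 1 := by simp [M]
  rw [hM, div_one] at hFe
  rw [← hFe]
  refine hfr.inp_succ hF fun γ hγ => ?_
  by_contra hne
  have h2 := hch γ hγ (fun i hi => absurd hi (Nat.not_lt_zero _)) hne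
  rw [h2, map_zero] at hγ
  omega

/-- The form becomes a monomial times a nonvanishing logarithmic form. -/
theorem exists_resF_zero {a : O} (ha : a ≠ 0)
    (hpat : ∀ N, ∃ q, N ≤ q ∧ ∀ t : Fin n, ω (q + t) = Pi.single t a ∧
      ω (q + n + t) = Pi.single t a) {f : Fin r → K} (μ : ℕ) : ∀ l,
    ResF (sq piv s0 ω l) (mi (aq piv s0 ω D0 f l)) μ → ∃ l', l ≤ l' ∧
      ResF (sq piv s0 ω l') (mi (aq piv s0 ω D0 f l')) 0 := by
  induction μ with
  | zero => exact fun l h => ⟨l, le_rfl, h⟩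
  | succ μ ih =>
    intro l h
    obtain ⟨q, hq, hp⟩ := hpat l
    have h1 := resF_mono hd hω h0 (l' := q + n) (by omega) h
    have h2 := resF_drop hd hω h0 ha (q := q + n) (fun t => (hp t).2) (fun i =>
      (eq_toric hd ha (fun t => (hp t).1) n le_rfl).2 i i.2) h1
    obtain ⟨l', hl', h3⟩ := ih _ h2
    exact ⟨l', by omega, h3⟩

end seq

end Pool.Agent.KS6_77.ID
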