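import Pool.Agent.KS6_77.ID.Zb

/-!
# Toric functions in a field of exponent one
-/

set_option autoImplicit false
set_option linter.unusedVariables false
set_option linter.unusedSectionVars false

universe u v

namespace Pool.Agent.KS6_77.ID

open MvPolynomial IsLocalRing Pool.Agent.Q40.RP Pool.Agent.KS6_77.IC Function

section tor

variable {K : Type u} [Field K] {k : Type v} [Field k] {n r : ℕ} (p : ℕ) [hpr : Fact p.Prime]
  [CharP K p] {Q : Subring K} {ρ : Q →+* k} {x : Fin n → K}
  {D : Fin n → Derivation ℤ K K} {f : Fin r → K}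

/-- The logarithmic derivatives. -/
def la (x : Fin n → K) (D : Fin n → Derivation ℤ K K) (f : Fin r → K) (i : Fin n) (b : Fin r) :
    K := x i * D i (f b)

/-- The derivations which kill the functions. -/
noncomputable def del (x : Fin n → K) (D : Fin n → Derivation ℤ K K) (f : Fin r → K)
    (I : Fin r → Fin n) (l : Fin n) : Derivation ℤ K K :=
  x l • D l - ∑ a, (mi (la x D f) (update I a l) / mi (la x D f) I) • (x (I a) • D (I a))

lemma sum_smul_der' {ι : Type} (s : Finset ι) (c : ι → K) (E : ι → Derivation ℤ K K) (g : K) :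
    (∑ l ∈ s, c l • E l) g = ∑ l ∈ s, c l * E l g := by
  classical
  induction s using Finset.induction_on with
  | empty => simp
  | insert a s ha ih =>
    rw [Finset.sum_insert ha, Finset.sum_insert ha, Derivation.add_apply, ih,
      Derivation.smul_apply, smul_eq_mul]

lemma del_apply (I : Fin r → Fin n) (l : Fin n) (g : K) : del x D f I l g = x l * D l g -
    ∑ a, (mi (la x D f) (update I a l) / mi (la x D f) I) * (x (I a) * D (I a) g) := by
  unfold del
  rw [Derivation.sub_apply, Derivation.smul_apply, smul_eq_mul, sum_smul_der']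
  simp only [Derivation.smul_apply, smul_eq_mul]

lemma del_f {I : Fin r → Fin n} (hI : mi (la x D f) I ≠ 0) (l : Fin n) (b : Fin r) :
    del x D f I l (f b) = 0 := by
  rw [del_apply]
  have h1 := mi_cramer (la x D f) I l b
  have h2 : ∑ a, mi (la x D f) (update I a l) / mi (la x D f) I * (x (I a) * D (I a) (f b)) =
      x l * D l (f b) := by
    have h3 : ∑ a, mi (la x D f) (update I a l) / mi (la x D f) I * (x (I a) * D (I a) (f b)) =
        (∑ a, mi (la x D f) (update I a l) * la x D f (I a) b) / mi (la x D f) I := by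
      rw [Finset.sum_div]
      refine Finset.sum_congr rfl fun a _ => ?_
      unfold la
      ring
    rw [h3, ← h1]
    unfold la at hI ⊢
    field_simp
  rw [h2, sub_self]

lemma del_F {F : Subfield K}
    (hspan : ∀ g ∈ F, ∃ lam : Fin r → K, ∀ D' : Derivation ℤ K K, D' g = ∑ b, lam b * D' (f b))
    {I : Fin r → Fin n} (hI : mi (la x D f) I ≠ 0) (l : Fin n) {g : K} (hg : g ∈ F) :
    del x D f I l g = 0 := by
  obtain ⟨lam, h⟩ := hspan g hg
  rw [h]
  refine Finset.sum_eq_zero fun b _ => ?_
  rw [del_f hI, mul_zero]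

lemma del_x (hD : ∀ i j, D i (x j) = if i = j then 1 else 0) {I : Fin r → Fin n} {l : Fin n}
    {i : Fin n} (hi : i ∉ Set.range I) : del x D f I l (x i) = if l = i then x i else 0 := by
  rw [del_apply, hD]
  have h1 : ∑ a, mi (la x D f) (update I a l) / mi (la x D f) I * (x (I a) * D (I a) (x i)) = 0 := by
    refine Finset.sum_eq_zero fun a _ => ?_
    rw [hD, if_neg (fun h => hi ⟨a, h⟩), mul_zero, mul_zero]
  rw [h1, sub_zero]
  by_cases h : l = i
  · rw [if_pos h, if_pos h, h, mul_one]
  · rw [if_neg h, if_neg h, mul_zero]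

lemma del_x' (hD : ∀ i j, D i (x j) = if i = j then 1 else 0) {I : Fin r → Fin n}
    (hI : mi (la x D f) I ≠ 0) {l : Fin n} (hl : l ∉ Set.range I) (a : Fin r) :
    del x D f I l (x (I a)) = -(mi (la x D f) (update I a l) / mi (la x D f) I) * x (I a) := by
  have hinj := mi_inj _ hI
  rw [del_apply, hD, if_neg (fun h => hl ⟨a, h.symm⟩), mul_zero, zero_sub]
  rw [Finset.sum_eq_single a]
  · rw [hD, if_pos rfl]
    ring
  · intro b _ hb
    rw [hD, if_neg (fun h => hb (hinj h)), mul_zero, mul_zero]
  · intro h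
    exact absurd (Finset.mem_univ _) h

lemma mem_ker (h : Fra Q ρ x) {q : K} (hq : q ∈ Q) (i : Fin n) :
    ∃ h' : x i * q ∈ Q, ρ ⟨x i * q, h'⟩ = 0 := by
  refine ⟨Q.mul_mem (h.mem i) hq, ?_⟩
  have h1 : (⟨x i * q, Q.mul_mem (h.mem i) hq⟩ : Q) = ⟨x i, h.mem i⟩ * ⟨q, hq⟩ := rfl
  rw [h1, map_mul, h.rho_x, zero_mul]

/-- The derivations map the ring to the maximal ideal. -/
lemma del_mem (h : Fra Q ρ x) (hD : Dv Q x D) {I : Fin r → Fin n}
    (hdiv : ∀ J, mi (la x D f) J / mi (la x D f) I ∈ Q) (l : Fin n) {q : K} (hq : q ∈ Q) :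
    ∃ h' : del x D f I l q ∈ Q, ρ ⟨del x D f I l q, h'⟩ = 0 := by
  have h1 : ∀ i, ∃ h' : x i * D i q ∈ Q, ρ ⟨x i * D i q, h'⟩ = 0 := fun i =>
    mem_ker h (hD.stab i q hq) i
  choose h1 h2 using h1
  have h3 : del x D f I l q = ((⟨x l * D l q, h1 l⟩ -
      ∑ a, ⟨_, hdiv (update I a l)⟩ * ⟨x (I a) * D (I a) q, h1 (I a)⟩ : Q) : K) := by
    rw [del_apply]
    push_cast
    rfl
  have h4 : del x D f I l q ∈ Q := by rw [h3]; exact Subtype.mem _
  refine ⟨h4, ?_⟩
  have h5 : (⟨del x D f I l q, h4⟩ : Q) = ⟨x l * D l q, h1 l⟩ -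
      ∑ a, ⟨_, hdiv (update I a l)⟩ * ⟨x (I a) * D (I a) q, h1 (I a)⟩ := Subtype.ext h3
  rw [h5, map_sub, h2, map_sum, Finset.sum_eq_zero, sub_zero]
  intro a _
  rw [map_mul, h2, mul_zero]

/-- The coordinates adapted to the field. -/
noncomputable def zc (x : Fin n → K) (f : Fin r → K) (I : Fin r → Fin n) : Fin n → K :=
  extend I f x

lemma zc_I {I : Fin r → Fin n} (hI : Injective I) (a : Fin r) : zc x f I (I a) = f a :=
  hI.extend_apply _ _ _

lemma zc_of_notMem {I : Fin r → Fin n} {i : Fin n} (hi : i ∉ Set.range I) : zc x f I i = x i :=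
  extend_apply' _ _ _ hi

include hpr in
theorem zc_basis (hne : ∀ i, x i ≠ 0) (hD : ∀ i j, D i (x j) = if i = j then 1 else 0)
    (hs : Sp p x) (hl : Li p x) {I : Fin r → Fin n} (hI : mi (la x D f) I ≠ 0) :
    (∀ i, zc x f I i ≠ 0) ∧ Sp p (zc x f I) ∧ (∀ l, l ∉ Set.range I → ∀ j,
      del x D f I l (zc x f I j) = if l = j then zc x f I j else 0) := by
  classical
  have hinj := mi_inj _ hI
  have hdel : ∀ l, l ∉ Set.range I → ∀ j,
      del x D f I l (zc x f I j) = if l = j then zc x f I j else 0 := by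
    intro l hl j
    by_cases hj : j ∈ Set.range I
    · obtain ⟨a, rfl⟩ := hj
      rw [zc_I hinj, del_f hI, if_neg (fun h => hl ⟨a, h.symm⟩)]
    · rw [zc_of_notMem hj, del_x hD hj]
  have hfne : ∀ a, f a ≠ 0 := by
    intro a h0
    apply hI
    change Matrix.det (Matrix.of fun b => la x D f (I b)) = 0
    refine Matrix.det_eq_zero_of_column_eq_zero a fun i => ?_
    change x (I i) * D (I i) (f a) = 0
    rw [h0, map_zero, mul_zero]
  have hzne : ∀ i, zc x f I i ≠ 0 := by
    intro i
    by_cases hi : i ∈ Set.range I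
    · obtain ⟨a, rfl⟩ := hi
      rw [zc_I hinj]
      exact hfne a
    · rw [zc_of_notMem hi]
      exact hne i
  refine ⟨hzne, ?_, hdel⟩
  -- the Euler derivations of the functions
  let M : Matrix (Fin r) (Fin r) K := Matrix.of fun b => la x D f (I b)
  have hM : IsUnit M.det := isUnit_iff_ne_zero.2 hI
  have hex : ∀ i, ∃ Z : Derivation ℤ K K, ∀ j, Z (zc x f I j) = if i = j then zc x f I j else 0 := by
    intro i
    by_cases hi : i ∈ Set.range I
    · obtain ⟨a, rfl⟩ := hi
      let lam : Fin r → K := Matrix.vecMul (Pi.single a (f a)) M⁻¹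
      have hlam : ∀ b, ∑ a', lam a' * (x (I a') * D (I a') (f b)) =
          (Pi.single a (f a) : Fin r → K) b := by
        intro b
        have h1 : Matrix.vecMul lam M = Pi.single a (f a) := by
          simp only [lam]
          rw [Matrix.vecMul_vecMul, Matrix.nonsing_inv_mul _ hM, Matrix.vecMul_one]
        rw [← h1]
        rfl
      refine ⟨∑ a', lam a' • (x (I a') • D (I a')), fun j => ?_⟩
      rw [sum_smul_der']
      simp only [Derivation.smul_apply, smul_eq_mul]
      by_cases hj : j ∈ Set.range I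
      · obtain ⟨b, rfl⟩ := hj
        rw [zc_I hinj, hlam]
        by_cases hab : a = b
        · rw [hab, Pi.single_eq_same, if_pos rfl]
        · rw [Pi.single_eq_of_ne (Ne.symm hab), if_neg (fun h => hab (hinj h))]
      · rw [zc_of_notMem hj, if_neg (fun h => hj ⟨a, h⟩)]
        refine Finset.sum_eq_zero fun a' _ => ?_
        rw [hD, if_neg (fun h => hj ⟨a', h⟩), mul_zero, mul_zero]
    · exact ⟨_, hdel i hi⟩
  choose Z hZ using hex
  exact sp_of_li p hs hl (li_of_euler p hzne hZ)

/-- The toric functions. -/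
noncomputable def tf (x : Fin n → K) (I : Fin r → Fin n) (q : Fin r → K) (m : Fin r → Fin n → ℕ)
    (a : Fin r) : K :=
  x (I a) * q a * ∏ l ∈ (Finset.univ.image I)ᶜ, x l ^ m a l

theorem exists_toric (h : Fra Q ρ x) (hD : Dv Q x D) (hs : Sp p x) (hl : Li p x) {F : Subfield K}
    (hF : ∀ q : K, q ^ p ∈ F) (hfF : ∀ b, f b ∈ F)
    (hspan : ∀ g ∈ F, ∃ lam : Fin r → K, ∀ D' : Derivation ℤ K K, D' g = ∑ b, lam b * D' (f b))
    {I : Fin r → Fin n} (hI : mi (la x D f) I ≠ 0)
    (hdiv : ∀ J, mi (la x D f) J / mi (la x D f) I ∈ Q) :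
    ∃ (q : Fin r → Q) (m : Fin r → Fin n → ℕ), (∀ a, ρ (q a) = 1) ∧
      (∀ a, tf x I (fun a => (q a : K)) m a ∈ F) ∧
      (∀ a l, l ∉ Set.range I → m a l ≠ 0 →
        U Q (mi (la x D f) (update I a l) / mi (la x D f) I)) ∧
      ∀ E : Derivation ℤ K K, (∀ a, E (tf x I (fun a => (q a : K)) m a) = 0) →
        ∀ g ∈ F, E g = 0 := by
  classical
  have := charP_res p h
  have hp := hpr.out
  have hne := h.ne
  have hinj := mi_inj _ hI
  obtain ⟨hzne, hSz, hZ⟩ := zc_basis p hne hD.dual hs hl hI
  have hmemR : ∀ l, l ∈ (Finset.univ.image I)ᶜ ↔ l ∉ Set.range I := by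
    intro l
    rw [Finset.mem_compl, Finset.mem_image]
    constructor
    · rintro h1 ⟨a, rfl⟩
      exact h1 ⟨a, Finset.mem_univ _, rfl⟩
    · rintro h1 ⟨a, -, rfl⟩
      exact h1 ⟨a, rfl⟩
  -- the action on multiples of a parameter
  let χ : Fin r → Fin n → Q := fun a l => -⟨_, hdiv (update I a l)⟩
  have hmul : ∀ (a : Fin r) (l : Fin n), l ∉ Set.range I → ∀ q : Q, ∃ q' : Q,
      del x D f I l (x (I a) * q) = x (I a) * q' ∧ ρ q' = ρ (χ a l) * ρ q := by
    intro a l hlI q
    obtain ⟨h1, h2⟩ := del_mem h hD hdiv l q.2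
    refine ⟨χ a l * q + ⟨_, h1⟩, ?_, ?_⟩
    · rw [Derivation.leibniz, smul_eq_mul, smul_eq_mul, del_x' hD.dual hI hlI]
      push_cast
      simp only [χ]
      push_cast
      ring
    · rw [map_add, map_mul, h2, add_zero]
  -- the eigenvalues are in the prime field
  have hval : ∀ (a : Fin r) (l : Fin n), l ∉ Set.range I → ∃ t : Fin p,
      ρ (χ a l) = ((t : ℕ) : k) := by
    intro a l hlI
    obtain ⟨c, hc⟩ := hSz (x (I a))
    have hv : ∀ b : Fin n → Fin p, del x D f I l (c b ^ p * xb (zc x f I) b) =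
        ((b l : ℕ) : K) * (c b ^ p * xb (zc x f I) b) := fun b =>
      euler_mon p (hZ l hlI) (c b) fun l => (b l : ℕ)
    have hG : ∀ m : ℕ, ∃ q : Q, x (I a) * q = ∑ b : Fin n → Fin p,
        (∏ t ∈ Finset.range m, (((b l : ℕ) : K) - (t : K))) * (c b ^ p * xb (zc x f I) b) ∧
        ρ q = ∏ t ∈ Finset.range m, (ρ (χ a l) - (t : k)) := by
      intro m
      induction m with
      | zero =>
        refine ⟨1, ?_, by simp⟩
        rw [OneMemClass.coe_one, mul_one]
        nth_rewrite 1 [hc]
        refine Finset.sum_congr rfl fun b _ => ?_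
        simp
      | succ m ih =>
        obtain ⟨q, hq1, hq2⟩ := ih
        obtain ⟨q', hq1', hq2'⟩ := hmul a l hlI q
        refine ⟨q' - (m : Q) * q, ?_, ?_⟩
        · push_cast
          rw [mul_sub, ← hq1', mul_left_comm, hq1, map_sum, Finset.mul_sum,
            ← Finset.sum_sub_distrib]
          refine Finset.sum_congr rfl fun b _ => ?_
          have h1 : del x D f I l (∏ t ∈ Finset.range m, (((b l : ℕ) : K) - (t : K))) = 0 := by
            have h2 : ∏ t ∈ Finset.range m, (((b l : ℕ) : K) - (t : K)) =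
                ((∏ t ∈ Finset.range m, (((b l : ℕ) : ℤ) - (t : ℤ)) : ℤ) : K) := by
              push_cast
              rfl
            rw [h2, Derivation.map_intCast]
          rw [Derivation.leibniz, h1, smul_zero, add_zero, smul_eq_mul, hv, Finset.prod_range_succ]
          ring
        · rw [map_sub, map_mul, map_natCast, hq2', hq2, Finset.prod_range_succ]
          ring
    obtain ⟨q, hq1, hq2⟩ := hG p
    have h1 : ∑ b : Fin n → Fin p, (∏ t ∈ Finset.range p, (((b l : ℕ) : K) - (t : K))) *
        (c b ^ p * xb (zc x f I) b) = 0 := by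
      refine Finset.sum_eq_zero fun b _ => ?_
      rw [Finset.prod_eq_zero (Finset.mem_range.2 (b l).2) (sub_self _), zero_mul]
    rw [h1] at hq1
    have h2 : q = 0 := Subtype.ext ((mul_eq_zero.1 hq1).resolve_left (hne _))
    rw [h2, map_zero] at hq2
    obtain ⟨t, ht, ht'⟩ := Finset.prod_eq_zero_iff.1 hq2.symm
    exact ⟨⟨t, Finset.mem_range.1 ht⟩, sub_eq_zero.1 ht'⟩
  have hval' : ∀ (a : Fin r) (l : Fin n), ∃ t : Fin p, l ∉ Set.range I →
      ρ (χ a l) = ((t : ℕ) : k) := by
    intro a l
    by_cases hlI : l ∈ Set.range I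
    · exact ⟨⟨0, hp.pos⟩, fun h => absurd hlI h⟩
    · obtain ⟨t, ht⟩ := hval a l hlI
      exact ⟨t, fun _ => ht⟩
  choose t ht using hval'
  -- the projections
  have hproj : ∀ a, ∃ (c : (Fin n → Fin p) → K) (q : Q), ρ q = 1 ∧
      x (I a) * q = ∑ b ∈ Finset.univ.filter (fun b : Fin n → Fin p =>
        ∀ l ∈ (Finset.univ.image I)ᶜ, b l = t a l), c b ^ p * xb (zc x f I) b := by
    intro a
    obtain ⟨c, hc⟩ := hSz (x (I a))
    have hv : ∀ l, l ∉ Set.range I → ∀ b : Fin n → Fin p,
        del x D f I l (c b ^ p * xb (zc x f I) b) =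
        ((b l : ℕ) : K) * (c b ^ p * xb (zc x f I) b) := fun l hlI b =>
      euler_mon p (hZ l hlI) (c b) fun l => (b l : ℕ)
    let P : AddSubgroup K :=
      { carrier := {w | ∃ q : Q, ρ q = 0 ∧ w = x (I a) * q}
        add_mem' := by
          rintro _ _ ⟨q, hq, rfl⟩ ⟨q', hq', rfl⟩
          exact ⟨q + q', by rw [map_add, hq, hq', add_zero], by push_cast; ring⟩
        zero_mem' := ⟨0, map_zero _, by simp⟩
        neg_mem' := by
          rintro _ ⟨q, hq, rfl⟩
          exact ⟨-q, by rw [map_neg, hq, neg_zero], by push_cast; ring⟩ }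
    have hPst : ∀ l, l ∉ Set.range I → ∀ g ∈ P, del x D f I l g ∈ P := by
      rintro l hlI _ ⟨q, hq, rfl⟩
      obtain ⟨q', hq1', hq2'⟩ := hmul a l hlI q
      exact ⟨q', by rw [hq2', hq, mul_zero], hq1'⟩
    have key : ∀ s : Finset (Fin n), (∀ l ∈ s, l ∉ Set.range I) →
        x (I a) - ∑ b ∈ Finset.univ.filter (fun b : Fin n → Fin p => ∀ l ∈ s, b l = t a l),
          c b ^ p * xb (zc x f I) b ∈ P := by
      intro s
      induction s using Finset.induction_on with
      | empty =>
        intro _
        rw [Finset.filter_true_of_mem (fun b _ i hi => absurd hi (Finset.notMem_empty i)), ← hc,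
          sub_self]
        exact P.zero_mem
      | insert l s hls ih =>
        intro hsI
        have hlI := hsI l (Finset.mem_insert_self _ _)
        have h1 := ih fun l' hl' => hsI l' (Finset.mem_insert_of_mem hl')
        obtain ⟨w, hw⟩ : ∃ w, w = ∑ b ∈ Finset.univ.filter (fun b : Fin n → Fin p =>
          ∀ l ∈ s, b l = t a l), c b ^ p * xb (zc x f I) b := ⟨_, rfl⟩
        rw [← hw] at h1
        obtain ⟨q, hq0, hq⟩ := h1
        have hw' : w = x (I a) * (1 - q : Q) := by
          push_cast
          linear_combination -hq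
        have h2 : del x D f I l w - ((t a l : ℕ) : K) * w ∈ P := by
          obtain ⟨q', hq1', hq2'⟩ := hmul a l hlI (1 - q)
          refine ⟨q' - ((t a l : ℕ) : Q) * (1 - q), ?_, ?_⟩
          · rw [map_sub, hq2', map_mul, map_natCast, ht a l hlI, sub_self]
          · rw [hw', hq1']
            push_cast
            ring
        have h3 := proj_sub p (del x D f I l) P (hPst l hlI) (Finset.univ.filter
          (fun b : Fin n → Fin p => ∀ l ∈ s, b l = t a l)) (fun b : Fin n → Fin p => b l)
          (fun b => c b ^ p * xb (zc x f I) b) (fun b _ => hv l hlI b) (t a l)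
          (by rw [← hw]; exact h2)
        rw [← hw, Finset.filter_filter] at h3
        have h4 : x (I a) - w ∈ P := ⟨q, hq0, hq⟩
        have h5 := P.add_mem h4 h3
        rw [sub_add_sub_cancel] at h5
        have h6 : Finset.univ.filter (fun b : Fin n → Fin p => ∀ l' ∈ insert l s, b l' = t a l') =
            Finset.univ.filter (fun b : Fin n → Fin p => (∀ l ∈ s, b l = t a l) ∧
              b l = t a l) := by
          ext b
          simp only [Finset.mem_filter, Finset.mem_univ, true_and, Finset.mem_insert,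
            forall_eq_or_imp]
          exact and_comm
        rw [h6]
        exact h5
    obtain ⟨q, hq0, hq⟩ := key (Finset.univ.image I)ᶜ fun l hl => (hmemR l).1 hl
    refine ⟨c, 1 - q, by rw [map_sub, map_one, hq0, sub_zero], ?_⟩
    push_cast
    linear_combination hq
  choose c q hq1 hq using hproj
  let m : Fin r → Fin n → ℕ := fun a l => if (t a l : ℕ) = 0 then 0 else p - t a l
  have htF : ∀ a, tf x I (fun a => (q a : K)) m a ∈ F := by
    intro a
    unfold tf
    dsimp only
    rw [hq a, Finset.sum_mul]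
    refine F.sum_mem fun b hb => ?_
    have hb' := (Finset.mem_filter.1 hb).2
    have h1 : xb (zc x f I) b = (∏ l ∈ Finset.univ.image I, zc x f I l ^ (b l : ℕ)) *
        ∏ l ∈ (Finset.univ.image I)ᶜ, x l ^ (t a l : ℕ) := by
      unfold xb
      rw [← Finset.prod_mul_prod_compl (Finset.univ.image I)]
      congr 1
      refine Finset.prod_congr rfl fun l hl => ?_
      rw [hb' l hl, zc_of_notMem ((hmemR l).1 hl)]
    have h2 : c a b ^ p * xb (zc x f I) b * ∏ l ∈ (Finset.univ.image I)ᶜ, x l ^ m a l =
        c a b ^ p * (∏ l ∈ Finset.univ.image I, zc x f I l ^ (b l : ℕ)) *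
          ∏ l ∈ (Finset.univ.image I)ᶜ, x l ^ ((t a l : ℕ) + m a l) := by
      rw [h1]
      simp only [pow_add, Finset.prod_mul_distrib]
      ring
    rw [h2]
    refine F.mul_mem (F.mul_mem (hF _) (F.prod_mem fun l hl => F.pow_mem ?_ _))
      (F.prod_mem fun l hl => ?_)
    · obtain ⟨a', -, rfl⟩ := Finset.mem_image.1 hl
      rw [zc_I hinj]
      exact hfF a'
    · simp only [m]
      by_cases h0 : (t a l : ℕ) = 0
      · rw [if_pos h0, h0, add_zero, pow_zero]
        exact F.one_mem
      · rw [if_neg h0, Nat.add_sub_of_le (t a l).2.le]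
        exact hF _
  refine ⟨q, m, hq1, htF, ?_, ?_⟩
  · intro a l hlI hm
    have h0 : (t a l : ℕ) ≠ 0 := by
      intro h0
      apply hm
      simp only [m]
      rw [if_pos h0]
    rw [U_iff h (hdiv _)]
    intro h1
    have h2 := ht a l hlI
    have h3 : ρ (χ a l) = 0 := by
      simp only [χ]
      rw [map_neg, h1, neg_zero]
    rw [h3] at h2
    have h4 := (CharP.cast_eq_zero_iff k p (t a l : ℕ)).1 h2.symm
    exact h0 (Nat.eq_zero_of_dvd_of_lt h4 (t a l).2)
  · intro E hE g hg
    let E' : Derivation ℤ K K := E - ∑ l ∈ (Finset.univ.image I)ᶜ, (E (x l) / x l) • del x D f I l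
    have hE' : ∀ w, E' w = E w - ∑ l ∈ (Finset.univ.image I)ᶜ,
        (E (x l) / x l) * del x D f I l w := by
      intro w
      simp only [E']
      rw [Derivation.sub_apply, sum_smul_der']
    have hEF : ∀ w ∈ F, E' w = E w := by
      intro w hw
      rw [hE', Finset.sum_eq_zero, sub_zero]
      intro l _
      rw [del_F hspan hI l hw, mul_zero]
    have hEx : ∀ l, l ∉ Set.range I → E' (x l) = 0 := by
      intro l hlI
      rw [hE', Finset.sum_eq_single l]
      · rw [del_x hD.dual hlI, if_pos rfl, div_mul_cancel₀ _ (hne l), sub_self]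
      · intro l' _ hl'
        rw [del_x hD.dual hlI, if_neg hl', mul_zero]
      · intro h1
        exact absurd ((hmemR l).2 hlI) h1
    have hexp := der_expand p hs hD.dual E'
    have hsumI : ∀ w, E' w = ∑ a, (E' (x (I a)) / x (I a)) * (x (I a) * D (I a) w) := by
      intro w
      rw [hexp w]
      have h1 : ∑ i, E' (x i) * D i w = ∑ i ∈ Finset.univ.image I, E' (x i) * D i w := by
        symm
        refine Finset.sum_subset (Finset.subset_univ _) fun i _ hi => ?_
        rw [hEx i ((hmemR i).1 (Finset.mem_compl.2 hi)), zero_mul]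
      rw [h1, Finset.sum_image fun a _ b _ hab => hinj hab]
      refine Finset.sum_congr rfl fun a _ => ?_
      have := hne (I a)
      field_simp
    -- the equations for the coefficients
    have hsys : ∀ a, (q a : K) * (E' (x (I a)) / x (I a)) +
        ∑ a', (E' (x (I a')) / x (I a')) * (x (I a') * D (I a') (q a)) = 0 := by
      intro a
      have h1 : E' (tf x I (fun a => (q a : K)) m a) = 0 := by
        rw [hEF _ (htF a)]
        exact hE a
      have hprod : ∀ s : Finset (Fin n), (∀ l ∈ s, l ∉ Set.range I) →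
          E' (∏ l ∈ s, x l ^ m a l) = 0 := by
        intro s
        induction s using Finset.induction_on with
        | empty => intro _; simp
        | insert l s hl ih =>
          intro hs
          rw [Finset.prod_insert hl, Derivation.leibniz, Derivation.leibniz_pow,
            hEx l (hs l (Finset.mem_insert_self _ _)),
            ih fun l' hl' => hs l' (Finset.mem_insert_of_mem hl')]
          simp
      unfold tf at h1
      rw [Derivation.leibniz, hprod _ (fun l hl => (hmemR l).1 hl), smul_zero, zero_add,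
        smul_eq_mul] at h1
      have h2 := (mul_eq_zero.1 h1).resolve_left (Finset.prod_ne_zero_iff.2 fun l _ =>
        pow_ne_zero _ (hne l))
      rw [Derivation.leibniz, smul_eq_mul, smul_eq_mul] at h2
      rw [← hsumI]
      have := hne (I a)
      field_simp
      linear_combination h2
    let N : Matrix (Fin r) (Fin r) Q := Matrix.of fun a a' =>
      (if a = a' then q a else 0) + ⟨x (I a') * D (I a') (q a),
        Q.mul_mem (h.mem _) (hD.stab _ _ (q a).2)⟩
    have hN : ρ N.det = 1 := by
      rw [RingHom.map_det]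
      have h1 : ρ.mapMatrix N = 1 := by
        ext a a'
        rw [RingHom.mapMatrix_apply, Matrix.map_apply]
        simp only [N, Matrix.of_apply]
        rw [map_add]
        have h2 := (mem_ker h (hD.stab (I a') _ (q a).2) (I a')).2
        rw [h2, add_zero]
        by_cases haa : a = a'
        · rw [if_pos haa, hq1, haa, Matrix.one_apply_eq]
        · rw [if_neg haa, map_zero, Matrix.one_apply_ne haa]
      rw [h1, Matrix.det_one]
    have hNK : (N.map (Subring.subtype Q)).det ≠ 0 := by
      have h1 : (N.map (Subring.subtype Q)).det = (N.det : K) :=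
        (RingHom.map_det (Subring.subtype Q) N).symm
      rw [h1]
      intro h2
      have h3 : N.det = 0 := Subtype.ext h2
      rw [h3, map_zero] at hN
      exact zero_ne_one hN
    have he : (fun a => E' (x (I a)) / x (I a)) = 0 := by
      refine Matrix.eq_zero_of_mulVec_eq_zero hNK ?_
      funext a
      change ∑ a', ((N a a' : Q) : K) * (E' (x (I a')) / x (I a')) = 0
      have h1 : ∀ a', ((N a a' : Q) : K) * (E' (x (I a')) / x (I a')) =
          (if a = a' then (q a : K) * (E' (x (I a')) / x (I a')) else 0) +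
            (E' (x (I a')) / x (I a')) * (x (I a') * D (I a') (q a)) := by
        intro a'
        simp only [N, Matrix.of_apply]
        push_cast
        split_ifs
        · ring
        · push_cast
          ring
      rw [Finset.sum_congr rfl fun a' _ => h1 a', Finset.sum_add_distrib, Finset.sum_ite_eq,
        if_pos (Finset.mem_univ _)]
      exact hsys a
    rw [← hEF g hg, hsumI]
    refine Finset.sum_eq_zero fun a _ => ?_
    rw [congrFun he a]
    simp

end tor

end Pool.Agent.KS6_77.ID
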