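import Pool.Agent.KS6_77.ID.Stp

/-!
# Change of the `p`-basis
-/

set_option autoImplicit false
set_option linter.unusedVariables false
set_option linter.unusedSectionVars false

universe u v

namespace Pool.Agent.KS6_77.ID

open Pool.Agent.KS6_77.IC

section proj

variable {K : Type u} [Field K] (p : ℕ) [hpr : Fact p.Prime] [CharP K p]

lemma pow_ne_one {a b : Fin p} (h : a ≠ b) : (((a : ℕ) : K) - ((b : ℕ) : K)) ^ (p - 1) = 1 := by
  have h1 : (((a : ℕ) : ZMod p) - ((b : ℕ) : ZMod p)) ≠ 0 := by
    intro h0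
    apply h
    have h2 := sub_eq_zero.1 h0
    rw [ZMod.natCast_eq_natCast_iff'] at h2
    rw [Nat.mod_eq_of_lt a.2, Nat.mod_eq_of_lt b.2] at h2
    exact Fin.ext h2
  have h2 := congrArg (ZMod.castHom (dvd_refl p) K) (ZMod.pow_card_sub_one_eq_one h1)
  rwa [map_pow, map_sub, map_natCast, map_natCast, map_one] at h2

/-- The projection to an eigenspace. -/
theorem proj_sub (Z : Derivation ℤ K K) (P : AddSubgroup K) (hP : ∀ g ∈ P, Z g ∈ P) {ι : Type}
    (B : Finset ι) (e : ι → Fin p) (v : ι → K)
    (hv : ∀ b ∈ B, Z (v b) = ((e b : ℕ) : K) * v b) (t : Fin p)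
    (h : Z (∑ b ∈ B, v b) - ((t : ℕ) : K) * ∑ b ∈ B, v b ∈ P) :
    ∑ b ∈ B, v b - ∑ b ∈ B.filter (fun b => e b = t), v b ∈ P := by
  classical
  have hmulP : ∀ g ∈ P, ((t : ℕ) : K) * g ∈ P := by
    intro g hg
    rw [← nsmul_eq_mul]
    exact P.nsmul_mem hg _
  have hstep : ∀ k : ℕ, Z (∑ b ∈ B, (((e b : ℕ) : K) - ((t : ℕ) : K)) ^ k * v b) -
      ((t : ℕ) : K) * ∑ b ∈ B, (((e b : ℕ) : K) - ((t : ℕ) : K)) ^ k * v b =
      ∑ b ∈ B, (((e b : ℕ) : K) - ((t : ℕ) : K)) ^ (k + 1) * v b := by
    intro k
    rw [map_sum, Finset.mul_sum, ← Finset.sum_sub_distrib]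
    refine Finset.sum_congr rfl fun b hb => ?_
    have h1 : Z ((((e b : ℕ) : K) - ((t : ℕ) : K)) ^ k) = 0 := by
      rw [Derivation.leibniz_pow, map_sub, Derivation.map_natCast, Derivation.map_natCast, sub_zero,
        smul_zero, smul_zero]
    rw [Derivation.leibniz, h1, smul_zero, add_zero, smul_eq_mul, hv b hb, pow_succ]
    ring
  have hk : ∀ k : ℕ, ∑ b ∈ B, (((e b : ℕ) : K) - ((t : ℕ) : K)) ^ (k + 1) * v b ∈ P := by
    intro k
    induction k with
    | zero =>
      rw [← hstep 0]
      simpa using h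
    | succ k ih =>
      rw [← hstep (k + 1)]
      exact P.sub_mem (hP _ ih) (hmulP _ ih)
  have h2 := hk (p - 2)
  have hp2 := hpr.out.two_le
  rw [show p - 2 + 1 = p - 1 by omega] at h2
  have h3 : ∑ b ∈ B, v b - ∑ b ∈ B.filter (fun b => e b = t), v b =
      ∑ b ∈ B, (((e b : ℕ) : K) - ((t : ℕ) : K)) ^ (p - 1) * v b := by
    rw [← Finset.sum_filter_add_sum_filter_not (s := B) (p := fun b => e b = t) (f := v),
      ← Finset.sum_filter_add_sum_filter_not (s := B) (p := fun b => e b = t)
        (f := fun b => (((e b : ℕ) : K) - ((t : ℕ) : K)) ^ (p - 1) * v b), add_sub_cancel_left]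
    have h4 : ∑ b ∈ B.filter (fun b => e b = t),
        (((e b : ℕ) : K) - ((t : ℕ) : K)) ^ (p - 1) * v b = 0 := by
      refine Finset.sum_eq_zero fun b hb => ?_
      rw [(Finset.mem_filter.1 hb).2, sub_self, zero_pow (by omega), zero_mul]
    rw [h4, zero_add]
    refine Finset.sum_congr rfl fun b hb => ?_
    rw [pow_ne_one p (Finset.mem_filter.1 hb).2, one_mul]
  rw [h3]
  exact h2

variable {n : ℕ}

/-- The action of Euler derivations on monomials. -/
lemma euler_mon {z : Fin n → K} {i : Fin n} {Z : Derivation ℤ K K}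
    (hZ : ∀ j, Z (z j) = if i = j then z j else 0) (c : K) (b : Fin n → ℕ) :
    Z (c ^ p * ∏ l, z l ^ b l) = (b i : K) * (c ^ p * ∏ l, z l ^ b l) := by
  classical
  rw [der_pow_p_mul p]
  have h1 : ∀ s : Finset (Fin n), Z (∏ l ∈ s, z l ^ b l) =
      (if i ∈ s then (b i : K) else 0) * ∏ l ∈ s, z l ^ b l := by
    intro s
    induction s using Finset.induction_on with
    | empty => simp
    | insert a s ha ih =>
      have h2 : Z (z a ^ b a) = (if i = a then (b i : K) else 0) * z a ^ b a := by
        rw [Derivation.leibniz_pow, hZ]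
        by_cases hia : i = a
        · subst hia
          rw [if_pos rfl, if_pos rfl, nsmul_eq_mul, smul_eq_mul]
          rcases Nat.eq_zero_or_pos (b i) with h3 | h3
          · rw [h3]; simp
          · obtain ⟨m, hm⟩ := Nat.exists_eq_add_of_le' h3
            rw [hm, Nat.add_sub_cancel, pow_succ]
        · rw [if_neg hia, if_neg hia, smul_zero, smul_zero, zero_mul]
      rw [Finset.prod_insert ha, Derivation.leibniz, smul_eq_mul, smul_eq_mul, ih, h2]
      by_cases hia : i = a
      · subst hia
        rw [if_neg ha, if_pos rfl, if_pos (Finset.mem_insert_self _ _)]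
        ring
      · have h3 : (i ∈ insert a s) ↔ i ∈ s := by
          rw [Finset.mem_insert]
          exact ⟨fun h => h.resolve_left hia, Or.inr⟩
        by_cases hs : i ∈ s
        · rw [if_pos hs, if_neg hia, if_pos (h3.2 hs)]; ring
        · rw [if_neg hs, if_neg hia, if_neg fun h => hs (h3.1 h)]; ring
  rw [h1, if_pos (Finset.mem_univ _)]
  ring

/-- Monomials with Euler derivations are independent. -/
theorem li_of_euler {z : Fin n → K} (hz : ∀ i, z i ≠ 0) {Z : Fin n → Derivation ℤ K K}
    (hZ : ∀ i j, Z i (z j) = if i = j then z j else 0) : Li p z := by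
  classical
  intro c hc β
  have hv : ∀ i (b : Fin n → Fin p), Z i (c b ^ p * xb z b) = ((b i : ℕ) : K) *
      (c b ^ p * xb z b) := fun i b => euler_mon p (hZ i) (c b) (fun l => (b l : ℕ))
  have key : ∀ s : Finset (Fin n), ∑ b ∈ Finset.univ.filter (fun b : Fin n → Fin p =>
      ∀ i ∈ s, b i = β i), c b ^ p * xb z b = 0 := by
    intro s
    induction s using Finset.induction_on with
    | empty =>
      rw [Finset.filter_true_of_mem (fun b _ i hi => absurd hi (Finset.notMem_empty i))]
      exact hc
    | insert i s hi ih =>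
      have h1 := proj_sub p (Z i) ⊥ (fun g hg => by
        rw [AddSubgroup.mem_bot] at hg ⊢
        rw [hg, map_zero]) _ (fun b : Fin n → Fin p => b i) (fun b => c b ^ p * xb z b)
        (fun b _ => hv i b) (β i) (by
          rw [ih, map_zero, mul_zero, sub_zero]
          exact AddSubgroup.zero_mem _)
      rw [ih, zero_sub, AddSubgroup.mem_bot, neg_eq_zero, Finset.filter_filter] at h1
      rw [← h1]
      refine Finset.sum_congr ?_ fun _ _ => rfl
      ext b
      simp only [Finset.mem_filter, Finset.mem_univ, true_and, Finset.mem_insert, forall_eq_or_imp]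
      exact and_comm
  have h1 := key Finset.univ
  have h2 : Finset.univ.filter (fun b : Fin n → Fin p => ∀ i ∈ Finset.univ, b i = β i) = {β} := by
    ext b
    simp only [Finset.mem_filter, Finset.mem_univ, true_and, Finset.mem_singleton, true_imp_iff]
    exact ⟨fun h => funext h, fun h i => by rw [h]⟩
  rw [h2, Finset.sum_singleton] at h1
  have h3 : xb z β ≠ 0 := Finset.prod_ne_zero_iff.2 fun i _ => pow_ne_zero _ (hz i)
  exact (pow_eq_zero_iff hpr.out.ne_zero).1 ((mul_eq_zero.1 h1).resolve_right h3)

/-- The dimension over the field of `p`-th powers. -/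
theorem sp_of_li {x z : Fin n → K} (hs : Sp p x) (hx : Li p x) (hz : Li p z) : Sp p z := by
  classical
  let k0 : Subfield K := (frobenius K p).fieldRange
  have hmem : ∀ c : K, c ^ p ∈ k0 := fun c => ⟨c, rfl⟩
  have hli : ∀ {y : Fin n → K}, Li p y → LinearIndependent k0 (fun b : Fin n → Fin p => xb y b) := by
    intro y hy
    rw [Fintype.linearIndependent_iff]
    intro g hg b
    choose c hc using fun b => (g b).2
    have h1 := hy c (by
      rw [← hg]
      refine Finset.sum_congr rfl fun b _ => ?_
      rw [Subfield.smul_def, smul_eq_mul, ← hc b]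
      rfl) b
    apply Subtype.ext
    rw [← hc b, h1]
    exact map_zero _
  have hspan : Submodule.span k0 (Set.range fun b : Fin n → Fin p => xb x b) = ⊤ := by
    rw [eq_top_iff]
    rintro w -
    obtain ⟨c, hc⟩ := hs w
    refine (Submodule.mem_span_range_iff_exists_fun k0).2 ⟨fun b => ⟨c b ^ p, hmem _⟩, ?_⟩
    rw [hc]
    rfl
  have hfd : Module.Finite k0 K := Module.Finite.of_basis (Module.Basis.mk (hli hx) hspan.ge)
  have hfr : Module.finrank k0 K = Fintype.card (Fin n → Fin p) :=
    Module.finrank_eq_card_basis (Module.Basis.mk (hli hx) hspan.ge)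
  have hz2 := (hli hz).span_eq_top_of_card_eq_finrank' hfr.symm
  intro w
  have h1 : w ∈ Submodule.span k0 (Set.range fun b : Fin n → Fin p => xb z b) := by
    rw [hz2]; trivial
  obtain ⟨g, hg⟩ := (Submodule.mem_span_range_iff_exists_fun k0).1 h1
  choose c hc using fun b => (g b).2
  refine ⟨c, ?_⟩
  rw [← hg]
  refine Finset.sum_congr rfl fun b _ => ?_
  rw [Subfield.smul_def, smul_eq_mul, ← hc b]
  rfl

/-- A derivation which kills the members of a `p`-basis is zero. -/
theorem der_zero {x : Fin n → K} (hs : Sp p x) {D : Derivation ℤ K K} (hD : ∀ i, D (x i) = 0)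
    (g : K) : D g = 0 := by
  classical
  obtain ⟨c, hc⟩ := hs g
  rw [hc, map_sum]
  refine Finset.sum_eq_zero fun b _ => ?_
  rw [der_pow_p_mul p]
  have h1 : ∀ s : Finset (Fin n), D (∏ l ∈ s, x l ^ (b l : ℕ)) = 0 := by
    intro s
    induction s using Finset.induction_on with
    | empty => simp
    | insert a s ha ih =>
      rw [Finset.prod_insert ha, Derivation.leibniz, ih, Derivation.leibniz_pow, hD]
      simp
  unfold xb
  rw [h1, mul_zero]

lemma sum_smul_der (s : Finset (Fin n)) (c : Fin n → K) (D : Fin n → Derivation ℤ K K) (f : K) :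
    (∑ l ∈ s, c l • D l) f = ∑ l ∈ s, c l * D l f := by
  classical
  induction s using Finset.induction_on with
  | empty => simp
  | insert a s ha ih =>
    rw [Finset.sum_insert ha, Finset.sum_insert ha, Derivation.add_apply, ih,
      Derivation.smul_apply, smul_eq_mul]

/-- Derivations are combinations of the dual derivations. -/
theorem der_expand {x : Fin n → K} (hs : Sp p x) {D : Fin n → Derivation ℤ K K}
    (hD : ∀ i j, D i (x j) = if i = j then 1 else 0) (E : Derivation ℤ K K) (g : K) :
    E g = ∑ i, E (x i) * D i g := by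
  classical
  have h1 := der_zero p hs (D := E - ∑ i, E (x i) • D i) (fun j => by
    rw [Derivation.sub_apply, sum_smul_der]
    have h2 : ∀ i, E (x i) * D i (x j) = if i = j then E (x i) else 0 := by
      intro i
      rw [hD]
      split_ifs
      · rw [mul_one]
      · rw [mul_zero]
    rw [Finset.sum_congr rfl fun i _ => h2 i, Finset.sum_ite_eq', if_pos (Finset.mem_univ _),
      sub_self]) g
  rw [Derivation.sub_apply, sum_smul_der, sub_eq_zero] at h1
  exact h1

end proj

end Pool.Agent.KS6_77.ID
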